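import Pool.Agent.TH469.EQ.Pat
import Pool.Agent.TH477.RB.Sym

/-!
Symmetrisation: there is a complete multipartite extremal graph.
-/

set_option autoImplicit false

namespace Pool.Agent.TH469.EQ

open Finset Pool.Agent.TH477.RB Pool.Agent.TH477.RB.Sym

section dec

variable {V : Type} {r : ℕ} {G H : SimpleGraph V} {a b : V} {A B : Set V}

open Classical in
/-- the palette of a colouring of `H` together with a colouring of the star at a new vertex -/
noncomputable def pl (H : SimpleGraph V) (A : Set V) (c : H.edgeSet → Fin r) (x : A → Fin r) :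
    Option V → Option V → Finset (Fin r)
  | some u, some v => clr H c u v
  | none, some v => univ.filter (fun g => ∃ h : v ∈ A, x ⟨v, h⟩ = g)
  | some u, none => univ.filter (fun g => ∃ h : u ∈ A, x ⟨u, h⟩ = g)
  | none, none => ∅

/-- the colouring of the star fits -/
def okk (H : SimpleGraph V) (A : Set V) (c : H.edgeSet → Fin r) (x : A → Fin r) : Prop :=
  ∀ y : Fin 4 → Option V, ¬ Real4 (pl H A c x) y

/-- number of the colourings of the star that fit -/
noncomputable def ff (H : SimpleGraph V) (A : Set V) (c : H.edgeSet → Fin r) : ℕ :=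
  Nat.card {x : A → Fin r // okk H A c x}

theorem pl_sub (h : Dec G H a b A B) (c : G.edgeSet → Fin r) (u v : Option V) (g : Fin r)
    (hg : g ∈ pl H A (fun e => c (h.eH e)) (fun z => c (h.eA z)) u v) :
    g ∈ clr G c (u.getD a) (v.getD a) := by
  rcases u with _ | u <;> rcases v with _ | v
  · simp [pl] at hg
  · simp only [pl, mem_filter, mem_univ, true_and] at hg
    obtain ⟨hv, hc⟩ := hg
    exact mem_clr.2 ⟨h.adj_a.2 hv, hc⟩
  · simp only [pl, mem_filter, mem_univ, true_and] at hg
    obtain ⟨hv, hc⟩ := hg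
    rw [clr_symm]
    exact mem_clr.2 ⟨h.adj_a.2 hv, hc⟩
  · simp only [pl] at hg
    obtain ⟨hv, hc⟩ := mem_clr.1 hg
    exact mem_clr.2 ⟨(h.adj u v).2 (Or.inl hv), hc⟩

open Classical in
theorem sub_pl (h : Dec G H a b A B) (c : G.edgeSet → Fin r) (u v : V) (hu : u ≠ b) (hv : v ≠ b)
    (g : Fin r) (hg : g ∈ clr G c u v) :
    g ∈ pl H A (fun e => c (h.eH e)) (fun z => c (h.eA z)) (if u = a then none else some u)
      (if v = a then none else some v) := by
  obtain ⟨hadj, hc⟩ := mem_clr.1 hg
  by_cases h1 : u = a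
  · rw [if_pos h1]
    by_cases h2 : v = a
    · subst h1
      subst h2
      exact absurd hadj G.irrefl
    · rw [if_neg h2]
      subst h1
      simp only [pl, mem_filter, mem_univ, true_and]
      exact ⟨h.adj_a.1 hadj, hc⟩
  · rw [if_neg h1]
    by_cases h2 : v = a
    · rw [if_pos h2]
      subst h2
      simp only [pl, mem_filter, mem_univ, true_and]
      refine ⟨h.adj_a.1 hadj.symm, ?_⟩
      rw [← hc]
      congr 1
      exact Subtype.ext Sym2.eq_swap
    · rw [if_neg h2]
      simp only [pl]
      exact mem_clr.2 ⟨(h.adj_of_ne h1 hu h2 hv).1 hadj, hc⟩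

theorem good_side (h : Dec G H a b A B) (c : G.edgeSet → Fin r)
    (hfree : ∀ x : Fin 4 → V, ¬ Real4 (clr G c) x) :
    okk H A (fun e => c (h.eH e)) (fun z => c (h.eA z)) := by
  intro y hy
  exact hfree (fun i => (y i).getD a) (hy.map (fun i j _ g hg => pl_sub h c _ _ g hg))

theorem side_good (h : Dec G H a b A B) (c : G.edgeSet → Fin r)
    (hok : okk H A (fun e => c (h.eH e)) (fun z => c (h.eA z))) (x : Fin 4 → V)
    (hx : ∀ i, x i ≠ b) : ¬ Real4 (clr G c) x := by
  classical
  intro hr
  exact hok (fun i => if x i = a then none else some (x i))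
    (hr.map (fun i j _ g hg => sub_pl h c _ _ (hx i) (hx j) g hg))

theorem good_iff (h : Dec G H a b A B) (c : G.edgeSet → Fin r) :
    PFree PC G c ↔ okk H A (fun e => c (h.eH e)) (fun z => c (h.eA z)) ∧
      okk H B (fun e => c (h.eH e)) (fun z => c (h.symm.eA z)) := by
  rw [pfree_iff]
  constructor
  · intro hf
    exact ⟨good_side h c hf, good_side h.symm c hf⟩
  · rintro ⟨h1, h2⟩ x hr
    by_cases hb : ∃ i, x i = b
    · obtain ⟨i, hi⟩ := hb
      refine side_good h.symm c h2 x ?_ hr
      intro j hj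
      have hadj := hr.adj (G := G) (fun x y g hg => (mem_clr.1 hg).1)
      have hij : j ≠ i := by
        rintro rfl
        exact h.hab (hj.symm.trans hi)
      have h3 := hadj j i hij
      rw [hi, hj] at h3
      exact h.bA (h.adj_a.1 h3)
    · push Not at hb
      exact side_good h c h1 x hb hr

open Classical in
/-- the number of colourings as a sum -/
theorem num_eq [Fintype V] (h : Dec G H a b A B) :
    num r PC G = ∑ c : H.edgeSet → Fin r, ff H A c * ff H B c := by
  have e1 : {c : G.edgeSet → Fin r // PFree PC G c} ≃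
      (Σ c : H.edgeSet → Fin r, {xy : (A → Fin r) × (B → Fin r) //
        okk H A c xy.1 ∧ okk H B c xy.2}) := by
    refine ((Equiv.arrowCongr h.equiv.symm (Equiv.refl (Fin r))).trans
      ((Equiv.sumArrowEquivProdArrow _ _ _).trans
      (Equiv.prodCongr (Equiv.refl _) (Equiv.sumArrowEquivProdArrow _ _ _)))).subtypeEquiv
      (q := fun p => okk H A p.1 p.2.1 ∧ okk H B p.1 p.2.2) ?_ |>.trans ?_
    · intro c
      exact good_iff h c
    · exact
      { toFun := fun p => ⟨p.1.1, ⟨p.1.2, p.2⟩⟩
        invFun := fun p => ⟨(p.1, p.2.1), p.2.2⟩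
        left_inv := fun _ => rfl
        right_inv := fun _ => rfl }
  have e2 : num r PC G = Nat.card (Σ c : H.edgeSet → Fin r, {xy : (A → Fin r) × (B → Fin r) //
        okk H A c xy.1 ∧ okk H B c xy.2}) := Nat.card_congr e1
  rw [e2, Nat.card_eq_fintype_card, Fintype.card_sigma]
  refine Finset.sum_congr rfl fun c _ => ?_
  rw [← Nat.card_eq_fintype_card]
  unfold ff
  rw [← Nat.card_prod]
  exact Nat.card_congr Equiv.subtypeProdEquivProd

end dec

section main

variable {n r : ℕ}

theorem symm1 {G G1 G2 H : SimpleGraph (Fin n)} {a b : Fin n}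
    {A B : Set (Fin n)} (d : Dec G H a b A B) (d1 : Dec G1 H a b A A) (d2 : Dec G2 H b a B B)
    (m1 : num r PC G1 ≤ num r PC G) (m2 : num r PC G2 ≤ num r PC G) :
    ∀ c : H.edgeSet → Fin r, ff H A c = ff H B c := by
  classical
  have e0 := num_eq (r := r) d
  have e1 := num_eq (r := r) d1
  have e2 := num_eq (r := r) d2
  rw [e0, e1] at m1
  rw [e0, e2] at m2
  have hF : ∀ (i1 i2 : Fintype (H.edgeSet → Fin r)) (g : (H.edgeSet → Fin r) → ℕ),
      (@Finset.univ _ i1).sum g = (@Finset.univ _ i2).sum g :=
    fun i1 i2 g => by rw [Subsingleton.elim i1 i2]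
  have key := cs_eq (ι := H.edgeSet → Fin r) (fun _ => True) (ff H A) (ff H B) ?_ ?_
  · intro c
    exact key c trivial
  · simp only [if_true]
    exact (hF _ _ _).trans_le (m1.trans_eq (hF _ _ _))
  · simp only [if_true]
    exact (hF _ _ _).trans_le (m2.trans_eq (hF _ _ _))

theorem sym_step (G : SimpleGraph (Fin n)) [DecidableRel G.Adj] (a b : Fin n) (hab : a ≠ b)
    (hnadj : ¬ G.Adj a b)
    (hext : Extremal r PC G) : num r PC (G.replaceVertex a b) = num r PC G := by
  classical
  have d := dec_self G hab hnadj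
  have d1 := dec_replace G hab hnadj
  have d2 := dec_replace G hab.symm (fun h => hnadj h.symm)
  rw [core_comm] at d2
  have heq := symm1 (r := r) d d1 d2 (hext _) (hext _)
  rw [num_eq (r := r) d1, num_eq (r := r) d]
  refine Finset.sum_congr rfl fun c _ => ?_
  rw [heq c]

/-- There is an extremal graph that is complete multipartite. -/
theorem exists_cm (n r : ℕ) : ∃ G : SimpleGraph (Fin n), Extremal r PC G ∧
    G.IsCompleteMultipartite := by
  classical
  set s : Finset (SimpleGraph (Fin n)) := univ.filter (fun G => Extremal r PC G) with hs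
  have hne : s.Nonempty := by
    obtain ⟨G, _, hG⟩ := Finset.exists_max_image (univ : Finset (SimpleGraph (Fin n)))
      (fun G => num r PC G) ⟨⊥, mem_univ _⟩
    exact ⟨G, mem_filter.2 ⟨mem_univ _, fun H => hG H (mem_univ _)⟩⟩
  obtain ⟨G, hG, hmaxG⟩ := Finset.exists_max_image s (fun G => (tw G).card) hne
  have hext : Extremal r PC G := (Finset.mem_filter.1 hG).2
  refine ⟨G, hext, ?_⟩
  -- a single symmetrisation step
  have step : ∀ a b : Fin n, ¬ G.Adj a b → (¬ ∀ z, G.Adj a z ↔ G.Adj b z) →
      (cl G b).card ≤ (cl G a).card → False := by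
    intro a b hn hne' hcl
    have hab : a ≠ b := by
      rintro rfl
      exact hne' (fun z => Iff.rfl)
    have h1 := sym_step (r := r) G a b hab hn hext
    have hlt := tw_lt G hn hne' hcl
    have hmem : G.replaceVertex a b ∈ s := by
      refine Finset.mem_filter.2 ⟨Finset.mem_univ _, fun H => ?_⟩
      rw [h1]
      exact hext H
    exact absurd (hmaxG _ hmem) (not_le.2 hlt)
  refine ⟨fun x y z hxy hyz hxz => ?_⟩
  have hne1 : ¬ ∀ w, G.Adj x w ↔ G.Adj y w := fun h => hyz ((h z).1 hxz)
  rcases le_total (cl G y).card (cl G x).card with hle | hle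
  · exact step x y hxy hne1 hle
  · exact step y x (fun h => hxy h.symm) (fun h => hne1 (fun w => (h w).symm)) hle

end main

end Pool.Agent.TH469.EQ
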