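import Mathlib

/-!
Finite templates for the pattern `{C_4, diagonal, diagonal}` of `K_4`: a bound for the sum of the
list sizes.
-/

set_option autoImplicit false

namespace Pool.Agent.TH469.EQ

open Finset

/-- the quadruple `x` can be coloured from the lists with the 4-cycle `x0 x1 x2 x3` in one colour and
the two diagonals in two further colours -/
def Real4 {V : Type} {r : ℕ} (P : V → V → Finset (Fin r)) (x : Fin 4 → V) : Prop :=
  ∃ g a b : Fin r, g ≠ a ∧ g ≠ b ∧ a ≠ b ∧ g ∈ P (x 0) (x 1) ∧ g ∈ P (x 1) (x 2) ∧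
    g ∈ P (x 2) (x 3) ∧ g ∈ P (x 0) (x 3) ∧ a ∈ P (x 0) (x 2) ∧ b ∈ P (x 1) (x 3)

theorem inj4 {V : Type} {a b c d : V} (hab : a ≠ b) (hac : a ≠ c) (had : a ≠ d) (hbc : b ≠ c)
    (hbd : b ≠ d) (hcd : c ≠ d) : Function.Injective ![a, b, c, d] := by
  intro i j hij
  have h1 := hab.symm
  have h2 := hac.symm
  have h3 := had.symm
  have h4 := hbc.symm
  have h5 := hbd.symm
  have h6 := hcd.symm
  fin_cases i <;> fin_cases j <;> simp_all

/-- complete template on `m` points without a realised quadruple -/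
structure Tm (m r : ℕ) where
  L : Fin m → Fin m → Finset (Fin r)
  symm : ∀ x y, L x y = L y x
  ne : ∀ x y, x ≠ y → (L x y).Nonempty
  free : ∀ x : Fin 4 → Fin m, Function.Injective x → ¬ Real4 L x

namespace Tm

variable {m r : ℕ} (T : Tm m r)

/-- ordered pairs `x < y` -/
def prs (m : ℕ) : Finset (Fin m × Fin m) := univ.filter (fun p => p.1 < p.2)

theorem mem_prs {m : ℕ} {p : Fin m × Fin m} : p ∈ prs m ↔ p.1 < p.2 := by simp [prs]

/-- vertices removed for the colour `g` -/
def U (g : Fin r) : Finset (Fin m) := univ.filter (fun x => ∃ y, x < y ∧ T.L x y = {g})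

def W (g : Fin r) : Finset (Fin m) := univ.filter (fun x => ¬ ∃ y, x < y ∧ T.L x y = {g})

theorem ne_single {g : Fin r} {x y : Fin m} (hx : x ∈ T.W g) (hy : y ∈ T.W g) (hxy : x ≠ y) :
    T.L x y ≠ {g} := by
  intro h
  rw [W, mem_filter] at hx hy
  rcases lt_or_gt_of_ne hxy with h1 | h1
  · exact hx.2 ⟨y, h1, h⟩
  · exact hy.2 ⟨x, h1, by rw [T.symm]; exact h⟩

theorem exists_ne {g : Fin r} {x y : Fin m} (hx : x ∈ T.W g) (hy : y ∈ T.W g) (hxy : x ≠ y) :
    ∃ b ∈ T.L x y, b ≠ g := by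
  by_contra hcon
  push Not at hcon
  apply T.ne_single hx hy hxy
  obtain ⟨c, hc⟩ := T.ne x y hxy
  ext d
  rw [mem_singleton]
  constructor
  · intro hd; exact hcon d hd
  · intro hd; rw [hd, ← hcon c hc]; exact hc

/-- common neighbours in the colour `g` -/
def Nb (g : Fin r) (x y : Fin m) : Finset (Fin m) :=
  (T.W g).filter (fun z => z ≠ x ∧ z ≠ y ∧ g ∈ T.L x z ∧ g ∈ T.L y z)

theorem key {g : Fin r} {x y z z' : Fin m} (hx : x ∈ T.W g) (hy : y ∈ T.W g) (hxy : x ≠ y)
    (hz : z ∈ T.Nb g x y) (hz' : z' ∈ T.Nb g x y) (hzz : z ≠ z') (h3 : 3 ≤ (T.L x y).card) :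
    False := by
  rw [Nb, mem_filter] at hz hz'
  obtain ⟨hzW, hzx, hzy, h1, h2⟩ := hz
  obtain ⟨hzW', hzx', hzy', h1', h2'⟩ := hz'
  obtain ⟨b, hb, hbg⟩ := T.exists_ne hzW hzW' hzz
  obtain ⟨a, ha, hag, hab⟩ : ∃ a ∈ T.L x y, a ≠ g ∧ a ≠ b := by
    by_contra hcon
    push Not at hcon
    have : T.L x y ⊆ {g, b} := by
      intro c hc
      rw [mem_insert, mem_singleton]
      by_cases h : c = g
      · exact Or.inl h
      · exact Or.inr (hcon c hc h)
    have h4 := (card_le_card this).trans card_le_two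
    omega
  refine T.free ![x, z, y, z'] ?_ ⟨g, a, b, hag.symm, hbg.symm, hab, ?_, ?_, ?_, ?_, ?_, ?_⟩
  · exact inj4 hzx.symm hxy hzx'.symm hzy hzz hzy'.symm
  · simpa using h1
  · simpa [T.symm z y] using h2
  · simpa using h2'
  · simpa using h1'
  · simpa using ha
  · simpa using hb

theorem Nb_card_le_one {g : Fin r} {x y : Fin m} (hx : x ∈ T.W g) (hy : y ∈ T.W g) (hxy : x ≠ y)
    (h3 : 3 ≤ (T.L x y).card) : (T.Nb g x y).card ≤ 1 := by
  rw [card_le_one]
  intro z hz z' hz'
  by_contra h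
  exact T.key hx hy hxy hz hz' h h3

theorem Nb_tiny {g : Fin r} {x y z z' : Fin m} (hx : x ∈ T.W g) (hy : y ∈ T.W g) (hxy : x ≠ y)
    (hz : z ∈ T.Nb g x y) (hz' : z' ∈ T.Nb g x y) (hzz : z ≠ z') : (T.L z z').card ≤ 2 := by
  by_contra h
  rw [Nb, mem_filter] at hz hz'
  obtain ⟨hzW, hzx, hzy, h1, h2⟩ := hz
  obtain ⟨hzW', hzx', hzy', h1', h2'⟩ := hz'
  refine T.key (x := z) (y := z') (z := x) (z' := y) hzW hzW' hzz ?_ ?_ hxy (by omega)
  · rw [Nb, mem_filter]
    exact ⟨hx, hzx.symm, hzx'.symm, by rw [T.symm]; exact h1, by rw [T.symm]; exact h1'⟩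
  · rw [Nb, mem_filter]
    exact ⟨hy, hzy.symm, hzy'.symm, by rw [T.symm]; exact h2, by rw [T.symm]; exact h2'⟩

/-- tiny pairs -/
def tny : Finset (Fin m × Fin m) := (prs m).filter (fun p => (T.L p.1 p.2).card ≤ 2)

/-- ordered tiny pairs -/
def otny : Finset (Fin m × Fin m) :=
  univ.filter (fun p => p.1 ≠ p.2 ∧ (T.L p.1 p.2).card ≤ 2)

theorem card_swap {m : ℕ} (Q : Fin m → Fin m → Prop) [∀ x y, Decidable (Q x y)]
    (hQ : ∀ x y, Q x y → Q y x) :
    (univ.filter (fun p : Fin m × Fin m => p.1 ≠ p.2 ∧ Q p.1 p.2)).card =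
      2 * ((prs m).filter (fun p => Q p.1 p.2)).card := by
  have h1 : univ.filter (fun p : Fin m × Fin m => p.1 ≠ p.2 ∧ Q p.1 p.2) =
      (prs m).filter (fun p => Q p.1 p.2) ∪
      ((prs m).filter (fun p => Q p.1 p.2)).image Prod.swap := by
    ext ⟨x, y⟩
    simp only [mem_filter, mem_univ, true_and, mem_union, mem_prs, mem_image, Prod.exists,
      Prod.swap_prod_mk, Prod.mk.injEq]
    constructor
    · rintro ⟨h, hq⟩
      rcases lt_or_gt_of_ne h with h1 | h1
      · exact Or.inl ⟨h1, hq⟩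
      · exact Or.inr ⟨y, x, ⟨h1, hQ _ _ hq⟩, rfl, rfl⟩
    · rintro (⟨h, hq⟩ | ⟨a, b, ⟨h, hq⟩, rfl, rfl⟩)
      · exact ⟨h.ne, hq⟩
      · exact ⟨h.ne', hQ _ _ hq⟩
  have h2 : Disjoint ((prs m).filter (fun p => Q p.1 p.2))
      (((prs m).filter (fun p => Q p.1 p.2)).image Prod.swap) := by
    rw [disjoint_left]
    rintro ⟨x, y⟩ h h'
    simp only [mem_filter, mem_prs, mem_image, Prod.exists, Prod.swap_prod_mk,
      Prod.mk.injEq] at h h'
    obtain ⟨a, b, ⟨h3, _⟩, rfl, rfl⟩ := h'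
    exact absurd h.1 (not_lt.2 h3.le)
  rw [h1, card_union_of_disjoint h2, card_image_of_injective _ Prod.swap_injective]
  ring

theorem card_prs (m : ℕ) : 2 * (prs m).card = m * (m - 1) := by
  have h := card_swap (m := m) (fun _ _ => True) (fun _ _ _ => trivial)
  have e : (prs m).filter (fun _ => True) = prs m := by simp
  rw [e] at h
  rw [← h]
  have h2 : univ.filter (fun p : Fin m × Fin m => p.1 ≠ p.2 ∧ True) = (univ : Finset (Fin m)).offDiag := by
    ext ⟨x, y⟩; simp
  rw [h2, offDiag_card]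
  simp [Nat.mul_sub]

theorem card_otny : T.otny.card = 2 * T.tny.card := by
  unfold otny tny
  exact card_swap (fun x y => (T.L x y).card ≤ 2) (fun x y h => by rw [T.symm]; exact h)

/-- few common neighbours for tiny pairs -/
theorem Nb_card_le {g : Fin r} {x y : Fin m} (hx : x ∈ T.W g) (hy : y ∈ T.W g) (hxy : x ≠ y)
    (h2 : (T.L x y).card ≤ 2) (z0 : ℕ) (hz0 : 2 * T.tny.card ≤ z0 * (z0 + 1) + 1) :
    (T.Nb g x y).card ≤ z0 := by
  by_contra hcon
  push Not at hcon
  set Z := T.Nb g x y with hZ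
  have h1 : Z.offDiag ∪ {(x, y), (y, x)} ⊆ T.otny := by
    intro p hp
    rw [mem_union, mem_offDiag, mem_insert, mem_singleton] at hp
    rw [otny, mem_filter]
    refine ⟨mem_univ _, ?_⟩
    rcases hp with ⟨h3, h4, h5⟩ | rfl | rfl
    · exact ⟨h5, T.Nb_tiny hx hy hxy h3 h4 h5⟩
    · exact ⟨hxy, h2⟩
    · exact ⟨hxy.symm, by rw [T.symm]; exact h2⟩
  have hxZ : x ∉ Z := by
    rw [hZ, Nb, mem_filter]
    rintro ⟨_, h, _⟩
    exact h rfl
  have hyZ : y ∉ Z := by
    rw [hZ, Nb, mem_filter]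
    rintro ⟨_, _, h, _⟩
    exact h rfl
  have hdisj : Disjoint Z.offDiag {(x, y), (y, x)} := by
    rw [disjoint_left]
    intro p hp hp'
    rw [mem_offDiag] at hp
    rw [mem_insert, mem_singleton] at hp'
    rcases hp' with rfl | rfl
    · exact hxZ hp.1
    · exact hyZ hp.1
  have h3 := card_le_card h1
  rw [card_union_of_disjoint hdisj, offDiag_card, T.card_otny, card_pair (by
    intro h
    rw [Prod.mk.injEq] at h
    exact hxy h.1)] at h3
  have h4 : (z0 + 1) * (z0 + 1) - (z0 + 1) ≤ Z.card * Z.card - Z.card := by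
    have : (z0 + 1) * z0 ≤ Z.card * (Z.card - 1) := Nat.mul_le_mul (by omega) (by omega)
    rw [← Nat.mul_sub_one, ← Nat.mul_sub_one]
    simpa using this
  have h5 : (z0 + 1) * (z0 + 1) - (z0 + 1) = z0 * (z0 + 1) := by
    rw [← Nat.mul_sub_one]; simp [mul_comm]
  omega

/-- edges of colour `g` inside `W` -/
def eW (g : Fin r) : Finset (Fin m × Fin m) :=
  (prs m).filter (fun p => p.1 ∈ T.W g ∧ p.2 ∈ T.W g ∧ g ∈ T.L p.1 p.2)

def dg (g : Fin r) (z : Fin m) : Finset (Fin m) :=
  (T.W g).filter (fun x => x ≠ z ∧ g ∈ T.L x z)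

theorem sum_dg (g : Fin r) : ∑ z ∈ T.W g, (T.dg g z).card = 2 * (T.eW g).card := by
  have h := card_swap (m := m) (fun x y => x ∈ T.W g ∧ y ∈ T.W g ∧ g ∈ T.L x y)
    (fun x y h => ⟨h.2.1, h.1, by rw [T.symm]; exact h.2.2⟩)
  unfold eW
  rw [← h]
  rw [card_filter, Fintype.sum_prod_type_right]
  rw [← sum_filter_add_sum_filter_not univ (fun z => z ∈ T.W g)]
  rw [show ∑ z ∈ univ.filter (fun z => z ∉ T.W g), ∑ x, (if x ≠ z ∧ x ∈ T.W g ∧ z ∈ T.W g ∧
    g ∈ T.L x z then 1 else 0) = 0 from by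
      apply sum_eq_zero
      intro z hz
      apply sum_eq_zero
      intro x _
      rw [if_neg]
      rintro ⟨_, _, h, _⟩
      exact (mem_filter.1 hz).2 h, add_zero]
  have e1 : univ.filter (fun z => z ∈ T.W g) = T.W g := by ext; simp
  rw [e1]
  apply sum_congr rfl
  intro z hz
  rw [← card_filter]
  congr 1
  ext x
  simp only [dg, mem_filter, mem_univ, true_and]
  tauto

/-- double counting of cherries -/
theorem cherries (g : Fin r) : ∑ z ∈ T.W g, (T.dg g z).card * ((T.dg g z).card - 1) =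
    ∑ p ∈ (T.W g).offDiag, (T.Nb g p.1 p.2).card := by
  have h1 : ∀ z ∈ T.W g, (T.dg g z).card * ((T.dg g z).card - 1) =
      ∑ p ∈ (T.W g).offDiag, (if p.1 ∈ T.dg g z ∧ p.2 ∈ T.dg g z then 1 else 0) := by
    intro z _
    rw [Nat.mul_sub_one, ← offDiag_card, ← card_filter]
    congr 1
    ext ⟨x, y⟩
    simp only [mem_offDiag, mem_filter, dg]
    tauto
  rw [sum_congr rfl h1, sum_comm]
  apply sum_congr rfl
  rintro ⟨x, y⟩ _
  rw [← card_filter]
  congr 1
  ext z
  simp only [mem_filter, Nb, dg]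
  constructor
  · rintro ⟨h, ⟨h1, h2, h3⟩, ⟨h4, h5, h6⟩⟩
    exact ⟨h, h2.symm, h5.symm, h3, h6⟩
  · rintro ⟨h, h1, h2, h3, h4⟩
    simp_all [mem_offDiag, ne_comm]

theorem tangent (a d : ℕ) : 2 * a * d ≤ d * (d - 1) + a * (a + 1) := by
  rcases d with _ | e
  · simp
  · simp only [Nat.add_sub_cancel]
    have h : (0 : ℤ) ≤ ((e : ℤ) - a) * ((e : ℤ) - a + 1) := by
      rcases le_or_gt (a : ℤ) e with h1 | h1
      · exact mul_nonneg (by omega) (by omega)
      · exact mul_nonneg_of_nonpos_of_nonpos (by omega) (by omega)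
    zify
    nlinarith

theorem eW_bound (g : Fin r) (a z0 : ℕ) (hz1 : 1 ≤ z0)
    (hz0 : 2 * T.tny.card ≤ z0 * (z0 + 1) + 1) :
    4 * a * (T.eW g).card ≤ m * (m - 1) + 2 * T.tny.card * (z0 - 1) + m * (a * (a + 1)) := by
  have h1 : ∑ p ∈ (T.W g).offDiag, (T.Nb g p.1 p.2).card ≤
      ∑ p ∈ (T.W g).offDiag, (1 + if (T.L p.1 p.2).card ≤ 2 then z0 - 1 else 0) := by
    apply sum_le_sum
    rintro ⟨x, y⟩ hp
    rw [mem_offDiag] at hp
    obtain ⟨hx, hy, hxy⟩ := hp
    simp only at hx hy hxy ⊢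
    split_ifs with h
    · have := T.Nb_card_le hx hy hxy h z0 hz0
      omega
    · have := T.Nb_card_le_one hx hy hxy (by omega)
      omega
  have h2 : ∑ p ∈ (T.W g).offDiag, (1 + if (T.L p.1 p.2).card ≤ 2 then z0 - 1 else 0) ≤
      m * (m - 1) + 2 * T.tny.card * (z0 - 1) := by
    rw [sum_add_distrib, sum_const, smul_eq_mul, mul_one, ← sum_filter, sum_const, smul_eq_mul,
      ← T.card_otny]
    have h3 : (T.W g).offDiag.card ≤ m * (m - 1) := by
      have h4 : (T.W g).card ≤ m := by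
        have := card_le_univ (T.W g)
        rwa [Fintype.card_fin] at this
      rw [offDiag_card, ← Nat.mul_sub_one]
      exact Nat.mul_le_mul h4 (by omega)
    have h5 : ((T.W g).offDiag.filter (fun p => (T.L p.1 p.2).card ≤ 2)).card ≤ T.otny.card := by
      apply card_le_card
      intro p hp
      rw [mem_filter, mem_offDiag] at hp
      rw [otny, mem_filter]
      exact ⟨mem_univ _, hp.1.2.2, hp.2⟩
    exact Nat.add_le_add h3 (Nat.mul_le_mul_right _ h5)
  have h3 : ∑ z ∈ T.W g, 2 * a * (T.dg g z).card ≤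
      ∑ z ∈ T.W g, ((T.dg g z).card * ((T.dg g z).card - 1) + a * (a + 1)) :=
    sum_le_sum fun z _ => tangent a _
  rw [← mul_sum, T.sum_dg, sum_add_distrib, T.cherries, sum_const, smul_eq_mul] at h3
  have h4 : (T.W g).card * (a * (a + 1)) ≤ m * (a * (a + 1)) := by
    have h4 : (T.W g).card ≤ m := by
      have := card_le_univ (T.W g)
      rwa [Fintype.card_fin] at this
    exact Nat.mul_le_mul_right _ h4
  calc 4 * a * (T.eW g).card = 2 * a * (2 * (T.eW g).card) := by ring
    _ ≤ _ := by omega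

/-- all pairs of colour `g` -/
def eA (g : Fin r) : Finset (Fin m × Fin m) := (prs m).filter (fun p => g ∈ T.L p.1 p.2)

theorem eA_le (g : Fin r) : (T.eA g).card ≤ (T.eW g).card + (T.U g).card * (m - 1) := by
  have h1 : T.eA g ⊆ T.eW g ∪ (T.U g).biUnion (fun x =>
      ((univ.erase x).image (fun y => if x < y then (x, y) else (y, x)))) := by
    rintro ⟨x, y⟩ hp
    rw [eA, mem_filter, mem_prs] at hp
    obtain ⟨hxy, hg⟩ := hp
    simp only at hxy hg
    rw [mem_union]
    by_cases hx : x ∈ T.U g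
    · right
      rw [mem_biUnion]
      refine ⟨x, hx, ?_⟩
      rw [mem_image]
      exact ⟨y, by simp [hxy.ne'], by simp [hxy]⟩
    · by_cases hy : y ∈ T.U g
      · right
        rw [mem_biUnion]
        refine ⟨y, hy, ?_⟩
        rw [mem_image]
        exact ⟨x, by simp [hxy.ne], by simp [not_lt.2 hxy.le]⟩
      · left
        rw [eW, mem_filter, mem_prs]
        refine ⟨hxy, ?_, ?_, hg⟩
        · rw [W, mem_filter]
          refine ⟨mem_univ _, fun h => hx ?_⟩
          rw [U, mem_filter]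
          exact ⟨mem_univ _, h⟩
        · rw [W, mem_filter]
          refine ⟨mem_univ _, fun h => hy ?_⟩
          rw [U, mem_filter]
          exact ⟨mem_univ _, h⟩
  refine (card_le_card h1).trans ((card_union_le _ _).trans ?_)
  apply Nat.add_le_add_left
  refine card_biUnion_le.trans ?_
  rw [← smul_eq_mul, ← sum_const]
  apply sum_le_sum
  intro x _
  refine card_image_le.trans ?_
  rw [card_erase_of_mem (mem_univ x), card_univ, Fintype.card_fin]

/-- singleton pairs of colour `g` -/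
def sg (g : Fin r) : Finset (Fin m × Fin m) := (prs m).filter (fun p => T.L p.1 p.2 = {g})

theorem U_le (g : Fin r) : (T.U g).card ≤ (T.sg g).card := by
  have h1 : T.U g ⊆ (T.sg g).image Prod.fst := by
    intro x hx
    rw [U, mem_filter] at hx
    obtain ⟨_, y, hxy, h⟩ := hx
    rw [mem_image]
    exact ⟨(x, y), by rw [sg, mem_filter, mem_prs]; exact ⟨hxy, h⟩, rfl⟩
  exact (card_le_card h1).trans card_image_le

/-- pairs with exactly one colour -/
def one : Finset (Fin m × Fin m) := (prs m).filter (fun p => (T.L p.1 p.2).card = 1)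

def two : Finset (Fin m × Fin m) := (prs m).filter (fun p => (T.L p.1 p.2).card = 2)

def big : Finset (Fin m × Fin m) := (prs m).filter (fun p => 3 ≤ (T.L p.1 p.2).card)

theorem sum_sg : ∑ g, (T.sg g).card = T.one.card := by
  have h1 : ∀ g, (T.sg g).card = ∑ p ∈ prs m, if T.L p.1 p.2 = {g} then 1 else 0 := by
    intro g; rw [sg, card_filter]
  rw [sum_congr rfl (fun g _ => h1 g), sum_comm, one, card_filter]
  apply sum_congr rfl
  intro p _
  split_ifs with h
  · obtain ⟨c, hc⟩ := card_eq_one.1 h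
    rw [hc]
    simp only [singleton_inj]
    simp
  · apply sum_eq_zero
    intro g _
    rw [if_neg]
    intro h2
    exact h (by rw [h2, card_singleton])

theorem sum_eA : ∑ g, (T.eA g).card = ∑ p ∈ prs m, (T.L p.1 p.2).card := by
  have h1 : ∀ g, (T.eA g).card = ∑ p ∈ prs m, if g ∈ T.L p.1 p.2 then 1 else 0 := by
    intro g; rw [eA, card_filter]
  rw [sum_congr rfl (fun g _ => h1 g), sum_comm]
  apply sum_congr rfl
  intro p _
  rw [← card_filter]
  congr 1
  ext; simp

/-- total size of the lists -/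
theorem total_le (K : ℕ) (hK : ∀ g, (T.eW g).card ≤ K) :
    ∑ p ∈ prs m, (T.L p.1 p.2).card ≤ r * K + (m - 1) * T.one.card := by
  rw [← T.sum_eA]
  calc ∑ g, (T.eA g).card ≤ ∑ g : Fin r, (K + (T.sg g).card * (m - 1)) := by
        apply sum_le_sum
        intro g _
        refine (T.eA_le g).trans ?_
        exact Nat.add_le_add (hK g) (Nat.mul_le_mul_right _ (T.U_le g))
    _ = _ := by
        rw [sum_add_distrib, sum_const, card_univ, Fintype.card_fin, smul_eq_mul, ← sum_mul,
          T.sum_sg]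
        ring

theorem card_split (p : Fin m × Fin m) (hp : p ∈ prs m) :
    (T.L p.1 p.2).card = 1 ∨ (T.L p.1 p.2).card = 2 ∨ 3 ≤ (T.L p.1 p.2).card := by
  have h := (T.ne p.1 p.2 (mem_prs.1 hp).ne).card_pos
  omega

theorem tny_eq : T.tny.card = T.one.card + T.two.card := by
  have : T.tny = T.one ∪ T.two := by
    ext p
    simp only [tny, one, two, mem_filter, mem_union]
    constructor
    · rintro ⟨hp, h⟩
      rcases T.card_split p hp with h1 | h1 | h1
      · exact Or.inl ⟨hp, h1⟩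
      · exact Or.inr ⟨hp, h1⟩
      · omega
    · rintro (⟨hp, h⟩ | ⟨hp, h⟩)
      · exact ⟨hp, by omega⟩
      · exact ⟨hp, by omega⟩
  rw [this, card_union_of_disjoint]
  rw [disjoint_left]
  intro p h1 h2
  rw [one, mem_filter] at h1
  rw [two, mem_filter] at h2
  omega

/-- splitting a sum over the pairs -/
theorem sum_split (f : Fin m × Fin m → ℝ) :
    ∑ p ∈ prs m, f p = ∑ p ∈ T.one, f p + ∑ p ∈ T.two, f p + ∑ p ∈ T.big, f p := by
  have h1 : T.one ∪ T.two ∪ T.big = prs m := by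
    ext p
    simp only [big, one, two, mem_filter, mem_union]
    constructor
    · rintro ((⟨hp, _⟩ | ⟨hp, _⟩) | ⟨hp, _⟩) <;> exact hp
    · intro hp
      rcases T.card_split p hp with h1 | h1 | h1
      · exact Or.inl (Or.inl ⟨hp, h1⟩)
      · exact Or.inl (Or.inr ⟨hp, h1⟩)
      · exact Or.inr ⟨hp, h1⟩
  rw [← h1, sum_union, sum_union]
  · rw [disjoint_left]
    intro p h1 h2
    rw [one, mem_filter] at h1
    rw [two, mem_filter] at h2
    omega
  · rw [disjoint_left]
    intro p h1 h2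
    rw [mem_union, one, two, mem_filter, mem_filter] at h1
    rw [big, mem_filter] at h2
    omega

/-- sum of the logarithms of the list sizes -/
noncomputable def wsum : ℝ := ∑ p ∈ prs m, Real.log ((T.L p.1 p.2).card : ℝ)

theorem log_le_tangent (q : ℝ) (hq : 0 < q) (s : ℕ) (hs : 0 < s) :
    Real.log s ≤ Real.log q - 1 + s / q := by
  have hs' : (0 : ℝ) < s := by exact_mod_cast hs
  have h1 := Real.log_le_sub_one_of_pos (show 0 < (s : ℝ) / q by positivity)
  rw [Real.log_div hs'.ne' hq.ne'] at h1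
  linarith

theorem card_big : (T.big.card : ℝ) = (prs m).card - T.one.card - T.two.card := by
  have h := T.sum_split (fun _ => 1)
  simp only [sum_const, nsmul_eq_mul, mul_one] at h
  linarith

/-- the main estimate -/
theorem wsum_le (K : ℕ) (hK : ∀ g, (T.eW g).card ≤ K) (q : ℝ) (hq : 0 < q) :
    T.wsum ≤ T.two.card * Real.log 2 +
      ((prs m).card - T.one.card - T.two.card) * (Real.log q - 1) +
      (r * K + (m - 1 : ℕ) * T.one.card - T.one.card - 2 * T.two.card) / q := by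
  have h1 : T.wsum = T.two.card * Real.log 2 + ∑ p ∈ T.big, Real.log ((T.L p.1 p.2).card : ℝ) := by
    unfold wsum
    rw [T.sum_split]
    have e1 : ∑ p ∈ T.one, Real.log ((T.L p.1 p.2).card : ℝ) = 0 := by
      apply sum_eq_zero
      intro p hp
      rw [one, mem_filter] at hp
      rw [hp.2]; simp
    have e2 : ∑ p ∈ T.two, Real.log ((T.L p.1 p.2).card : ℝ) = T.two.card * Real.log 2 := by
      rw [← nsmul_eq_mul, ← sum_const]
      apply sum_congr rfl
      intro p hp
      rw [two, mem_filter] at hp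
      rw [hp.2]; norm_num
    rw [e1, e2, zero_add]
  have h2 : ∑ p ∈ T.big, Real.log ((T.L p.1 p.2).card : ℝ) ≤
      ∑ p ∈ T.big, (Real.log q - 1 + ((T.L p.1 p.2).card : ℝ) / q) := by
    apply sum_le_sum
    intro p hp
    rw [big, mem_filter] at hp
    exact log_le_tangent q hq _ (by omega)
  have h3 : ∑ p ∈ T.big, ((T.L p.1 p.2).card : ℝ) ≤
      r * K + (m - 1 : ℕ) * T.one.card - T.one.card - 2 * T.two.card := by
    have h4 := T.total_le K hK
    have h5 : (∑ p ∈ prs m, ((T.L p.1 p.2).card : ℝ)) ≤ r * K + (m - 1 : ℕ) * T.one.card := by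
      exact_mod_cast h4
    rw [T.sum_split] at h5
    have e1 : ∑ p ∈ T.one, ((T.L p.1 p.2).card : ℝ) = T.one.card := by
      rw [show (T.one.card : ℝ) = ∑ p ∈ T.one, (1 : ℝ) by simp]
      apply sum_congr rfl
      intro p hp
      rw [one, mem_filter] at hp
      rw [hp.2]; simp
    have e2 : ∑ p ∈ T.two, ((T.L p.1 p.2).card : ℝ) = 2 * T.two.card := by
      rw [show (2 * T.two.card : ℝ) = ∑ p ∈ T.two, (2 : ℝ) by simp [mul_comm]]
      apply sum_congr rfl
      intro p hp
      rw [two, mem_filter] at hp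
      rw [hp.2]; simp
    rw [e1, e2] at h5
    linarith
  rw [sum_add_distrib, sum_const, nsmul_eq_mul, ← sum_div, T.card_big] at h2
  have h6 : (∑ p ∈ T.big, ((T.L p.1 p.2).card : ℝ)) / q ≤
      (r * K + (m - 1 : ℕ) * T.one.card - T.one.card - 2 * T.two.card) / q :=
    div_le_div_of_nonneg_right h3 hq.le
  rw [h1]
  linarith

theorem L_card_le (x y : Fin m) : (T.L x y).card ≤ r := by
  have := card_le_univ (T.L x y)
  rwa [Fintype.card_fin] at this

/-- the trivial estimate -/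
theorem wsum_triv (hr : 3 ≤ r) : T.wsum ≤ (T.one.card + T.two.card) * Real.log 2 +
    ((prs m).card - T.one.card - T.two.card) * Real.log r := by
  unfold wsum
  rw [T.sum_split]
  have hl2 : 0 ≤ Real.log 2 := Real.log_nonneg (by norm_num)
  have e1 : ∑ p ∈ T.one, Real.log ((T.L p.1 p.2).card : ℝ) ≤ T.one.card * Real.log 2 := by
    rw [← nsmul_eq_mul, ← sum_const]
    apply sum_le_sum
    intro p hp
    rw [one, mem_filter] at hp
    rw [hp.2]; simpa using hl2
  have e2 : ∑ p ∈ T.two, Real.log ((T.L p.1 p.2).card : ℝ) = T.two.card * Real.log 2 := by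
    rw [← nsmul_eq_mul, ← sum_const]
    apply sum_congr rfl
    intro p hp
    rw [two, mem_filter] at hp
    rw [hp.2]; norm_num
  have e3 : ∑ p ∈ T.big, Real.log ((T.L p.1 p.2).card : ℝ) ≤ T.big.card * Real.log r := by
    rw [← nsmul_eq_mul, ← sum_const]
    apply sum_le_sum
    intro p hp
    rw [big, mem_filter] at hp
    apply Real.log_le_log
    · exact_mod_cast (by omega : 0 < (T.L p.1 p.2).card)
    · exact_mod_cast T.L_card_le p.1 p.2
  rw [T.card_big] at e3
  rw [e2]
  linarith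

end Tm

end Pool.Agent.TH469.EQ
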