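import Pool.Agent.TH469.EQ.Defs
import Pool.Agent.TH469.EQ.Tmpl

/-!
The pattern `PC` in terms of quadruples.
-/

set_option autoImplicit false

namespace Pool.Agent.TH469.EQ

open Finset

open Classical in
/-- the palette of a colouring: the colour of the edge, if the pair is an edge -/
noncomputable def clr {V : Type} {r : ℕ} (G : SimpleGraph V) (c : G.edgeSet → Fin r) (x y : V) :
    Finset (Fin r) :=
  univ.filter (fun a => ∃ h : G.Adj x y, c ⟨s(x, y), G.mem_edgeSet.mpr h⟩ = a)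

theorem mem_clr {V : Type} {r : ℕ} {G : SimpleGraph V} {c : G.edgeSet → Fin r} {x y : V}
    {a : Fin r} : a ∈ clr G c x y ↔ ∃ h : G.Adj x y, c ⟨s(x, y), G.mem_edgeSet.mpr h⟩ = a := by
  simp [clr]

theorem clr_symm {V : Type} {r : ℕ} (G : SimpleGraph V) (c : G.edgeSet → Fin r) (x y : V) :
    clr G c x y = clr G c y x := by
  ext a
  rw [mem_clr, mem_clr]
  constructor
  · rintro ⟨h, hc⟩
    refine ⟨h.symm, ?_⟩
    rw [← hc]
    congr 1
    exact Subtype.ext Sym2.eq_swap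
  · rintro ⟨h, hc⟩
    refine ⟨h.symm, ?_⟩
    rw [← hc]
    congr 1
    exact Subtype.ext Sym2.eq_swap

theorem Real4.map {V V' : Type} {r : ℕ} {P : V → V → Finset (Fin r)}
    {P' : V' → V' → Finset (Fin r)} {x : Fin 4 → V} {y : Fin 4 → V'}
    (h : ∀ i j, i < j → ∀ g, g ∈ P (x i) (x j) → g ∈ P' (y i) (y j)) (hr : Real4 P x) :
    Real4 P' y := by
  obtain ⟨g, a, b, h1, h2, h3, h4, h5, h6, h7, h8, h9⟩ := hr
  exact ⟨g, a, b, h1, h2, h3, h _ _ (by decide) _ h4, h _ _ (by decide) _ h5,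
    h _ _ (by decide) _ h6, h _ _ (by decide) _ h7, h _ _ (by decide) _ h8,
    h _ _ (by decide) _ h9⟩

theorem Real4.adj {V : Type} {r : ℕ} {P : V → V → Finset (Fin r)} {G : SimpleGraph V}
    (hP : ∀ x y g, g ∈ P x y → G.Adj x y) {x : Fin 4 → V} (hr : Real4 P x) (i j : Fin 4)
    (hij : i ≠ j) : G.Adj (x i) (x j) := by
  obtain ⟨g, a, b, h1, h2, h3, h4, h5, h6, h7, h8, h9⟩ := hr
  have h4 := hP _ _ _ h4
  have h5 := hP _ _ _ h5
  have h6 := hP _ _ _ h6
  have h7 := hP _ _ _ h7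
  have h8 := hP _ _ _ h8
  have h9 := hP _ _ _ h9
  have h4' := h4.symm
  have h5' := h5.symm
  have h6' := h6.symm
  have h7' := h7.symm
  have h8' := h8.symm
  have h9' := h9.symm
  fin_cases i <;> fin_cases j <;> first | exact absurd rfl hij | assumption

theorem vec_inj {r : ℕ} {g a b : Fin r} (h1 : g ≠ a) (h2 : g ≠ b) (h3 : a ≠ b) :
    Function.Injective ![g, a, b] := by
  intro i j hij
  have h1' := h1.symm
  have h2' := h2.symm
  have h3' := h3.symm
  fin_cases i <;> fin_cases j <;> simp_all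

theorem pfree_iff {V : Type} {r : ℕ} {G : SimpleGraph V} {c : G.edgeSet → Fin r} :
    PFree PC G c ↔ ∀ x : Fin 4 → V, ¬ Real4 (clr G c) x := by
  constructor
  · intro hf x hx
    have hadj := hx.adj (G := G) (fun x y g hg => (mem_clr.1 hg).1)
    let f : (⊤ : SimpleGraph (Fin 4)) →g G := ⟨x, fun {i j} h => hadj i j h.ne⟩
    apply hf f
    obtain ⟨g, a, b, h1, h2, h3, h4, h5, h6, h7, h8, h9⟩ := hx
    have h4' := h4
    have h5' := h5
    have h6' := h6
    have h7' := h7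
    have h8' := h8
    have h9' := h9
    rw [clr_symm] at h4' h5' h6' h7' h8' h9'
    rw [mem_clr] at h4 h5 h6 h7 h8 h9 h4' h5' h6' h7' h8' h9'
    have key : ∀ e : (⊤ : SimpleGraph (Fin 4)).edgeSet,
        c (f.mapEdgeSet e) = ![g, a, b] (cls e.1) := by
      rintro ⟨e, he⟩
      induction e using Sym2.ind with
      | _ i j =>
        have hij : i ≠ j := by
          rw [SimpleGraph.mem_edgeSet] at he
          exact he.ne
        have hco : ∀ a' : Fin r, (∃ h : G.Adj (x i) (x j),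
            c ⟨s(x i, x j), G.mem_edgeSet.mpr h⟩ = a') → c (f.mapEdgeSet ⟨s(i, j), he⟩) = a' := by
          rintro a' ⟨h, hc⟩
          exact hc
        fin_cases i <;> fin_cases j <;> first | exact absurd rfl hij | (apply hco; assumption)
    intro e e'
    rw [key, key]
    constructor
    · intro h
      have h' : cls e.1 = cls e'.1 := h
      rw [h']
    · intro h
      exact vec_inj h1 h2 h3 h
  · intro hx f hf
    have hne : ∀ i j : Fin 4, i ≠ j → s(i, j) ∈ (⊤ : SimpleGraph (Fin 4)).edgeSet := by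
      intro i j hij
      rw [SimpleGraph.mem_edgeSet]
      exact hij
    have hadj : ∀ i j : Fin 4, i ≠ j → G.Adj (f i) (f j) := fun i j hij => f.map_rel hij
    have hcol : ∀ (i j : Fin 4) (hij : i ≠ j), c (f.mapEdgeSet ⟨s(i, j), hne i j hij⟩) =
        c ⟨s(f i, f j), G.mem_edgeSet.mpr (hadj i j hij)⟩ := fun i j hij => rfl
    have heq : ∀ (i j i' j' : Fin 4) (hij : i ≠ j) (hij' : i' ≠ j'),
        cls s(i, j) = cls s(i', j') ↔ c ⟨s(f i, f j), G.mem_edgeSet.mpr (hadj i j hij)⟩ =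
          c ⟨s(f i', f j'), G.mem_edgeSet.mpr (hadj i' j' hij')⟩ := by
      intro i j i' j' hij hij'
      rw [← hcol i j hij, ← hcol i' j' hij']
      exact hf ⟨s(i, j), hne i j hij⟩ ⟨s(i', j'), hne i' j' hij'⟩
    apply hx f
    refine ⟨c ⟨s(f 0, f 1), G.mem_edgeSet.mpr (hadj 0 1 (by decide))⟩,
      c ⟨s(f 0, f 2), G.mem_edgeSet.mpr (hadj 0 2 (by decide))⟩,
      c ⟨s(f 1, f 3), G.mem_edgeSet.mpr (hadj 1 3 (by decide))⟩, ?_, ?_, ?_, ?_, ?_, ?_, ?_, ?_, ?_⟩
    · exact (heq 0 1 0 2 (by decide) (by decide)).not.mp (by decide)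
    · exact (heq 0 1 1 3 (by decide) (by decide)).not.mp (by decide)
    · exact (heq 0 2 1 3 (by decide) (by decide)).not.mp (by decide)
    · exact mem_clr.2 ⟨hadj 0 1 (by decide), rfl⟩
    · exact mem_clr.2 ⟨hadj 1 2 (by decide),
        (heq 1 2 0 1 (by decide) (by decide)).mp (by decide)⟩
    · exact mem_clr.2 ⟨hadj 2 3 (by decide),
        (heq 2 3 0 1 (by decide) (by decide)).mp (by decide)⟩
    · exact mem_clr.2 ⟨hadj 0 3 (by decide),
        (heq 0 3 0 1 (by decide) (by decide)).mp (by decide)⟩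
    · exact mem_clr.2 ⟨hadj 0 2 (by decide), rfl⟩
    · exact mem_clr.2 ⟨hadj 1 3 (by decide), rfl⟩

/-- `PC` is not the rainbow pattern -/
theorem PC_ne_bot : PC ≠ ⊥ := by
  intro h
  have h1 : PC ⟨s(0, 1), by rw [SimpleGraph.mem_edgeSet]; decide⟩
      ⟨s(1, 2), by rw [SimpleGraph.mem_edgeSet]; decide⟩ := by
    show cls s(0, 1) = cls s(1, 2)
    decide
  rw [h] at h1
  have h2 : (s(0, 1) : Sym2 (Fin 4)) = s(1, 2) := congrArg Subtype.val h1
  revert h2
  decide

/-- `PC` is not the monochromatic pattern -/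
theorem PC_ne_top : PC ≠ ⊤ := by
  intro h
  have h1 : PC ⟨s(0, 1), by rw [SimpleGraph.mem_edgeSet]; decide⟩
      ⟨s(0, 2), by rw [SimpleGraph.mem_edgeSet]; decide⟩ := by
    rw [h]
    trivial
  have h2 : cls s(0, 1) = cls s(0, 2) := h1
  revert h2
  decide

end Pool.Agent.TH469.EQ
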