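import Pool.Agent.TH469.EQ.Num2
import Pool.Agent.TH469.EQ.Pat
import Pool.Agent.TH477.RB.Palette

/-!
Averaging over the templates spanned by random points.
-/

set_option autoImplicit false

namespace Pool.Agent.TH469.EQ

open Finset Pool.Agent.TH477.RB Tm

section pi

variable {V : Type} [DecidableEq V] {m t : ℕ}

theorem fiber_card (A : Fin m → Finset V) (q : Fin t → Fin m) (hq : Function.Injective q)
    (y : Fin t → V) (hy : ∀ j, y j ∈ A (q j)) :
    ((Fintype.piFinset A).filter (fun x => x ∘ q = y)).card =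
      ∏ k ∈ univ \ univ.image q, (A k).card := by
  classical
  have h1 : (Fintype.piFinset A).filter (fun x => x ∘ q = y) =
      Fintype.piFinset (fun k => (A k).filter (fun v => ∀ j, q j = k → v = y j)) := by
    ext x
    rw [mem_filter, Fintype.mem_piFinset, Fintype.mem_piFinset]
    constructor
    · rintro ⟨h1, h2⟩ k
      rw [mem_filter]
      refine ⟨h1 k, ?_⟩
      rintro j rfl
      exact congrFun h2 j
    · intro h
      refine ⟨fun k => (mem_filter.1 (h k)).1, ?_⟩
      funext j
      exact (mem_filter.1 (h (q j))).2 j rfl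
  rw [h1, Fintype.card_piFinset]
  symm
  have h2 : ∀ k ∈ univ \ univ.image q,
      ((A k).filter (fun v => ∀ j, q j = k → v = y j)).card = (A k).card := by
    intro k hk
    rw [mem_sdiff] at hk
    congr 1
    apply filter_true_of_mem
    intro v _ j hj
    exact absurd (mem_image.2 ⟨j, mem_univ _, hj⟩) hk.2
  rw [← prod_congr rfl h2]
  apply prod_subset (subset_univ _)
  intro k _ hk
  rw [mem_sdiff, not_and, not_not] at hk
  obtain ⟨j, _, rfl⟩ := mem_image.1 (hk (mem_univ _))
  have : (A (q j)).filter (fun v => ∀ j', q j' = q j → v = y j') = {y j} := by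
    ext v
    rw [mem_filter, mem_singleton]
    constructor
    · intro h; exact h.2 j rfl
    · rintro rfl
      exact ⟨hy j, fun j' hj' => by rw [hq hj']⟩
  rw [this, card_singleton]

theorem sum_pi (A : Fin m → Finset V) (q : Fin t → Fin m) (hq : Function.Injective q)
    (f : (Fin t → V) → ℝ) :
    ∑ x ∈ Fintype.piFinset A, f (x ∘ q) =
      (∏ k ∈ univ \ univ.image q, ((A k).card : ℝ)) *
        ∑ y ∈ Fintype.piFinset (fun j => A (q j)), f y := by
  classical
  rw [← sum_fiberwise_of_maps_to (s := Fintype.piFinset A)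
    (t := Fintype.piFinset (fun j => A (q j))) (g := fun x => x ∘ q), mul_sum]
  · refine sum_congr rfl fun y hy => ?_
    have h1 : ∑ x ∈ (Fintype.piFinset A).filter (fun x => x ∘ q = y), f (x ∘ q) =
        ∑ x ∈ (Fintype.piFinset A).filter (fun x => x ∘ q = y), f y :=
      sum_congr rfl fun x hx => by rw [(mem_filter.1 hx).2]
    rw [h1, sum_const, nsmul_eq_mul, fiber_card A q hq y (Fintype.mem_piFinset.1 hy)]
    push_cast
    rfl
  · intro x hx
    rw [Fintype.mem_piFinset] at hx ⊢
    intro j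
    exact hx (q j)

/-- normalised form -/
theorem sum_pi' (A : Fin m → Finset V) (hA : ∀ k, (A k).Nonempty) (q : Fin t → Fin m)
    (hq : Function.Injective q) (f : (Fin t → V) → ℝ) :
    ∑ x ∈ Fintype.piFinset A, f (x ∘ q) =
      (∏ k, ((A k).card : ℝ)) *
        ((∑ y ∈ Fintype.piFinset (fun j => A (q j)), f y) / ∏ j, ((A (q j)).card : ℝ)) := by
  classical
  rw [sum_pi A q hq f]
  have h1 : ∏ k, ((A k).card : ℝ) = (∏ k ∈ univ \ univ.image q, ((A k).card : ℝ)) *
      ∏ j, ((A (q j)).card : ℝ) := by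
    have h2 : ∏ j, ((A (q j)).card : ℝ) = ∏ k ∈ univ.image q, ((A k).card : ℝ) := by
      rw [prod_image]
      intro i _ j _ h
      exact hq h
    rw [h2, prod_sdiff (subset_univ _)]
  rw [h1]
  have h3 : ∏ j, ((A (q j)).card : ℝ) ≠ 0 := by
    rw [prod_ne_zero_iff]
    intro j _
    have := (hA (q j)).card_pos
    positivity
  field_simp

end pi

theorem sum_two {V : Type} [DecidableEq V] (A B : Finset V) (f : V → V → ℝ) :
    ∑ y ∈ Fintype.piFinset (fun j : Fin 2 => ![A, B] j), f (y 0) (y 1) =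
      ∑ u ∈ A, ∑ v ∈ B, f u v := by
  rw [← sum_product' A B f]
  refine sum_bij' (fun y _ => (y 0, y 1)) (fun p _ => ![p.1, p.2]) ?_ ?_ ?_ ?_ ?_
  · intro y hy
    rw [Fintype.mem_piFinset] at hy
    rw [mem_product]
    exact ⟨hy 0, hy 1⟩
  · intro p hp
    rw [mem_product] at hp
    rw [Fintype.mem_piFinset]
    intro j
    fin_cases j
    · exact hp.1
    · exact hp.2
  · intro y _
    ext j
    fin_cases j <;> rfl
  · intro p _
    rfl
  · intro y _
    rfl

theorem sum_pair {V : Type} [DecidableEq V] {m : ℕ} (A : Fin m → Finset V)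
    (hA : ∀ k, (A k).Nonempty) (i j : Fin m) (hij : i ≠ j) (f : V → V → ℝ) :
    ∑ x ∈ Fintype.piFinset A, f (x i) (x j) =
      (∏ k, ((A k).card : ℝ)) *
        ((∑ u ∈ A i, ∑ v ∈ A j, f u v) / (((A i).card : ℝ) * ((A j).card : ℝ))) := by
  have hq : Function.Injective ![i, j] := by
    intro a b hab
    fin_cases a <;> fin_cases b <;> simp_all
  have h := sum_pi' A hA ![i, j] hq (fun y => f (y 0) (y 1))
  have h1 : (fun k : Fin 2 => A (![i, j] k)) = (fun k => ![A i, A j] k) := by
    funext k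
    fin_cases k <;> rfl
  have h2 : ∏ k : Fin 2, ((A (![i, j] k)).card : ℝ) = ((A i).card : ℝ) * ((A j).card : ℝ) := by
    rw [Fin.prod_univ_two]; rfl
  rw [h1, sum_two, h2] at h
  exact h

open Classical in
/-- The averaging lemma. -/
theorem avg_lemma {V : Type} [Fintype V] {m r : ℕ} (hm : 2 ≤ m)
    (P : V → V → Finset (Fin r))
    (hsymm : ∀ x y, P x y = P y x) (A : Fin m → Finset V) (a b : ℝ) (ha : 0 < a)
    (hAa : ∀ k, a ≤ ((A k).card : ℝ)) (hAb : ∀ k, ((A k).card : ℝ) ≤ b)
    (η2 η4 B : ℝ) (hη2 : 0 ≤ η2) (hη4 : 0 ≤ η4) (hB0 : 0 ≤ B)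
    (h2 : ∀ i j, i < j → (((A i ×ˢ A j).filter (fun p => P p.1 p.2 = ∅)).card : ℝ) ≤ η2)
    (h4 : ((univ.filter (fun x : Fin 4 → V => Real4 P x)).card : ℝ) ≤ η4)
    (hB : ∀ T : Tm m r, T.wsum ≤ B) :
    ∑ p ∈ prs m, ∑ u ∈ A p.1, ∑ v ∈ A p.2, wt P u v ≤
      b ^ 2 * (B + ((m : ℝ) ^ 2 * (η2 / a ^ 2) + (m : ℝ) ^ 4 * (η4 / a ^ 4)) *
        ((m : ℝ) ^ 2 * Real.log r)) := by
  have hAne : ∀ k, (A k).Nonempty := by
    intro k
    rw [← card_pos]
    have := ha.trans_le (hAa k)
    exact_mod_cast this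
  have hcpos : ∀ k, (0 : ℝ) < ((A k).card : ℝ) := fun k => ha.trans_le (hAa k)
  have hlogr : 0 ≤ Real.log r := Real.log_natCast_nonneg r
  have hb : 0 < b := (hcpos ⟨0, by omega⟩).trans_le (hAb _)
  set M : ℝ := ∏ k, ((A k).card : ℝ) with hM
  have hMpos : 0 < M := prod_pos fun k _ => hcpos k
  have hprs : ((prs m).card : ℝ) ≤ (m : ℝ) ^ 2 := by
    have h1 := card_prs m
    have h2 : (prs m).card ≤ m ^ 2 := by
      have : m * (m - 1) ≤ m * m := Nat.mul_le_mul_left _ (by omega)
      rw [pow_two]; omega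
    exact_mod_cast h2
  -- bad tuples
  let bad : (Fin m → V) → Prop := fun x => (∃ p ∈ prs m, P (x p.1) (x p.2) = ∅) ∨
    ∃ q : Fin 4 → Fin m, Function.Injective q ∧ Real4 P (x ∘ q)
  have hgood : ∀ x : Fin m → V, ¬ bad x → ∑ p ∈ prs m, wt P (x p.1) (x p.2) ≤ B := by
    intro x hx
    simp only [bad, not_or, not_exists, not_and] at hx
    let T : Tm m r :=
      { L := fun i j => P (x i) (x j)
        symm := fun i j => hsymm _ _
        ne := by
          intro i j hij
          rw [Finset.nonempty_iff_ne_empty]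
          rcases lt_or_gt_of_ne hij with h | h
          · exact hx.1 (i, j) (mem_prs.2 h)
          · rw [hsymm]
            exact hx.1 (j, i) (mem_prs.2 h)
        free := fun q hq hr => hx.2 q hq hr }
    exact hB T
  have hall : ∀ x : Fin m → V, ∑ p ∈ prs m, wt P (x p.1) (x p.2) ≤ (m : ℝ) ^ 2 * Real.log r := by
    intro x
    calc ∑ p ∈ prs m, wt P (x p.1) (x p.2) ≤ ∑ p ∈ prs m, Real.log r :=
          sum_le_sum fun p _ => wt_le P _ _
      _ = ((prs m).card : ℝ) * Real.log r := by rw [sum_const, nsmul_eq_mul]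
      _ ≤ _ := mul_le_mul_of_nonneg_right hprs hlogr
  -- count of the bad tuples
  have hbad : (((Fintype.piFinset A).filter bad).card : ℝ) ≤
      M * ((m : ℝ) ^ 2 * (η2 / a ^ 2) + (m : ℝ) ^ 4 * (η4 / a ^ 4)) := by
    have hsub : (Fintype.piFinset A).filter bad ⊆
        ((prs m).biUnion (fun p => (Fintype.piFinset A).filter (fun x => P (x p.1) (x p.2) = ∅))) ∪
        ((univ.filter (fun q : Fin 4 → Fin m => Function.Injective q)).biUnion
          (fun q => (Fintype.piFinset A).filter (fun x => Real4 P (x ∘ q)))) := by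
      intro x hx
      rw [mem_filter] at hx
      rw [mem_union, mem_biUnion, mem_biUnion]
      rcases hx.2 with ⟨p, hp, h⟩ | ⟨q, hq, h⟩
      · exact Or.inl ⟨p, hp, mem_filter.2 ⟨hx.1, h⟩⟩
      · exact Or.inr ⟨q, mem_filter.2 ⟨mem_univ _, hq⟩, mem_filter.2 ⟨hx.1, h⟩⟩
    have hc := (card_le_card hsub).trans ((card_union_le _ _).trans
      (add_le_add card_biUnion_le card_biUnion_le))
    have hc' : (((Fintype.piFinset A).filter bad).card : ℝ) ≤
        ∑ p ∈ prs m, (((Fintype.piFinset A).filter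
          (fun x => P (x p.1) (x p.2) = ∅)).card : ℝ) +
        ∑ q ∈ univ.filter (fun q : Fin 4 → Fin m => Function.Injective q),
          (((Fintype.piFinset A).filter (fun x => Real4 P (x ∘ q))).card : ℝ) := by
      exact_mod_cast hc
    refine hc'.trans ?_
    have e1 : ∑ p ∈ prs m, (((Fintype.piFinset A).filter
          (fun x => P (x p.1) (x p.2) = ∅)).card : ℝ) ≤ M * ((m : ℝ) ^ 2 * (η2 / a ^ 2)) := by
      have e2 : ∀ p ∈ prs m, (((Fintype.piFinset A).filter
          (fun x => P (x p.1) (x p.2) = ∅)).card : ℝ) ≤ M * (η2 / a ^ 2) := by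
        intro p hp
        have hp' := mem_prs.1 hp
        rw [card_filter]
        push_cast
        have e3 := sum_pair A hAne p.1 p.2 hp'.ne (fun u v => if P u v = ∅ then (1 : ℝ) else 0)
        rw [e3, ← hM]
        apply mul_le_mul_of_nonneg_left _ hMpos.le
        have e4 : ∑ u ∈ A p.1, ∑ v ∈ A p.2, (if P u v = ∅ then (1 : ℝ) else 0) ≤ η2 := by
          rw [← sum_product' (A p.1) (A p.2) (fun u v => if P u v = ∅ then (1 : ℝ) else 0)]
          have := h2 p.1 p.2 hp'
          rw [card_filter] at this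
          push_cast at this
          exact this
        have e5 : a ^ 2 ≤ ((A p.1).card : ℝ) * ((A p.2).card : ℝ) := by
          rw [pow_two]
          exact mul_le_mul (hAa _) (hAa _) ha.le (hcpos _).le
        calc (∑ u ∈ A p.1, ∑ v ∈ A p.2, (if P u v = ∅ then (1 : ℝ) else 0)) /
              (((A p.1).card : ℝ) * ((A p.2).card : ℝ)) ≤
              η2 / (((A p.1).card : ℝ) * ((A p.2).card : ℝ)) :=
              div_le_div_of_nonneg_right e4 (mul_pos (hcpos _) (hcpos _)).le
          _ ≤ η2 / a ^ 2 := div_le_div_of_nonneg_left hη2 (by positivity) e5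
      calc _ ≤ ∑ p ∈ prs m, M * (η2 / a ^ 2) := sum_le_sum e2
        _ = ((prs m).card : ℝ) * (M * (η2 / a ^ 2)) := by rw [sum_const, nsmul_eq_mul]
        _ ≤ (m : ℝ) ^ 2 * (M * (η2 / a ^ 2)) := mul_le_mul_of_nonneg_right hprs (by positivity)
        _ = _ := by ring
    have e6 : ∑ q ∈ univ.filter (fun q : Fin 4 → Fin m => Function.Injective q),
          (((Fintype.piFinset A).filter (fun x => Real4 P (x ∘ q))).card : ℝ) ≤
          M * ((m : ℝ) ^ 4 * (η4 / a ^ 4)) := by
      have e2 : ∀ q ∈ univ.filter (fun q : Fin 4 → Fin m => Function.Injective q),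
          (((Fintype.piFinset A).filter (fun x => Real4 P (x ∘ q))).card : ℝ) ≤
          M * (η4 / a ^ 4) := by
        intro q hq
        have hq' := (mem_filter.1 hq).2
        rw [card_filter]
        push_cast
        have e3 := sum_pi' A hAne q hq' (fun y => if Real4 P y then (1 : ℝ) else 0)
        rw [e3, ← hM]
        apply mul_le_mul_of_nonneg_left _ hMpos.le
        have e4 : ∑ y ∈ Fintype.piFinset (fun j => A (q j)), (if Real4 P y then (1 : ℝ) else 0) ≤
            η4 := by
          refine le_trans ?_ h4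
          rw [card_filter]
          push_cast
          apply sum_le_sum_of_subset_of_nonneg (subset_univ _)
          intro y _ _
          split_ifs <;> norm_num
        have e5 : a ^ 4 ≤ ∏ j, ((A (q j)).card : ℝ) := by
          have : a ^ 4 = ∏ j : Fin 4, a := by simp
          rw [this]
          exact prod_le_prod (fun _ _ => ha.le) (fun j _ => hAa _)
        calc (∑ y ∈ Fintype.piFinset (fun j => A (q j)), (if Real4 P y then (1 : ℝ) else 0)) /
              ∏ j, ((A (q j)).card : ℝ) ≤ η4 / ∏ j, ((A (q j)).card : ℝ) :=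
              div_le_div_of_nonneg_right e4 (prod_nonneg fun j _ => (hcpos _).le)
          _ ≤ η4 / a ^ 4 := div_le_div_of_nonneg_left hη4 (by positivity) e5
      have e7 : ((univ.filter (fun q : Fin 4 → Fin m => Function.Injective q)).card : ℝ) ≤
          (m : ℝ) ^ 4 := by
        have := card_le_univ (univ.filter (fun q : Fin 4 → Fin m => Function.Injective q))
        rw [Fintype.card_fun, Fintype.card_fin, Fintype.card_fin] at this
        exact_mod_cast this
      calc _ ≤ ∑ q ∈ univ.filter (fun q : Fin 4 → Fin m => Function.Injective q),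
            M * (η4 / a ^ 4) := sum_le_sum e2
        _ = ((univ.filter (fun q : Fin 4 → Fin m => Function.Injective q)).card : ℝ) *
            (M * (η4 / a ^ 4)) := by rw [sum_const, nsmul_eq_mul]
        _ ≤ (m : ℝ) ^ 4 * (M * (η4 / a ^ 4)) := mul_le_mul_of_nonneg_right e7 (by positivity)
        _ = _ := by ring
    calc _ ≤ M * ((m : ℝ) ^ 2 * (η2 / a ^ 2)) + M * ((m : ℝ) ^ 4 * (η4 / a ^ 4)) :=
          add_le_add e1 e6
      _ = _ := by ring
  -- upper bound for the total
  have hup : ∑ x ∈ Fintype.piFinset A, ∑ p ∈ prs m, wt P (x p.1) (x p.2) ≤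
      M * (B + ((m : ℝ) ^ 2 * (η2 / a ^ 2) + (m : ℝ) ^ 4 * (η4 / a ^ 4)) *
        ((m : ℝ) ^ 2 * Real.log r)) := by
    have e1 : ∀ x ∈ Fintype.piFinset A, ∑ p ∈ prs m, wt P (x p.1) (x p.2) ≤
        B + (if bad x then (m : ℝ) ^ 2 * Real.log r else 0) := by
      intro x _
      by_cases hx : bad x
      · rw [if_pos hx]
        have := hall x
        linarith
      · rw [if_neg hx, add_zero]
        exact hgood x hx
    calc _ ≤ ∑ x ∈ Fintype.piFinset A, (B + (if bad x then (m : ℝ) ^ 2 * Real.log r else 0)) :=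
          sum_le_sum e1
      _ = ((Fintype.piFinset A).card : ℝ) * B +
          (((Fintype.piFinset A).filter bad).card : ℝ) * ((m : ℝ) ^ 2 * Real.log r) := by
          rw [sum_add_distrib, sum_const, nsmul_eq_mul, ← sum_filter, sum_const, nsmul_eq_mul]
      _ ≤ M * B + (M * ((m : ℝ) ^ 2 * (η2 / a ^ 2) + (m : ℝ) ^ 4 * (η4 / a ^ 4))) *
          ((m : ℝ) ^ 2 * Real.log r) := by
          have e2 : ((Fintype.piFinset A).card : ℝ) = M := by
            rw [Fintype.card_piFinset, hM]
            push_cast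
            rfl
          rw [e2]
          have := mul_le_mul_of_nonneg_right hbad
            (show 0 ≤ (m : ℝ) ^ 2 * Real.log r by positivity)
          linarith
      _ = _ := by ring
  -- lower bound
  have hlow : M * ((∑ p ∈ prs m, ∑ u ∈ A p.1, ∑ v ∈ A p.2, wt P u v) / b ^ 2) ≤
      ∑ x ∈ Fintype.piFinset A, ∑ p ∈ prs m, wt P (x p.1) (x p.2) := by
    rw [sum_comm, sum_div, mul_sum]
    refine sum_le_sum fun p hp => ?_
    rw [sum_pair A hAne p.1 p.2 (mem_prs.1 hp).ne (fun u v => wt P u v), ← hM]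
    apply mul_le_mul_of_nonneg_left _ hMpos.le
    apply div_le_div_of_nonneg_left
    · exact sum_nonneg fun u _ => sum_nonneg fun v _ => wt_nonneg P u v
    · exact mul_pos (hcpos _) (hcpos _)
    · rw [pow_two]
      exact mul_le_mul (hAb _) (hAb _) (hcpos _).le hb.le
  have hfin := le_of_mul_le_mul_left (hlow.trans hup) hMpos
  rw [div_le_iff₀ (by positivity)] at hfin
  linarith

end Pool.Agent.TH469.EQ
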