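import Pool.Agent.TH469.EQ.Pat
import Pool.Agent.TH477.RB.Cont2

/-!
The container lemma for the pattern `PC` (adapted from TH477/RB/Cont1, Cont2).
-/

set_option autoImplicit false

namespace Pool.Agent.TH469.EQ

open Finset Pool.Agent.TH477.RB

/-- colours of the pairs of a quadruple -/
def colr {r : ℕ} (g a b : Fin r) (i j : Fin 4) : Fin r :=
  if i = 0 ∧ j = 2 then a else if i = 1 ∧ j = 3 then b else g

theorem real4_of_colr {V : Type} {r : ℕ} {P : V → V → Finset (Fin r)} {x : Fin 4 → V}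
    {g a b : Fin r} (h1 : g ≠ a) (h2 : g ≠ b) (h3 : a ≠ b)
    (h : ∀ i j, i < j → colr g a b i j ∈ P (x i) (x j)) : Real4 P x :=
  ⟨g, a, b, h1, h2, h3, h 0 1 (by decide), h 1 2 (by decide), h 2 3 (by decide),
    h 0 3 (by decide), h 0 2 (by decide), h 1 3 (by decide)⟩

theorem colr_of_real4 {V : Type} {r : ℕ} {P : V → V → Finset (Fin r)} {x : Fin 4 → V}
    (h : Real4 P x) : ∃ g a b : Fin r, g ≠ a ∧ g ≠ b ∧ a ≠ b ∧
      ∀ i j, i < j → colr g a b i j ∈ P (x i) (x j) := by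
  obtain ⟨g, a, b, h1, h2, h3, h4, h5, h6, h7, h8, h9⟩ := h
  refine ⟨g, a, b, h1, h2, h3, ?_⟩
  intro i j hij
  fin_cases i <;> fin_cases j <;> first | exact absurd hij (by decide) | assumption

theorem prod_kern_zero {V : Type} {r : ℕ} (G : SimpleGraph V) (c : G.edgeSet → Fin r)
    (hF : ∀ x : Fin 4 → V, ¬ Real4 (clr G c) x) (g a b : Fin r) (h1 : g ≠ a) (h2 : g ≠ b)
    (h3 : a ≠ b) (x : Fin 4 → V) :
    ∏ p ∈ univ.filter (fun p : Fin 4 × Fin 4 => p.1 < p.2),
      kern G c (colr g a b p.1 p.2) (x p.1) (x p.2) = 0 := by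
  classical
  by_contra hne
  have hne := Finset.prod_ne_zero_iff.mp hne
  apply hF x
  apply real4_of_colr h1 h2 h3
  intro i j hij
  have h4 := hne (i, j) (Finset.mem_filter.mpr ⟨Finset.mem_univ _, hij⟩)
  rw [mem_clr]
  unfold kern at h4
  by_cases h : G.Adj (x i) (x j)
  · refine ⟨h, ?_⟩
    simp only [h, dif_pos] at h4
    by_contra h2
    exact h4 (if_neg h2)
  · simp only [h] at h4
    exact absurd rfl h4

open Classical in
theorem pal_real4 {V : Type} [Fintype V] {r M : ℕ} (G : SimpleGraph V)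
    (c : G.edgeSet → Fin r) (hr : 0 < r)
    (hF : ∀ x : Fin 4 → V, ¬ Real4 (clr G c) x) (κ : V → Fin M) (δ ε0 : ℝ) (hδ : 0 < δ)
    (hκ : ∀ a : Fin r, ∀ f g : V → ℝ, (∀ x, 0 ≤ f x ∧ f x ≤ 1) → (∀ x, 0 ≤ g x ∧ g x ≤ 1) →
        |∑ x, ∑ y, f x * g y * (kern G c a x y - cellAvg κ (kern G c a) x y)| ≤
          ε0 * (Fintype.card V : ℝ) ^ 2) :
    δ ^ 6 * ((univ.filter (fun x : Fin 4 → V => Real4 (pal G κ δ c) x)).card : ℝ) ≤
      (r : ℝ) ^ 3 * (6 * ε0 * (Fintype.card V : ℝ) ^ 4) := by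
  -- for one triple of colours
  have hone : ∀ t ∈ (univ : Finset (Fin r × Fin r × Fin r)).filter
        (fun t => t.1 ≠ t.2.1 ∧ t.1 ≠ t.2.2 ∧ t.2.1 ≠ t.2.2),
      δ ^ 6 * (((univ : Finset (Fin 4 → V)).filter
        (fun x => ∀ i j, i < j → colr t.1 t.2.1 t.2.2 i j ∈ pal G κ δ c (x i) (x j))).card : ℝ) ≤
      6 * ε0 * (Fintype.card V : ℝ) ^ 4 := by
    rintro ⟨g, a, b⟩ ht
    obtain ⟨-, h1, h2, h3⟩ := Finset.mem_filter.1 ht
    simp only at h1 h2 h3 ⊢
    have hcount := Pool.Agent.TH596.J2.counting (V := V) 4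
      (fun i j => kern G c (colr g a b i j)) (fun i j => cellAvg κ (kern G c (colr g a b i j)))
      (fun i j x y => kern_bounds G c _ x y)
      (fun i j x y => cellAvg_bounds κ _ (kern_bounds G c _) x y) ε0
      (fun i j f g' hf hg => hκ (colr g a b i j) f g' hf hg)
    rw [Finset.sum_eq_zero (fun x _ => prod_kern_zero G c hF g a b h1 h2 h3 x), zero_sub,
      abs_neg] at hcount
    have h6 : ((Nat.choose 4 2 : ℕ) : ℝ) = 6 := by norm_num [Nat.choose]
    rw [h6] at hcount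
    refine le_trans ?_ ((le_abs_self _).trans hcount)
    calc δ ^ 6 * (((univ : Finset (Fin 4 → V)).filter
        (fun x => ∀ i j, i < j → colr g a b i j ∈ pal G κ δ c (x i) (x j))).card : ℝ)
        = ∑ x ∈ (univ : Finset (Fin 4 → V)).filter
            (fun x => ∀ i j, i < j → colr g a b i j ∈ pal G κ δ c (x i) (x j)), δ ^ 6 := by
          rw [Finset.sum_const, nsmul_eq_mul]; ring
      _ ≤ ∑ x ∈ (univ : Finset (Fin 4 → V)).filter
            (fun x => ∀ i j, i < j → colr g a b i j ∈ pal G κ δ c (x i) (x j)),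
            ∏ p ∈ univ.filter (fun p : Fin 4 × Fin 4 => p.1 < p.2),
              cellAvg κ (kern G c (colr g a b p.1 p.2)) (x p.1) (x p.2) := by
          refine Finset.sum_le_sum fun x hx => ?_
          have hx' := (Finset.mem_filter.mp hx).2
          have h7 : (univ.filter (fun p : Fin 4 × Fin 4 => p.1 < p.2)).card = 6 := by decide
          rw [← h7, ← Finset.prod_const]
          apply Finset.prod_le_prod
          · intro p _; exact hδ.le
          · intro p hp
            exact ((mem_pal _ _ _ _ _ _ _).mp (hx' p.1 p.2 (Finset.mem_filter.mp hp).2)).2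
      _ ≤ ∑ x : Fin 4 → V,
            ∏ p ∈ univ.filter (fun p : Fin 4 × Fin 4 => p.1 < p.2),
              cellAvg κ (kern G c (colr g a b p.1 p.2)) (x p.1) (x p.2) := by
          apply Finset.sum_le_sum_of_subset_of_nonneg (Finset.subset_univ _)
          intro x _ _
          exact Finset.prod_nonneg fun p _ => (cellAvg_bounds κ _ (kern_bounds G c _) _ _).1
  -- union over the triples
  have hunion : ((univ : Finset (Fin 4 → V)).filter
      (fun x => Real4 (pal G κ δ c) x)).card ≤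
      ∑ t ∈ (univ : Finset (Fin r × Fin r × Fin r)).filter
        (fun t => t.1 ≠ t.2.1 ∧ t.1 ≠ t.2.2 ∧ t.2.1 ≠ t.2.2),
        ((univ : Finset (Fin 4 → V)).filter
        (fun x => ∀ i j, i < j → colr t.1 t.2.1 t.2.2 i j ∈ pal G κ δ c (x i) (x j))).card := by
    refine le_trans (Finset.card_le_card ?_) Finset.card_biUnion_le
    intro x hx
    rw [Finset.mem_filter] at hx
    obtain ⟨g, a, b, h1, h2, h3, h4⟩ := colr_of_real4 hx.2
    rw [Finset.mem_biUnion]
    exact ⟨(g, a, b), Finset.mem_filter.mpr ⟨Finset.mem_univ _, h1, h2, h3⟩,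
      Finset.mem_filter.mpr ⟨Finset.mem_univ _, h4⟩⟩
  have hunion' : (((univ : Finset (Fin 4 → V)).filter
      (fun x => Real4 (pal G κ δ c) x)).card : ℝ) ≤
      ∑ t ∈ (univ : Finset (Fin r × Fin r × Fin r)).filter
        (fun t => t.1 ≠ t.2.1 ∧ t.1 ≠ t.2.2 ∧ t.2.1 ≠ t.2.2),
        (((univ : Finset (Fin 4 → V)).filter
        (fun x => ∀ i j, i < j →
          colr t.1 t.2.1 t.2.2 i j ∈ pal G κ δ c (x i) (x j))).card : ℝ) := by
    exact_mod_cast hunion
  have hcardcol : (((univ : Finset (Fin r × Fin r × Fin r)).filter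
        (fun t => t.1 ≠ t.2.1 ∧ t.1 ≠ t.2.2 ∧ t.2.1 ≠ t.2.2)).card : ℝ) ≤ (r : ℝ) ^ 3 := by
    have h1 := Finset.card_le_univ ((univ : Finset (Fin r × Fin r × Fin r)).filter
        (fun t => t.1 ≠ t.2.1 ∧ t.1 ≠ t.2.2 ∧ t.2.1 ≠ t.2.2))
    rw [Fintype.card_prod, Fintype.card_prod, Fintype.card_fin] at h1
    have h2 : r * (r * r) = r ^ 3 := by ring
    rw [h2] at h1
    exact_mod_cast h1
  have hR0 : 0 ≤ 6 * ε0 * (Fintype.card V : ℝ) ^ 4 := by
    by_cases hV : Nonempty V
    · have h0 : 0 ≤ ε0 * (Fintype.card V : ℝ) ^ 2 :=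
        (abs_nonneg _).trans (hκ ⟨0, hr⟩ (fun _ => 0) (fun _ => 0)
            (fun _ => by norm_num) (fun _ => by norm_num))
      have hn : (0 : ℝ) < (Fintype.card V : ℝ) := by exact_mod_cast Fintype.card_pos
      have : 0 ≤ ε0 := by
        by_contra h
        have : ε0 * (Fintype.card V : ℝ) ^ 2 < 0 :=
          mul_neg_of_neg_of_pos (not_le.mp h) (by positivity)
        linarith
      positivity
    · have : Fintype.card V = 0 := by
        rw [Fintype.card_eq_zero_iff]; exact not_nonempty_iff.mp hV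
      rw [this]
      simp
  calc δ ^ 6 * (((univ : Finset (Fin 4 → V)).filter
        (fun x => Real4 (pal G κ δ c) x)).card : ℝ)
      ≤ δ ^ 6 * ∑ t ∈ (univ : Finset (Fin r × Fin r × Fin r)).filter
        (fun t => t.1 ≠ t.2.1 ∧ t.1 ≠ t.2.2 ∧ t.2.1 ≠ t.2.2),
        (((univ : Finset (Fin 4 → V)).filter
        (fun x => ∀ i j, i < j →
          colr t.1 t.2.1 t.2.2 i j ∈ pal G κ δ c (x i) (x j))).card : ℝ) :=
        mul_le_mul_of_nonneg_left hunion' (by positivity)
    _ = ∑ t ∈ (univ : Finset (Fin r × Fin r × Fin r)).filter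
        (fun t => t.1 ≠ t.2.1 ∧ t.1 ≠ t.2.2 ∧ t.2.1 ≠ t.2.2),
        δ ^ 6 * (((univ : Finset (Fin 4 → V)).filter
        (fun x => ∀ i j, i < j →
          colr t.1 t.2.1 t.2.2 i j ∈ pal G κ δ c (x i) (x j))).card : ℝ) :=
        Finset.mul_sum _ _ _
    _ ≤ ∑ t ∈ (univ : Finset (Fin r × Fin r × Fin r)).filter
        (fun t => t.1 ≠ t.2.1 ∧ t.1 ≠ t.2.2 ∧ t.2.1 ≠ t.2.2),
        6 * ε0 * (Fintype.card V : ℝ) ^ 4 := Finset.sum_le_sum hone
    _ = (((univ : Finset (Fin r × Fin r × Fin r)).filter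
        (fun t => t.1 ≠ t.2.1 ∧ t.1 ≠ t.2.2 ∧ t.2.1 ≠ t.2.2)).card : ℝ) *
        (6 * ε0 * (Fintype.card V : ℝ) ^ 4) := by
        rw [Finset.sum_const, nsmul_eq_mul]
    _ ≤ _ := mul_le_mul_of_nonneg_right hcardcol hR0

/-- the constant colouring is pattern-free -/
theorem num_pos {V : Type} [Finite V] {r : ℕ} (hr : 0 < r) (G : SimpleGraph V) :
    1 ≤ num r PC G := by
  classical
  have : Nonempty {c : G.edgeSet → Fin r // PFree PC G c} := by
    refine ⟨⟨fun _ => ⟨0, hr⟩, ?_⟩⟩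
    rw [pfree_iff]
    rintro x ⟨g, a, b, h1, h2, h3, h4, h5, h6, h7, h8, h9⟩
    rw [mem_clr] at h4 h8
    exact h1 (h4.2.symm.trans h8.2)
  exact Nat.card_pos

open Classical in
theorem container (r : ℕ) (hr : 0 < r) (ε : ℝ) (hε : 0 < ε) :
    ∃ n0 : ℕ, ∀ n, n0 ≤ n → ∀ G : SimpleGraph (Fin n),
    ∃ P : Fin n → Fin n → Finset (Fin r), (∀ x y, P x y = P y x) ∧
      (∀ x y, ¬ G.Adj x y → P x y = ∅) ∧
     ((univ.filter (fun p : Fin n × Fin n => G.Adj p.1 p.2 ∧ P p.1 p.2 = ∅)).card : ℝ) ≤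
       ε * (n : ℝ) ^ 2 ∧
     ((univ.filter (fun x : Fin 4 → Fin n => Real4 P x)).card : ℝ) ≤ ε * (n : ℝ) ^ 4 ∧
     Real.log (num r PC G) ≤ 1 / 2 * ∑ x, ∑ y, wt P x y + ε * (n : ℝ) ^ 2 := by
  have hr0 : (0 : ℝ) < r := by exact_mod_cast hr
  -- constants
  set s : ℝ := max 0 (Real.log (2 * r / ε)) with hs
  have hs0 : 0 ≤ s := le_max_left _ _
  have hsr : r * Real.exp (-s) ≤ ε / 2 := by
    have h1 : Real.log (2 * r / ε) ≤ s := le_max_right _ _
    have h2 : 2 * r / ε ≤ Real.exp s := by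
      rw [← Real.log_le_iff_le_exp (by positivity)]; exact h1
    rw [Real.exp_neg, ← div_eq_mul_inv, div_le_iff₀ (Real.exp_pos s)]
    rw [div_le_iff₀ hε] at h2
    linarith
  set δ : ℝ := min (ε / r) (ε / (2 * r * (s + 1))) with hδ
  have hδ0 : 0 < δ := lt_min (by positivity) (by positivity)
  have hδ1 : r * δ ≤ ε := by
    have : δ ≤ ε / r := min_le_left _ _
    rw [le_div_iff₀ hr0] at this
    linarith
  have hδ2 : s * (r * δ / 2) ≤ ε / 4 := by
    have h1 : δ ≤ ε / (2 * r * (s + 1)) := min_le_right _ _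
    rw [le_div_iff₀ (by positivity)] at h1
    have h2 : 0 ≤ δ * r := by positivity
    nlinarith
  set D : ℝ := (r : ℝ) ^ 3 * 6 + 1 with hD
  have hD0 : 0 < D := by positivity
  set ε0 : ℝ := ε * δ ^ 6 / D with hε0
  have hε00 : 0 < ε0 := by positivity
  have hε0D : (r : ℝ) ^ 3 * 6 * ε0 ≤ ε * δ ^ 6 := by
    rw [hε0, ← mul_div_assoc, div_le_iff₀ hD0]
    have : (r : ℝ) ^ 3 * 6 ≤ D := by rw [hD]; linarith
    calc (r : ℝ) ^ 3 * 6 * (ε * δ ^ 6)
        ≤ D * (ε * δ ^ 6) := mul_le_mul_of_nonneg_right this (by positivity)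
      _ = _ := by ring
  obtain ⟨M, hM⟩ := Pool.Agent.TH596.J1.weak_regularity r ε0 hε00
  set C1 : ℝ := Real.log M + r * (M : ℝ) ^ 2 * Real.log 2 with hC1
  have hlogM : 0 ≤ Real.log M := Real.log_natCast_nonneg M
  have hlog2 : 0 ≤ Real.log 2 := Real.log_nonneg (by norm_num)
  have hC10 : 0 ≤ C1 := by positivity
  refine ⟨⌈4 / ε * C1⌉₊ + 1, ?_⟩
  intro n hn G
  have hcc := num_pos hr G
  have hn1 : (1 : ℝ) ≤ (n : ℝ) := by exact_mod_cast (by omega : 1 ≤ n)
  have hnC : 4 / ε * C1 ≤ n := (Nat.le_ceil _).trans (by exact_mod_cast (by omega))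
  -- the colourings
  let Ω : Type := {c : G.edgeSet → Fin r // PFree PC G c}
  have hΩ : Nat.card Ω = num r PC G := rfl
  have hκ : ∀ c : Ω, ∃ κ : Fin n → Fin M, ∀ a : Fin r, ∀ f g : Fin n → ℝ,
      (∀ x, 0 ≤ f x ∧ f x ≤ 1) → (∀ x, 0 ≤ g x ∧ g x ≤ 1) →
        |∑ x, ∑ y, f x * g y * (kern G c.1 a x y - cellAvg κ (kern G c.1 a) x y)| ≤
          ε0 * (Fintype.card (Fin n) : ℝ) ^ 2 := by
    intro c
    exact hM (Fin n) (kern G c.1) (fun a x y => kern_bounds G c.1 a x y)
  choose κ hκ using hκ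
  let Ψ : Ω → (Fin n → Fin M) × (Fin M → Fin M → Finset (Fin r)) :=
    fun c => (κ c, dens G (κ c) δ c.1)
  have hΩpos : 0 < Fintype.card Ω := by
    rw [← Nat.card_eq_fintype_card, hΩ]; omega
  have hΩne : Nonempty Ω := Fintype.card_pos_iff.mp hΩpos
  have hβne : Nonempty ((Fin n → Fin M) × (Fin M → Fin M → Finset (Fin r))) :=
    ⟨Ψ hΩne.some⟩
  set β : ℝ := (Fintype.card ((Fin n → Fin M) × (Fin M → Fin M → Finset (Fin r))) : ℝ) with hβ
  have hβ0 : 0 < β := by
    rw [hβ]; exact_mod_cast Fintype.card_pos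
  obtain ⟨st, hst⟩ := Fintype.exists_le_card_fiber_of_nsmul_le_card Ψ
    (b := (Fintype.card Ω : ℝ) / β) (by
      rw [nsmul_eq_mul, ← hβ]
      exact le_of_eq (by field_simp))
  have hΩr : (0 : ℝ) < (Fintype.card Ω : ℝ) := by exact_mod_cast hΩpos
  have hfibpos : (0 : ℝ) < ((univ.filter (fun c : Ω => Ψ c = st)).card : ℝ) :=
    lt_of_lt_of_le (by positivity) hst
  have hfibne : (univ.filter (fun c : Ω => Ψ c = st)).Nonempty := by
    rw [← Finset.card_pos]; exact_mod_cast hfibpos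
  obtain ⟨c0, hc0⟩ := hfibne
  have hc0' : Ψ c0 = st := (Finset.mem_filter.mp hc0).2
  -- palettes
  have hPeq : ∀ c : Ω, Ψ c = st → ∀ x y, spal G st x y = pal G (κ c) δ c.1 x y := by
    intro c hc x y
    rw [← hc]
    exact spal_eq_pal G (κ c) δ c.1 x y
  have hsymm : ∀ x y, spal G st x y = spal G st y x := by
    intro x y
    rw [hPeq c0 hc0', hPeq c0 hc0', pal_symm]
  have hexcP : ∀ c : Ω, Ψ c = st →
      ∑ x : Fin n, ∑ y : Fin n, (if ∃ h : G.Adj x y, c.1 ⟨s(x, y), G.mem_edgeSet.mpr h⟩ ∉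
        spal G st x y then (1 : ℝ) else 0) ≤ r * δ * (n : ℝ) ^ 2 := by
    intro c hc
    have h1 := pal_exc G c.1 (κ c) δ hδ0.le
    rw [Fintype.card_fin] at h1
    refine le_trans (le_of_eq ?_) h1
    refine Finset.sum_congr rfl fun x _ => Finset.sum_congr rfl fun y _ => ?_
    rw [hPeq c hc]
  refine ⟨spal G st, hsymm, ?_, ?_, ?_, ?_⟩
  · intro x y hxy
    unfold spal
    rw [if_neg hxy]
  · -- adjacent pairs with empty palette
    have h1 : ((univ.filter (fun p : Fin n × Fin n => G.Adj p.1 p.2 ∧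
        spal G st p.1 p.2 = ∅)).card : ℝ) ≤
        ∑ x : Fin n, ∑ y : Fin n, (if ∃ h : G.Adj x y, c0.1 ⟨s(x, y), G.mem_edgeSet.mpr h⟩ ∉
        spal G st x y then (1 : ℝ) else 0) := by
      rw [Finset.card_filter, Fintype.sum_prod_type]
      push_cast
      refine Finset.sum_le_sum fun x _ => Finset.sum_le_sum fun y _ => ?_
      by_cases h : G.Adj x y ∧ spal G st x y = ∅
      · rw [if_pos h, if_pos]
        obtain ⟨ha, he⟩ := h
        refine ⟨ha, ?_⟩
        rw [he]; simp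
      · rw [if_neg h]
        split_ifs <;> norm_num
    refine h1.trans ((hexcP c0 hc0').trans ?_)
    exact mul_le_mul_of_nonneg_right hδ1 (by positivity)
  · -- realised quadruples
    have h1 := pal_real4 G c0.1 hr (pfree_iff.1 c0.2) (κ c0) δ ε0 hδ0 (hκ c0)
    rw [Fintype.card_fin] at h1
    have h2 : spal G st = pal G (κ c0) δ c0.1 := by
      ext x y : 2
      exact hPeq c0 hc0' x y
    rw [h2]
    have h3 : δ ^ 6 * ((univ.filter
        (fun x : Fin 4 → Fin n => Real4 (pal G (κ c0) δ c0.1) x)).card : ℝ) ≤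
        δ ^ 6 * (ε * (n : ℝ) ^ 4) := by
      refine h1.trans ?_
      calc (r : ℝ) ^ 3 * (6 * ε0 * (n : ℝ) ^ 4)
          = ((r : ℝ) ^ 3 * 6 * ε0) * (n : ℝ) ^ 4 := by ring
        _ ≤ (ε * δ ^ 6) * (n : ℝ) ^ 4 :=
          mul_le_mul_of_nonneg_right hε0D (by positivity)
        _ = _ := by ring
    exact le_of_mul_le_mul_left h3 (by positivity)
  · -- the count
    set m : ℝ := r * δ / 2 * (n : ℝ) ^ 2 with hm
    let pe : G.edgeSet → Finset (Fin r) := fun e => Sym2.lift ⟨spal G st, hsymm⟩ (e : Sym2 (Fin n))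
    have hinj : (univ.filter (fun c : Ω => Ψ c = st)).card ≤
        Nat.card {c : G.edgeSet → Fin r // (Nat.card {e : G.edgeSet // c e ∉ pe e} : ℝ) ≤ m} := by
      rw [← Fintype.card_subtype, ← Nat.card_eq_fintype_card]
      refine Nat.card_le_card_of_injective (fun c => ⟨c.1.1, ?_⟩) ?_
      · have h1 := exc_count G c.1.1 (spal G st) hsymm
        have h2 := hexcP c.1 c.2
        rw [← h1] at h2
        have h3 : 2 * m = r * δ * (n : ℝ) ^ 2 := by rw [hm]; ring
        rw [← h3] at h2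
        linarith
      · intro c c' h
        simp only [Subtype.mk.injEq] at h
        exact Subtype.ext (Subtype.ext h)
    have hinj' : ((univ.filter (fun c : Ω => Ψ c = st)).card : ℝ) ≤
        (Nat.card {c : G.edgeSet → Fin r // (Nat.card {e : G.edgeSet // c e ∉ pe e} : ℝ) ≤ m} : ℝ) := by
      exact_mod_cast hinj
    have hw := weighted_count r pe s m hs0
    have hle := hst.trans (hinj'.trans hw)
    have hlog : Real.log (Fintype.card Ω : ℝ) - Real.log β ≤
        s * m + (Fintype.card G.edgeSet : ℝ) * Real.log (1 + r * Real.exp (-s)) +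
          ∑ e, Real.log ((pe e).card : ℝ) := by
      have h1 := Real.log_le_log (by positivity) hle
      have hpos1 : 0 < 1 + r * Real.exp (-s) := by positivity
      rw [Real.log_div hΩr.ne' hβ0.ne', Real.log_mul (by positivity) (by positivity),
        Real.log_mul (by positivity) (by positivity), Real.log_exp, Real.log_pow,
        Real.log_exp] at h1
      exact h1
    -- sum over edges
    have hsum : ∑ e, Real.log ((pe e).card : ℝ) = 1 / 2 * ∑ x, ∑ y, wt (spal G st) x y := by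
      let f : Sym2 (Fin n) → ℝ := fun e =>
        Real.log ((Sym2.lift ⟨spal G st, hsymm⟩ e).card : ℝ)
      have h1 := sum_pairs_eq G f (by
        intro e he
        simp only [f]
        induction e with
        | _ a b =>
          rw [Sym2.lift_mk]
          have : ¬ G.Adj a b := fun h => he (G.mem_edgeSet.mpr h)
          simp only [spal, if_neg this]
          simp)
      have h2 : ∑ x, ∑ y, wt (spal G st) x y = ∑ x, ∑ y, f s(x, y) := rfl
      rw [h2, h1]
      simp only [pe, f]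
      ring
    -- number of edges
    have hedge : (Fintype.card G.edgeSet : ℝ) * Real.log (1 + r * Real.exp (-s)) ≤
        ε / 4 * (n : ℝ) ^ 2 := by
      have h1 : Real.log (1 + r * Real.exp (-s)) ≤ ε / 2 := by
        have := Real.log_le_sub_one_of_pos (show 0 < 1 + r * Real.exp (-s) by positivity)
        linarith
      have h2 := two_mul_card_edges_le G
      rw [Fintype.card_fin] at h2
      have h3 : 0 ≤ (Fintype.card G.edgeSet : ℝ) := by positivity
      calc (Fintype.card G.edgeSet : ℝ) * Real.log (1 + r * Real.exp (-s))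
          ≤ (Fintype.card G.edgeSet : ℝ) * (ε / 2) := mul_le_mul_of_nonneg_left h1 h3
        _ ≤ ((n : ℝ) ^ 2 / 2) * (ε / 2) := mul_le_mul_of_nonneg_right (by linarith) (by positivity)
        _ = _ := by ring
    have hsm : s * m ≤ ε / 4 * (n : ℝ) ^ 2 := by
      have : s * m = (s * (r * δ / 2)) * (n : ℝ) ^ 2 := by rw [hm]; ring
      rw [this]
      exact mul_le_mul_of_nonneg_right hδ2 (by positivity)
    have hβlog : Real.log β ≤ ε / 4 * (n : ℝ) ^ 2 := by
      have h1 : β = (M : ℝ) ^ n * ((2 : ℝ) ^ r) ^ (M * M) := by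
        rw [hβ]
        simp only [Fintype.card_prod, Fintype.card_fun, Fintype.card_fin, Fintype.card_finset]
        push_cast
        rw [← pow_mul]
      have hMpos : 0 < M := by
        have : Nonempty (Fin M) := ⟨κ c0 ⟨0, by omega⟩⟩
        exact Fin.pos_iff_nonempty.mpr this
      have hMr : (0 : ℝ) < M := by exact_mod_cast hMpos
      rw [h1, Real.log_mul (by positivity) (by positivity), Real.log_pow, Real.log_pow,
        Real.log_pow]
      push_cast
      have h2 : (n : ℝ) * Real.log M + (M : ℝ) * M * (r * Real.log 2) ≤ n * C1 := by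
        rw [hC1]
        have h3 : (M : ℝ) * M * (r * Real.log 2) ≤ n * (r * (M : ℝ) ^ 2 * Real.log 2) := by
          have h4 : 0 ≤ r * (M : ℝ) ^ 2 * Real.log 2 := by positivity
          nlinarith
        linarith
      refine h2.trans ?_
      have h3 : C1 ≤ ε / 4 * n := by
        have : 4 / ε * C1 = C1 * (4 / ε) := by ring
        have h4 : C1 = ε / 4 * (4 / ε * C1) := by field_simp
        rw [h4]
        exact mul_le_mul_of_nonneg_left hnC (by positivity)
      calc (n : ℝ) * C1 ≤ n * (ε / 4 * n) := mul_le_mul_of_nonneg_left h3 (by positivity)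
        _ = _ := by ring
    have hcard : (num r PC G : ℝ) = (Fintype.card Ω : ℝ) := by
      rw [← hΩ, Nat.card_eq_fintype_card]
    rw [hcard, ← hsum]
    have hn2 : 0 ≤ ε / 4 * (n : ℝ) ^ 2 := by positivity
    linarith

end Pool.Agent.TH469.EQ
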