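import Mathlib

/-!
Definitions: patterns of complete graphs, pattern-free colourings, extremal graphs, `r₁(P)`,
equitable complete multipartite graphs.
-/

set_option autoImplicit false

namespace Pool.Agent.TH469.EQ

/-- A pattern of `K_k`: a partition of the edge set of the complete graph on `Fin k`, given as an
equivalence relation on the edges. -/
abbrev Pattern (k : ℕ) : Type := Setoid (⊤ : SimpleGraph (Fin k)).edgeSet

/-- `c` is an `(r,P)`-free colouring of the edges of `G`: for no copy of `K_k` in `G` (given by an
isomorphism `f` from `K_k` onto it, that is a homomorphism `K_k → G`, automatically injective) is it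
true that two edges of the copy get the same colour exactly when they come from the same class of
`P`. -/
def PFree {k r : ℕ} {V : Type} (P : Pattern k) (G : SimpleGraph V) (c : G.edgeSet → Fin r) : Prop :=
  ∀ f : (⊤ : SimpleGraph (Fin k)) →g G,
    ¬ ∀ e e' : (⊤ : SimpleGraph (Fin k)).edgeSet,
      P e e' ↔ c (f.mapEdgeSet e) = c (f.mapEdgeSet e')

/-- the number of `(r,P)`-free colourings of `G` -/
noncomputable def num {k : ℕ} (r : ℕ) (P : Pattern k) {V : Type} (G : SimpleGraph V) : ℕ :=
  Nat.card {c : G.edgeSet → Fin r // PFree P G c}

/-- `G` is `(r,P)`-extremal: it has the maximum number of `(r,P)`-free colourings among the graphs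
on the same `n` vertices. -/
def Extremal {k : ℕ} (r : ℕ) (P : Pattern k) {n : ℕ} (G : SimpleGraph (Fin n)) : Prop :=
  ∀ H : SimpleGraph (Fin n), num r P H ≤ num r P G

/-- The set of the integers `s ≥ 2` such that for every `r ≥ s` there is `n₀` such that the Turán
graph `T_{k-1}(n)` is not `(r,P)`-extremal for all `n ≥ n₀`; `r₁(P)` is its least element. -/
def rOneSet {k : ℕ} (P : Pattern k) : Set ℕ :=
  {s | 2 ≤ s ∧ ∀ r, s ≤ r → ∃ n0, ∀ n, n0 ≤ n → ¬ Extremal r P (SimpleGraph.turanGraph n (k - 1))}

/-- `G` is an equitable complete multipartite graph: non-adjacency is an equivalence relation (its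
classes are the parts), and the sizes of any two parts differ by at most 1. -/
def Equitable {n : ℕ} (G : SimpleGraph (Fin n)) : Prop :=
  G.IsCompleteMultipartite ∧
    ∀ x y : Fin n, Nat.card {z // ¬ G.Adj x z} ≤ Nat.card {z // ¬ G.Adj y z} + 1

/-- the class of an edge of `K_4`: the two diagonals of the 4-cycle `0,1,2,3` form classes of their
own, the four edges of the cycle form one class -/
def cls (e : Sym2 (Fin 4)) : Fin 3 := if e = s(0, 2) then 1 else if e = s(1, 3) then 2 else 0

/-- The pattern `P_C` of `K_4` with three classes: the edges of the 4-cycle `0,1,2,3`, the diagonal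
`02`, the diagonal `13`. -/
def PC : Pattern 4 := Setoid.ker (fun e : (⊤ : SimpleGraph (Fin 4)).edgeSet => cls e.1)

end Pool.Agent.TH469.EQ
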