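import Pool.Agent.TH469.EQ.Low2

/-!
The unbalanced five-partite graph for 46 colours.
-/

set_option autoImplicit false

namespace Pool.Agent.TH469.EQ

open Finset Pool.Agent.TH477.RB Tm

/-- the edges of the five bowties -/
def bowL : Fin 5 → List (ℕ × ℕ)
  | 0 => [(0, 1), (0, 2), (0, 3), (0, 4), (1, 2), (3, 4)]
  | 1 => [(0, 1), (0, 3), (1, 3), (2, 3), (2, 4), (3, 4)]
  | 2 => [(0, 1), (0, 4), (1, 2), (1, 3), (1, 4), (2, 3)]
  | 3 => [(0, 2), (0, 3), (1, 2), (1, 4), (2, 3), (2, 4)]
  | 4 => [(0, 2), (0, 4), (1, 3), (1, 4), (2, 4), (3, 4)]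

/-- adjacency in the bowties -/
def bow (t i j : Fin 5) : Bool := (bowL t).any (fun p => (p.1 == i.val && p.2 == j.val) ||
  (p.1 == j.val && p.2 == i.val))

theorem bow_symm : ∀ t i j, bow t i j = bow t j i := by decide

set_option maxRecDepth 10000 in
theorem bow_free' : ∀ t a b c d : Fin 5, (bow t a b && bow t b c && bow t c d && bow t a d &&
    (a != c) && (b != d)) = false := by decide

theorem bow_free (t a b c d : Fin 5) (hac : a ≠ c) (hbd : b ≠ d) :
    ¬ (bow t a b = true ∧ bow t b c = true ∧ bow t c d = true ∧ bow t a d = true) := by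
  rintro ⟨h1, h2, h3, h4⟩
  have h := bow_free' t a b c d
  rw [h1, h2, h3, h4] at h
  simp [hac, hbd] at h

/-- the type of a colour -/
def tc (c : Fin 46) : Fin 5 := ⟨c.val % 5, Nat.mod_lt _ (by norm_num)⟩

/-- the lists of the template -/
def L5 (i j : Fin 5) : Finset (Fin 46) := univ.filter (fun c => bow (tc c) i j = true)

set_option maxRecDepth 10000 in
theorem L5_card : ∀ i j : Fin 5, i ≠ j → (L5 i j).card = if bow 0 i j = true then 28 else 27 := by
  decide

/-- the template with five points -/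
def T5 : Tm 5 46 where
  L := L5
  symm i j := by unfold L5; simp only [bow_symm _ i j]
  ne i j hij := by
    rw [← card_pos, L5_card i j hij]
    split_ifs <;> norm_num
  free x hx h := by
    obtain ⟨g, a, b, -, -, -, h1, h2, h3, h4, -, -⟩ := h
    refine bow_free (tc g) (x 0) (x 1) (x 2) (x 3) ?_ ?_ ⟨(mem_filter.1 h1).2,
      (mem_filter.1 h2).2, (mem_filter.1 h3).2, (mem_filter.1 h4).2⟩ <;>
    exact fun hh => absurd (hx hh) (by decide)

theorem prs5_sum (F : Fin 5 × Fin 5 → ℝ) : ∑ q ∈ prs 5, F q =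
    F (0, 1) + F (0, 2) + F (0, 3) + F (0, 4) + F (1, 2) + F (1, 3) + F (1, 4) + F (2, 3) +
      F (2, 4) + F (3, 4) := by
  have : prs 5 = {(0, 1), (0, 2), (0, 3), (0, 4), (1, 2), (1, 3), (1, 4), (2, 3), (2, 4),
    (3, 4)} := by decide
  rw [this]
  rw [sum_insert (by decide), sum_insert (by decide), sum_insert (by decide),
    sum_insert (by decide), sum_insert (by decide), sum_insert (by decide), sum_insert (by decide),
    sum_insert (by decide), sum_insert (by decide), sum_singleton]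
  ring

/-- number of colourings of the unbalanced five-partite graph -/
theorem five (n : ℕ) : ∃ G : SimpleGraph (Fin n),
    ((n / 1000 : ℕ) : ℝ) ^ 2 * (240399 * Real.log 28 + 159600 * Real.log 27) ≤
      Real.log (num 46 PC G) := by
  classical
  set N : ℕ := n / 1000 with hN
  obtain ⟨G, hG⟩ := lower_sizes (n := n) (p := 5) (by norm_num) T5
    ![201 * N, 199 * N, 200 * N, 200 * N, 200 * N] (by
      simp only [Fin.sum_univ_five, Matrix.cons_val_zero, Matrix.cons_val_one,
        Matrix.cons_val_two, Matrix.cons_val_three, Matrix.cons_val_four, Matrix.tail_cons,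
        Matrix.head_cons]
      omega)
  refine ⟨G, le_trans (le_of_eq ?_) hG⟩
  rw [prs5_sum]
  have c : ∀ i j : Fin 5, i ≠ j → (T5.L i j).card = if bow 0 i j = true then 28 else 27 := L5_card
  rw [c 0 1 (by decide), c 0 2 (by decide), c 0 3 (by decide), c 0 4 (by decide),
    c 1 2 (by decide), c 1 3 (by decide), c 1 4 (by decide), c 2 3 (by decide),
    c 2 4 (by decide), c 3 4 (by decide)]
  have b01 : bow 0 0 1 = true := by decide
  have b02 : bow 0 0 2 = true := by decide
  have b03 : bow 0 0 3 = true := by decide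
  have b04 : bow 0 0 4 = true := by decide
  have b12 : bow 0 1 2 = true := by decide
  have b13 : ¬ bow 0 1 3 = true := by decide
  have b14 : ¬ bow 0 1 4 = true := by decide
  have b23 : ¬ bow 0 2 3 = true := by decide
  have b24 : ¬ bow 0 2 4 = true := by decide
  have b34 : bow 0 3 4 = true := by decide
  rw [if_pos b01, if_pos b02, if_pos b03, if_pos b04, if_pos b12, if_neg b13, if_neg b14,
    if_neg b23, if_neg b24, if_pos b34]
  simp only [Matrix.cons_val_zero, Matrix.cons_val_one,
        Matrix.cons_val_two, Matrix.cons_val_three, Matrix.cons_val_four, Matrix.tail_cons,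
        Matrix.head_cons]
  push_cast
  ring

/-- **Lower bound.** The unbalanced graph beats `(vv / 2 + 10⁻⁶) n²`. -/
theorem five_big : ∃ n0 : ℕ, ∀ n, n0 ≤ n → ∃ G : SimpleGraph (Fin n),
    (vv / 2 + 1 / 1000000) * (n : ℝ) ^ 2 < Real.log (num 46 PC G) := by
  refine ⟨1000000000, ?_⟩
  intro n hn
  obtain ⟨G, hG⟩ := five n
  refine ⟨G, lt_of_lt_of_le ?_ hG⟩
  set N : ℕ := n / 1000 with hN
  have hNbig : 1000000 ≤ N := by omega
  have hNr : (1000000 : ℝ) ≤ N := by exact_mod_cast hNbig
  have h7 : (n : ℝ) ≤ 1000 * ((N : ℝ) + 1) := by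
    have : n ≤ 1000 * (N + 1) := by omega
    exact_mod_cast this
  have h8 : (n : ℝ) ^ 2 ≤ 1000000 * ((N : ℝ) + 1) ^ 2 := by
    have : (0 : ℝ) ≤ n := Nat.cast_nonneg n
    calc (n : ℝ) ^ 2 ≤ (1000 * ((N : ℝ) + 1)) ^ 2 := pow_le_pow_left₀ this h7 2
      _ = _ := by ring
  have hvv := vv_pos
  have hvvu := vv_upper
  have hl : (1 : ℝ) / 28 ≤ Real.log 28 - Real.log 27 := by
    have := log_ratio_le (a := 27) (b := 28) (by norm_num) (by norm_num)
    linarith
  have hl28 : Real.log 28 < 3.34 := by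
    rw [log28]
    have := l2u
    have := l7u
    linarith
  have h9 : 240399 * Real.log 28 + 159600 * Real.log 27 ≥ 1000000 * (vv / 2) + 10 := by
    unfold vv
    linarith
  calc (vv / 2 + 1 / 1000000) * (n : ℝ) ^ 2
      ≤ (vv / 2 + 1 / 1000000) * (1000000 * ((N : ℝ) + 1) ^ 2) :=
        mul_le_mul_of_nonneg_left h8 (by positivity)
    _ = (1000000 * (vv / 2) + 1) * ((N : ℝ) + 1) ^ 2 := by ring
    _ < (N : ℝ) ^ 2 * (1000000 * (vv / 2) + 10) := by
        have h10 : ((N : ℝ) + 1) ^ 2 ≤ N ^ 2 + 3 * N := by nlinarith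
        have h11 : (1000000 * (vv / 2) + 1) * ((N : ℝ) + 1) ^ 2 ≤
            (1000000 * (vv / 2) + 1) * (N ^ 2 + 3 * N) :=
          mul_le_mul_of_nonneg_left h10 (by positivity)
        have h12 : (1000000 * (vv / 2) + 1) * (3 * (N : ℝ)) ≤ 1500000 * (3 * N) :=
          mul_le_mul_of_nonneg_right (by linarith) (by positivity)
        have h13 : 1500000 * (3 * (N : ℝ)) < 9 * N ^ 2 := by nlinarith
        have h14 : (1000000 * (vv / 2) + 1) * ((N : ℝ) ^ 2 + 3 * N) =
          (N : ℝ) ^ 2 * (1000000 * (vv / 2) + 10) - 9 * N ^ 2 +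
            (1000000 * (vv / 2) + 1) * (3 * N) := by ring
        linarith
    _ ≤ _ := mul_le_mul_of_nonneg_left h9 (by positivity)

/-- Equitable graphs are not extremal. -/
theorem equitable_not_extremal : ∃ n0 : ℕ, ∀ n, n0 ≤ n → ∀ G : SimpleGraph (Fin n),
    Extremal 46 PC G → ¬ Equitable G := by
  obtain ⟨n1, h1⟩ := upper (1 / 1000000) (by norm_num)
  obtain ⟨n2, h2⟩ := five_big
  refine ⟨n1 + n2, ?_⟩
  intro n hn G hext heq
  obtain ⟨H, hH⟩ := h2 n (by omega)
  have h3 := h1 n (by omega) G heq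
  have h4 : Real.log (num 46 PC H) ≤ Real.log (num 46 PC G) := by
    apply Real.log_le_log
    · have := num_pos (r := 46) (by norm_num) H
      exact_mod_cast this
    · exact_mod_cast hext H
  linarith

end Pool.Agent.TH469.EQ
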