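import Pool.Agent.TH469.EQ.Lower

/-!
The two designs: five parts for 46 colours, four parts for at least 45 colours.
-/

set_option autoImplicit false

namespace Pool.Agent.TH469.EQ

open Finset Pool.Agent.TH477.RB Tm

/-! ### four parts -/

/-- the types of the edges of `K_4`: three paths with two edges -/
def ty4 (i j : Fin 4) : Fin 3 :=
  if (i = 0 ∧ j = 1) ∨ (i = 1 ∧ j = 0) ∨ (i = 0 ∧ j = 2) ∨ (i = 2 ∧ j = 0) then 0
  else if (i = 1 ∧ j = 2) ∨ (i = 2 ∧ j = 1) ∨ (i = 1 ∧ j = 3) ∨ (i = 3 ∧ j = 1) then 1 else 2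

theorem ty4_symm : ∀ i j, ty4 i j = ty4 j i := by decide

theorem ty4_free : ∀ t : Fin 3, ∀ a b c d : Fin 4, a ≠ b → a ≠ c → a ≠ d → b ≠ c → b ≠ d → c ≠ d →
    ¬ (t ≠ ty4 a b ∧ t ≠ ty4 b c ∧ t ≠ ty4 c d ∧ t ≠ ty4 a d) := by decide

/-- the template with four points -/
def T4 {r : ℕ} (τ : Fin r → Fin 3)
    (hne : ∀ t : Fin 3, (univ.filter (fun c => τ c ≠ t)).Nonempty) : Tm 4 r where
  L i j := univ.filter (fun c => τ c ≠ ty4 i j)
  symm i j := by rw [ty4_symm]
  ne i j _ := hne _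
  free x hx h := by
    obtain ⟨g, a, b, -, -, -, h1, h2, h3, h4, -, -⟩ := h
    refine ty4_free (τ g) (x 0) (x 1) (x 2) (x 3) ?_ ?_ ?_ ?_ ?_ ?_ ⟨(mem_filter.1 h1).2,
      (mem_filter.1 h2).2, (mem_filter.1 h3).2, (mem_filter.1 h4).2⟩ <;>
    exact fun hh => absurd (hx hh) (by decide)

theorem key_ineq (r : ℕ) (hr : 45 ≤ r) :
    r ^ 8 < (((r + 1) / 3 + r / 3) * ((r + 2) / 3 + r / 3) * ((r + 2) / 3 + (r + 1) / 3)) ^ 3 := by
  obtain ⟨k, hk⟩ : ∃ k, r = 3 * k ∨ r = 3 * k + 1 ∨ r = 3 * k + 2 := ⟨r / 3, by omega⟩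
  obtain ⟨j, rfl⟩ : ∃ j, k = 15 + j := ⟨k - 15, by omega⟩
  rcases hk with rfl | rfl | rfl
  · have e1 : (3 * (15 + j) + 1) / 3 = 15 + j := by omega
    have e2 : (3 * (15 + j) + 2) / 3 = 15 + j := by omega
    have e3 : (3 * (15 + j)) / 3 = 15 + j := by omega
    rw [e1, e2, e3]
    have h : ((15 + j + (15 + j)) * (15 + j + (15 + j)) * (15 + j + (15 + j))) ^ 3 =
        (3 * (15 + j)) ^ 8 + (2867874609375 + 2841733125000 * j + 1056731062500 * j ^ 2 +
          210881475000 * j ^ 3 + 25738256250 * j ^ 4 + 2025891000 * j ^ 5 + 103817700 * j ^ 6 +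
          3359880 * j ^ 7 + 62559 * j ^ 8 + 512 * j ^ 9) := by ring
    rw [h]
    exact Nat.lt_add_of_pos_right (by positivity)
  · have e1 : (3 * (15 + j) + 1 + 1) / 3 = 15 + j := by omega
    have e2 : (3 * (15 + j) + 1 + 2) / 3 = 16 + j := by omega
    have e3 : (3 * (15 + j) + 1) / 3 = 15 + j := by omega
    rw [e1, e2, e3]
    have h : ((15 + j + (15 + j)) * (16 + j + (15 + j)) * (16 + j + (15 + j))) ^ 3 =
        (3 * (15 + j) + 1) ^ 8 + (3914987155064 + 3608741028216 * j + 1283251512168 * j ^ 2 +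
          247279866056 * j ^ 3 + 29275980576 * j ^ 4 + 2240863392 * j ^ 5 + 111839888 * j ^ 6 +
          3528624 * j ^ 7 + 64095 * j ^ 8 + 512 * j ^ 9) := by ring
    rw [h]
    exact Nat.lt_add_of_pos_right (by positivity)
  · have e1 : (3 * (15 + j) + 2 + 1) / 3 = 16 + j := by omega
    have e2 : (3 * (15 + j) + 2 + 2) / 3 = 16 + j := by omega
    have e3 : (3 * (15 + j) + 2) / 3 = 15 + j := by omega
    rw [e1, e2, e3]
    have h : ((16 + j + (15 + j)) * (16 + j + (15 + j)) * (16 + j + (16 + j))) ^ 3 =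
        (3 * (15 + j) + 2) ^ 8 + (5270433957247 + 4551307964568 * j + 1550925363204 * j ^ 2 +
          288890926192 * j ^ 3 + 33201887226 * j ^ 4 + 2472913032 * j ^ 5 + 120274372 * j ^ 6 +
          3701592 * j ^ 7 + 65631 * j ^ 8 + 512 * j ^ 9) := by ring
    rw [h]
    exact Nat.lt_add_of_pos_right (by positivity)

theorem prs4_sum (F : Fin 4 × Fin 4 → ℝ) : ∑ q ∈ prs 4, F q =
    F (0, 1) + F (0, 2) + F (0, 3) + F (1, 2) + F (1, 3) + F (2, 3) := by
  have : prs 4 = {(0, 1), (0, 2), (0, 3), (1, 2), (1, 3), (2, 3)} := by decide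
  rw [this]
  rw [sum_insert (by decide), sum_insert (by decide), sum_insert (by decide),
    sum_insert (by decide), sum_insert (by decide), sum_singleton]
  ring

/-- number of colourings of the four-partite graphs -/
theorem four (r : ℕ) (hr : 45 ≤ r) (n : ℕ) : ∃ G : SimpleGraph (Fin n),
    2 * ((n / 4 : ℕ) : ℝ) ^ 2 * Real.log ((((r + 1) / 3 + r / 3) * ((r + 2) / 3 + r / 3) *
      ((r + 2) / 3 + (r + 1) / 3) : ℕ) : ℝ) ≤ Real.log (num r PC G) := by
  classical
  obtain ⟨τ, hτ⟩ := exists_sizes (n := r) (p := 3) (by norm_num)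
    ![(r + 2) / 3, (r + 1) / 3, r / 3] (by
      simp only [Fin.sum_univ_three, Matrix.cons_val_zero, Matrix.cons_val_one,
        Matrix.cons_val_two, Matrix.tail_cons, Matrix.head_cons]
      omega)
  have hcount : ∀ i j t : Fin 3, i ≠ t → j ≠ t → i ≠ j →
      (univ.filter (fun x => τ x = i)).card + (univ.filter (fun x => τ x = j)).card ≤
        (univ.filter (fun c => τ c ≠ t)).card := by
    intro i j t hit hjt hij
    rw [← card_union_of_disjoint]
    · apply card_le_card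
      intro x hx
      rw [mem_union, mem_filter, mem_filter] at hx
      rw [mem_filter]
      rcases hx with h | h
      · exact ⟨mem_univ _, by rw [h.2]; exact hit⟩
      · exact ⟨mem_univ _, by rw [h.2]; exact hjt⟩
    · rw [disjoint_left]
      intro x h1 h2
      exact hij ((mem_filter.1 h1).2.symm.trans (mem_filter.1 h2).2)
  have h0 : (r + 1) / 3 + r / 3 ≤ (univ.filter (fun c => τ c ≠ 0)).card :=
    le_trans (add_le_add (hτ 1) (hτ 2)) (hcount 1 2 0 (by decide) (by decide) (by decide))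
  have h1 : (r + 2) / 3 + r / 3 ≤ (univ.filter (fun c => τ c ≠ 1)).card :=
    le_trans (add_le_add (hτ 0) (hτ 2)) (hcount 0 2 1 (by decide) (by decide) (by decide))
  have h2 : (r + 2) / 3 + (r + 1) / 3 ≤ (univ.filter (fun c => τ c ≠ 2)).card :=
    le_trans (add_le_add (hτ 0) (hτ 1)) (hcount 0 1 2 (by decide) (by decide) (by decide))
  have hne : ∀ t : Fin 3, (univ.filter (fun c => τ c ≠ t)).Nonempty := by
    intro t
    rw [← card_pos]
    fin_cases t
    · exact lt_of_lt_of_le (by omega) h0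
    · exact lt_of_lt_of_le (by omega) h1
    · exact lt_of_lt_of_le (by omega) h2
  obtain ⟨G, hG⟩ := lower_sizes (n := n) (p := 4) (by norm_num) (T4 τ hne) (fun _ => n / 4) (by
    rw [sum_const, card_univ, Fintype.card_fin, smul_eq_mul]; omega)
  refine ⟨G, le_trans ?_ hG⟩
  rw [prs4_sum]
  have e : ∀ i j, ((T4 τ hne).L i j) = univ.filter (fun c => τ c ≠ ty4 i j) := fun _ _ => rfl
  simp only [e]
  have t01 : ty4 0 1 = 0 := by decide
  have t02 : ty4 0 2 = 0 := by decide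
  have t03 : ty4 0 3 = 2 := by decide
  have t12 : ty4 1 2 = 1 := by decide
  have t13 : ty4 1 3 = 1 := by decide
  have t23 : ty4 2 3 = 2 := by decide
  rw [t01, t02, t03, t12, t13, t23]
  have p0 : 0 < (r + 1) / 3 + r / 3 := by omega
  have p1 : 0 < (r + 2) / 3 + r / 3 := by omega
  have p2 : 0 < (r + 2) / 3 + (r + 1) / 3 := by omega
  have q0 : (0 : ℝ) < (((r + 1) / 3 + r / 3 : ℕ) : ℝ) := by exact_mod_cast p0
  have q1 : (0 : ℝ) < (((r + 2) / 3 + r / 3 : ℕ) : ℝ) := by exact_mod_cast p1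
  have q2 : (0 : ℝ) < (((r + 2) / 3 + (r + 1) / 3 : ℕ) : ℝ) := by exact_mod_cast p2
  rw [Nat.cast_mul, Nat.cast_mul, Real.log_mul (by positivity) (by positivity),
    Real.log_mul (by positivity) (by positivity)]
  have l0 := Real.log_le_log q0 (show (((r + 1) / 3 + r / 3 : ℕ) : ℝ) ≤
    ((univ.filter (fun c => τ c ≠ 0)).card : ℝ) by exact_mod_cast h0)
  have l1 := Real.log_le_log q1 (show (((r + 2) / 3 + r / 3 : ℕ) : ℝ) ≤
    ((univ.filter (fun c => τ c ≠ 1)).card : ℝ) by exact_mod_cast h1)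
  have l2 := Real.log_le_log q2 (show (((r + 2) / 3 + (r + 1) / 3 : ℕ) : ℝ) ≤
    ((univ.filter (fun c => τ c ≠ 2)).card : ℝ) by exact_mod_cast h2)
  set N : ℝ := ((n / 4 : ℕ) : ℝ) with hN
  have hN2 : 0 ≤ N * N := by positivity
  have m0 := mul_le_mul_of_nonneg_left l0 hN2
  have m1 := mul_le_mul_of_nonneg_left l1 hN2
  have m2 := mul_le_mul_of_nonneg_left l2 hN2
  rw [pow_two]
  linarith

theorem num_le {n r : ℕ} (G : SimpleGraph (Fin n)) [Fintype G.edgeSet] :
    num r PC G ≤ r ^ (Fintype.card G.edgeSet) := by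
  classical
  unfold num
  calc Nat.card {c : G.edgeSet → Fin r // PFree PC G c} ≤ Nat.card (G.edgeSet → Fin r) :=
        Nat.card_le_card_of_injective Subtype.val Subtype.val_injective
    _ = r ^ (Fintype.card G.edgeSet) := by
        rw [Nat.card_eq_fintype_card, Fintype.card_fun, Fintype.card_fin]

theorem not_extremal_turan (r : ℕ) (hr : 45 ≤ r) : ∃ n0, ∀ n, n0 ≤ n →
    ¬ Extremal r PC (SimpleGraph.turanGraph n 3) := by
  classical
  set X : ℕ := ((r + 1) / 3 + r / 3) * ((r + 2) / 3 + r / 3) * ((r + 2) / 3 + (r + 1) / 3) with hX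
  have hkey : r ^ 8 < X ^ 3 := key_ineq r hr
  have hrpos : (0 : ℝ) < r := by exact_mod_cast (by omega : 0 < r)
  have hXpos : 0 < X := by
    rcases Nat.eq_zero_or_pos X with h | h
    · rw [h] at hkey
      simp at hkey
    · exact h
  have hXr : (0 : ℝ) < X := by exact_mod_cast hXpos
  have hδ : 8 * Real.log r < 3 * Real.log X := by
    have h1 : Real.log ((r : ℝ) ^ 8) < Real.log ((X : ℝ) ^ 3) :=
      Real.log_lt_log (by positivity) (by exact_mod_cast hkey)
    rw [Real.log_pow, Real.log_pow] at h1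
    push_cast at h1
    exact h1
  have hlogr : 0 < Real.log r := Real.log_pos (by exact_mod_cast (by omega : 1 < r))
  set δ : ℝ := 3 * Real.log X - 8 * Real.log r with hδdef
  have hδ0 : 0 < δ := by rw [hδdef]; linarith
  -- for large `N`
  refine ⟨4 * (⌈24 * Real.log r / δ⌉₊ + 2), ?_⟩
  intro n hn hext
  obtain ⟨G, hG⟩ := four r hr n
  rw [← hX] at hG
  set N : ℕ := n / 4 with hN
  have hNbig : ⌈24 * Real.log r / δ⌉₊ + 2 ≤ N := by omega
  have hNr : 24 * Real.log r / δ ≤ N := (Nat.le_ceil _).trans (by exact_mod_cast (by omega))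
  have hN1 : (1 : ℝ) ≤ N := by exact_mod_cast (by omega : 1 ≤ N)
  rw [div_le_iff₀ hδ0] at hNr
  have h1 : Real.log (num r PC G) ≤ Real.log (num r PC (SimpleGraph.turanGraph n 3)) := by
    apply Real.log_le_log
    · have := num_pos (r := r) (by omega) G
      exact_mod_cast this
    · exact_mod_cast hext G
  have h2 : Real.log (num r PC (SimpleGraph.turanGraph n 3)) ≤
      (Fintype.card (SimpleGraph.turanGraph n 3).edgeSet : ℝ) * Real.log r := by
    rw [← Real.log_pow]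
    apply Real.log_le_log
    · have := num_pos (r := r) (by omega) (SimpleGraph.turanGraph n 3)
      exact_mod_cast this
    · exact_mod_cast num_le (SimpleGraph.turanGraph n 3)
  have h3 : (Fintype.card (SimpleGraph.turanGraph n 3).edgeSet : ℝ) ≤ (n : ℝ) ^ 2 / 3 := by
    have h4 := SimpleGraph.mul_card_edgeFinset_turanGraph_le (n := n) (r := 3)
    rw [← SimpleGraph.edgeFinset_card]
    have h5 : 6 * (SimpleGraph.turanGraph n 3).edgeFinset.card ≤ 2 * n ^ 2 := by
      calc _ = 2 * 3 * (SimpleGraph.turanGraph n 3).edgeFinset.card := by ring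
        _ ≤ _ := h4
    have h6 : (6 : ℝ) * ((SimpleGraph.turanGraph n 3).edgeFinset.card : ℝ) ≤ 2 * (n : ℝ) ^ 2 := by
      exact_mod_cast h5
    linarith
  have h7 : (n : ℝ) ≤ 4 * ((N : ℝ) + 1) := by
    have : n ≤ 4 * (N + 1) := by omega
    exact_mod_cast this
  have h8 : (n : ℝ) ^ 2 ≤ 16 * ((N : ℝ) + 1) ^ 2 := by
    have : (0 : ℝ) ≤ n := Nat.cast_nonneg n
    calc (n : ℝ) ^ 2 ≤ (4 * ((N : ℝ) + 1)) ^ 2 := pow_le_pow_left₀ this h7 2
      _ = _ := by ring
  have h9 : 2 * (N : ℝ) ^ 2 * Real.log X ≤ (16 * ((N : ℝ) + 1) ^ 2 / 3) * Real.log r := by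
    refine hG.trans (h1.trans (h2.trans ?_))
    apply mul_le_mul_of_nonneg_right _ hlogr.le
    linarith
  have h10 : Real.log X = (δ + 8 * Real.log r) / 3 := by rw [hδdef]; ring
  rw [h10] at h9
  have h11 : (N : ℝ) ^ 2 * δ ≤ 8 * (2 * N + 1) * Real.log r := by nlinarith
  have h12 : (N : ℝ) * (24 * Real.log r) ≤ N * (N * δ) :=
    mul_le_mul_of_nonneg_left hNr (by linarith)
  have h13 : (1 : ℝ) * Real.log r ≤ N * Real.log r := mul_le_mul_of_nonneg_right hN1 hlogr.le
  have h14 : (2 : ℝ) ≤ N := by exact_mod_cast (by omega : 2 ≤ N)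
  have h15 : (2 : ℝ) * Real.log r ≤ N * Real.log r := mul_le_mul_of_nonneg_right h14 hlogr.le
  nlinarith

/-- `r₁(PC) ≤ 45` -/
theorem mem_rOneSet : 45 ∈ rOneSet PC := ⟨by norm_num, fun r hr => not_extremal_turan r hr⟩

theorem exists_rOne : ∃ r1, IsLeast (rOneSet PC) r1 ∧ r1 < 46 := by
  classical
  have hne : ∃ s, s ∈ rOneSet PC := ⟨45, mem_rOneSet⟩
  refine ⟨Nat.find hne, ⟨Nat.find_spec hne, fun s hs => Nat.find_min' hne hs⟩, ?_⟩
  exact lt_of_le_of_lt (Nat.find_min' hne mem_rOneSet) (by norm_num)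

end Pool.Agent.TH469.EQ
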