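import Pool.Agent.TH469.EQ.Upper

/-!
Lower bounds for the number of `(r, PC)`-free colourings from lists.
-/

set_option autoImplicit false

namespace Pool.Agent.TH469.EQ

open Finset Pool.Agent.TH477.RB Tm

theorem lower {n p r : ℕ} (T : Tm p r) (κ : Fin n → Fin p) (G : SimpleGraph (Fin n))
    (hκ : ∀ x y, G.Adj x y ↔ κ x ≠ κ y) :
    1 / 2 * ∑ x, ∑ y, (if κ x = κ y then 0 else Real.log ((T.L (κ x) (κ y)).card : ℝ)) ≤
      Real.log (num r PC G) := by
  classical
  let te : G.edgeSet → Finset (Fin r) := fun e =>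
    Sym2.lift ⟨fun x y => T.L (κ x) (κ y), fun x y => T.symm _ _⟩ (e : Sym2 (Fin n))
  have hfree : ∀ φ : (∀ e : G.edgeSet, te e), PFree PC G (fun e => (φ e).1) := by
    intro φ
    rw [pfree_iff]
    intro x hx
    have hadj := hx.adj (G := G) (fun x y g hg => (mem_clr.1 hg).1)
    refine T.free (fun i => κ (x i)) ?_ (hx.map ?_)
    · intro i j hij
      by_contra hne
      exact (hκ _ _).1 (hadj i j hne) hij
    · intro i j _ g hg
      obtain ⟨h, hc⟩ := mem_clr.1 hg
      have := (φ ⟨s(x i, x j), G.mem_edgeSet.mpr h⟩).2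
      rw [hc] at this
      exact this
  have hinj : Nat.card (∀ e : G.edgeSet, te e) ≤ num r PC G := by
    refine Nat.card_le_card_of_injective (fun φ => (⟨fun e => (φ e).1, hfree φ⟩ :
      {c : G.edgeSet → Fin r // PFree PC G c})) ?_
    intro φ ψ h
    simp only [Subtype.mk.injEq] at h
    funext e
    exact Subtype.ext (congrFun h e)
  have hcard : Nat.card (∀ e : G.edgeSet, te e) = ∏ e, (te e).card := by
    rw [Nat.card_eq_fintype_card, Fintype.card_pi]
    exact prod_congr rfl fun e _ => Fintype.card_coe _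
  rw [hcard] at hinj
  have hne : ∀ e, ((te e).card : ℝ) ≠ 0 := by
    rintro ⟨e, he⟩
    induction e using Sym2.ind with
    | _ x y =>
      have h1 : G.Adj x y := he
      have h2 := (T.ne (κ x) (κ y) ((hκ x y).1 h1)).card_pos
      have h3 : te ⟨s(x, y), he⟩ = T.L (κ x) (κ y) := rfl
      rw [h3]
      positivity
  have hlog : Real.log (∏ e, ((te e).card : ℝ)) ≤ Real.log (num r PC G) := by
    apply Real.log_le_log
    · exact prod_pos fun e _ => lt_of_le_of_ne (Nat.cast_nonneg _) (hne e).symm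
    · exact_mod_cast hinj
  rw [Real.log_prod (fun e _ => hne e)] at hlog
  refine le_trans (le_of_eq ?_) hlog
  have hsy : ∀ x y : Fin n, (if κ x = κ y then (0 : ℝ) else
      Real.log ((T.L (κ x) (κ y)).card : ℝ)) = (if κ y = κ x then (0 : ℝ) else
      Real.log ((T.L (κ y) (κ x)).card : ℝ)) := by
    intro x y
    rw [T.symm]
    by_cases h : κ x = κ y
    · rw [if_pos h, if_pos h.symm]
    · rw [if_neg h, if_neg (fun h' => h h'.symm)]
  let f : Sym2 (Fin n) → ℝ := Sym2.lift ⟨fun x y => if κ x = κ y then (0 : ℝ) else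
      Real.log ((T.L (κ x) (κ y)).card : ℝ), hsy⟩
  have h1 := sum_pairs_eq G f (by
    intro e he
    induction e using Sym2.ind with
    | _ x y =>
      have h2 : ¬ G.Adj x y := he
      rw [hκ, not_not] at h2
      simp only [f, Sym2.lift_mk]
      rw [if_pos h2])
  have h2 : ∑ x, ∑ y, (if κ x = κ y then 0 else Real.log ((T.L (κ x) (κ y)).card : ℝ)) =
      ∑ x, ∑ y, f s(x, y) := rfl
  rw [h2, h1]
  have h3 : ∀ e : G.edgeSet, f e = Real.log ((te e).card : ℝ) := by
    rintro ⟨e, he⟩
    induction e using Sym2.ind with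
    | _ x y =>
      have h4 : G.Adj x y := he
      rw [hκ] at h4
      simp only [f, te, Sym2.lift_mk]
      rw [if_neg h4]
  rw [sum_congr rfl (fun e _ => h3 e)]
  ring

theorem exists_sizes {n p : ℕ} (hp : 0 < p) (s : Fin p → ℕ) (hs : ∑ i, s i ≤ n) :
    ∃ κ : Fin n → Fin p, ∀ i, s i ≤ (univ.filter (fun x => κ x = i)).card := by
  classical
  have h1 : Fintype.card (Σ i, Fin (s i)) ≤ Fintype.card (Fin n) := by
    rw [Fintype.card_sigma, Fintype.card_fin]
    simpa using hs
  obtain ⟨e⟩ := Function.Embedding.nonempty_of_card_le h1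
  refine ⟨Function.extend e Sigma.fst (fun _ => ⟨0, hp⟩), ?_⟩
  intro i
  have h2 : ((univ : Finset (Fin (s i))).image (fun a => e ⟨i, a⟩)).card = s i := by
    rw [card_image_of_injective, card_univ, Fintype.card_fin]
    intro a b hab
    have := e.injective hab
    simpa using this
  conv_lhs => rw [← h2]
  apply card_le_card
  intro x hx
  obtain ⟨a, _, rfl⟩ := mem_image.1 hx
  rw [mem_filter]
  exact ⟨mem_univ _, by rw [e.injective.extend_apply]⟩

/-- the complete multipartite graph given by the map `κ` -/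
def cmg {n p : ℕ} (κ : Fin n → Fin p) : SimpleGraph (Fin n) where
  Adj x y := κ x ≠ κ y
  symm := ⟨fun _ _ h => h.symm⟩
  loopless := ⟨fun _ h => h rfl⟩

/-- lower bound in terms of the sizes of the parts -/
theorem lower_sizes {n p r : ℕ} (hp : 0 < p) (T : Tm p r) (s : Fin p → ℕ) (hs : ∑ i, s i ≤ n) :
    ∃ G : SimpleGraph (Fin n), ∑ q ∈ prs p, (s q.1 : ℝ) * (s q.2 : ℝ) *
      Real.log ((T.L q.1 q.2).card : ℝ) ≤ Real.log (num r PC G) := by
  classical
  obtain ⟨κ, hκ⟩ := exists_sizes hp s hs
  refine ⟨cmg κ, ?_⟩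
  refine le_trans ?_ (lower T κ (cmg κ) (fun x y => Iff.rfl))
  have h5 : ∑ x, ∑ y, (if κ x = κ y then 0 else Real.log ((T.L (κ x) (κ y)).card : ℝ)) =
      ∑ i : Fin p, ∑ j : Fin p, ∑ u ∈ univ.filter (fun x => κ x = i),
        ∑ v ∈ univ.filter (fun x => κ x = j),
          (if κ u = κ v then 0 else Real.log ((T.L (κ u) (κ v)).card : ℝ)) := by
    calc _ = ∑ i : Fin p, ∑ u ∈ univ.filter (fun x => κ x = i), ∑ y,
          (if κ u = κ y then 0 else Real.log ((T.L (κ u) (κ y)).card : ℝ)) :=
          (sum_fiberwise univ κ (fun u => ∑ y,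
            (if κ u = κ y then 0 else Real.log ((T.L (κ u) (κ y)).card : ℝ)))).symm
      _ = ∑ i : Fin p, ∑ u ∈ univ.filter (fun x => κ x = i), ∑ j : Fin p,
            ∑ v ∈ univ.filter (fun y => κ y = j),
              (if κ u = κ v then 0 else Real.log ((T.L (κ u) (κ v)).card : ℝ)) :=
          sum_congr rfl fun i _ => sum_congr rfl fun u _ =>
            (sum_fiberwise univ κ (fun v =>
              (if κ u = κ v then 0 else Real.log ((T.L (κ u) (κ v)).card : ℝ)))).symm
      _ = _ := sum_congr rfl fun i _ => sum_comm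
  have h6 : ∀ i j : Fin p, ∑ u ∈ univ.filter (fun x => κ x = i),
        ∑ v ∈ univ.filter (fun x => κ x = j),
          (if κ u = κ v then 0 else Real.log ((T.L (κ u) (κ v)).card : ℝ)) =
      if i = j then 0 else ((univ.filter (fun x => κ x = i)).card : ℝ) *
        ((univ.filter (fun x => κ x = j)).card : ℝ) * Real.log ((T.L i j).card : ℝ) := by
    intro i j
    have h7 : ∀ u ∈ univ.filter (fun x => κ x = i), ∀ v ∈ univ.filter (fun x => κ x = j),
        (if κ u = κ v then 0 else Real.log ((T.L (κ u) (κ v)).card : ℝ)) =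
        if i = j then 0 else Real.log ((T.L i j).card : ℝ) := by
      intro u hu v hv
      rw [(mem_filter.1 hu).2, (mem_filter.1 hv).2]
    rw [sum_congr rfl (fun u hu => sum_congr rfl (fun v hv => h7 u hu v hv))]
    by_cases hij : i = j
    · simp only [if_pos hij, sum_const_zero]
    · simp only [if_neg hij, sum_const, nsmul_eq_mul]
      ring
  rw [h5, sum_congr rfl (fun i _ => sum_congr rfl (fun j _ => h6 i j)), sum_sym]
  · rw [← mul_assoc]
    norm_num
    refine sum_le_sum fun q hq => ?_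
    rw [if_neg (mem_prs.1 hq).ne]
    apply mul_le_mul_of_nonneg_right _ (Real.log_natCast_nonneg _)
    exact mul_le_mul (by exact_mod_cast hκ q.1) (by exact_mod_cast hκ q.2) (Nat.cast_nonneg _)
      (Nat.cast_nonneg _)
  · intro i j
    rw [T.symm]
    by_cases h : i = j
    · rw [if_pos h, if_pos h.symm]
    · rw [if_neg h, if_neg (fun h' => h h'.symm)]
      ring
  · intro i
    rw [if_pos rfl]

end Pool.Agent.TH469.EQ
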