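import Pool.Agent.TH469.EQ.Tmpl

/-!
Numerical part: bounds for the templates with 46 colours on 4, 5, 6, 8, 10, 14, 22 points.
-/

set_option autoImplicit false

namespace Pool.Agent.TH469.EQ

open Finset Tm

theorem l2l : (0.693147 : ℝ) < Real.log 2 := by have := Real.log_two_gt_d9; linarith
theorem l2u : Real.log 2 < 0.693148 := by have := Real.log_two_lt_d9; linarith

theorem log_ratio_le {a b : ℝ} (ha : 0 < a) (hb : 0 < b) : Real.log a - Real.log b ≤ a / b - 1 := by
  have := Real.log_le_sub_one_of_pos (show 0 < a / b by positivity)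
  rwa [Real.log_div ha.ne' hb.ne'] at this

theorem l3u : Real.log 3 < 1.09863 := by
  have h := log_ratio_le (a := 3 ^ 12) (b := 2 ^ 19) (by norm_num) (by norm_num)
  rw [Real.log_pow, Real.log_pow] at h
  have := l2u
  norm_num at h
  linarith

theorem l3l : 1.0986 < Real.log 3 := by
  have h := log_ratio_le (a := 2 ^ 19) (b := 3 ^ 12) (by norm_num) (by norm_num)
  rw [Real.log_pow, Real.log_pow] at h
  have := l2l
  norm_num at h
  linarith

theorem log_mul' {a b : ℝ} (ha : 0 < a) (hb : 0 < b) : Real.log (a * b) = Real.log a + Real.log b :=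
  Real.log_mul ha.ne' hb.ne'

theorem l5u : Real.log 5 < 1.60946 := by
  have h := log_ratio_le (a := 5 ^ 6) (b := 2 ^ 6 * 3 ^ 5) (by norm_num) (by norm_num)
  rw [log_mul' (by norm_num) (by norm_num), Real.log_pow, Real.log_pow, Real.log_pow] at h
  have := l2u
  have := l3u
  norm_num at h
  linarith

theorem l5l : 1.6094 < Real.log 5 := by
  have h := log_ratio_le (a := 2 ^ 6 * 3 ^ 5) (b := 5 ^ 6) (by norm_num) (by norm_num)
  rw [log_mul' (by norm_num) (by norm_num), Real.log_pow, Real.log_pow, Real.log_pow] at h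
  have := l2l
  have := l3l
  norm_num at h
  linarith

theorem l7l : 1.94588 < Real.log 7 := by
  have h := log_ratio_le (a := 2 ^ 5 * 3 * 5 ^ 2) (b := 7 ^ 4) (by norm_num) (by norm_num)
  rw [log_mul' (by norm_num) (by norm_num), log_mul' (by norm_num) (by norm_num), Real.log_pow,
    Real.log_pow, Real.log_pow] at h
  have := l2l
  have := l3l
  have := l5l
  norm_num at h
  linarith

theorem l7u : Real.log 7 < 1.94593 := by
  have h := log_ratio_le (a := 7 ^ 4) (b := 2 ^ 5 * 3 * 5 ^ 2) (by norm_num) (by norm_num)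
  rw [log_mul' (by norm_num) (by norm_num), log_mul' (by norm_num) (by norm_num), Real.log_pow,
    Real.log_pow, Real.log_pow] at h
  have := l2u
  have := l3u
  have := l5u
  norm_num at h
  linarith

theorem l46u : Real.log 46 < 3.8287 := by
  have h := log_ratio_le (a := 46 ^ 2) (b := 2 ^ 2 * 3 * 5 ^ 2 * 7) (by norm_num) (by norm_num)
  rw [log_mul' (by norm_num) (by norm_num), log_mul' (by norm_num) (by norm_num),
    log_mul' (by norm_num) (by norm_num), Real.log_pow, Real.log_pow, Real.log_pow] at h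
  have := l2u
  have := l3u
  have := l5u
  have := l7u
  norm_num at h
  linarith

/-- the exponent of the balanced 5-partite graph -/
noncomputable def vv : ℝ := 2 / 25 * (4 * Real.log 27 + 6 * Real.log 28)

theorem log27 : Real.log 27 = 3 * Real.log 3 := by
  rw [show (27 : ℝ) = 3 ^ 3 by norm_num, Real.log_pow]; norm_num

theorem log28 : Real.log 28 = 2 * Real.log 2 + Real.log 7 := by
  rw [show (28 : ℝ) = 2 ^ 2 * 7 by norm_num, log_mul' (by norm_num) (by norm_num), Real.log_pow]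
  norm_num

theorem vv_lower : 2.65409 < vv := by
  unfold vv
  rw [log27, log28]
  have := l2l
  have := l3l
  have := l7l
  linarith

/-- scaled upper bounds of logarithms -/
def lqt : ℕ → ℕ
  | 12 => 2484926
  | 15 => 2708090
  | 16 => 2772592
  | 18 => 2890408
  | 20 => 2995756
  | 24 => 3178074
  | 25 => 3218920
  | 27 => 3295890
  | 30 => 3401238
  | 32 => 3465740
  | 36 => 3583556
  | _ => 1000000000

def fac (q : ℕ) : ℝ := (q : ℝ)

theorem log_smooth (i j k : ℕ) : Real.log ((2 ^ i * 3 ^ j * 5 ^ k : ℕ) : ℝ) ≤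
    i * 0.693148 + j * 1.09863 + k * 1.60946 := by
  push_cast
  rw [log_mul' (by positivity) (by positivity), log_mul' (by positivity) (by positivity),
    Real.log_pow, Real.log_pow, Real.log_pow]
  have h2 := l2u
  have h3 := l3u
  have h5 := l5u
  have hi : (0 : ℝ) ≤ i := by positivity
  have hj : (0 : ℝ) ≤ j := by positivity
  have hk : (0 : ℝ) ≤ k := by positivity
  nlinarith

def okq (q : ℕ) : Bool := q ∈ ([12, 15, 16, 18, 20, 24, 25, 27, 30, 32, 36] : List ℕ)

theorem lqt_spec (q : ℕ) (hq : okq q = true) : Real.log q ≤ (lqt q : ℝ) / 1000000 := by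
  unfold okq at hq
  simp only [List.mem_cons, List.not_mem_nil, or_false, decide_eq_true_eq] at hq
  rcases hq with rfl | rfl | rfl | rfl | rfl | rfl | rfl | rfl | rfl | rfl | rfl
  · have h := log_smooth 2 1 0
    norm_num [lqt] at h ⊢
    linarith
  · have h := log_smooth 0 1 1
    norm_num [lqt] at h ⊢
    linarith
  · have h := log_smooth 4 0 0
    norm_num [lqt] at h ⊢
    linarith
  · have h := log_smooth 1 2 0
    norm_num [lqt] at h ⊢
    linarith
  · have h := log_smooth 2 0 1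
    norm_num [lqt] at h ⊢
    linarith
  · have h := log_smooth 3 1 0
    norm_num [lqt] at h ⊢
    linarith
  · have h := log_smooth 0 0 2
    norm_num [lqt] at h ⊢
    linarith
  · have h := log_smooth 0 3 0
    norm_num [lqt] at h ⊢
    linarith
  · have h := log_smooth 1 1 1
    norm_num [lqt] at h ⊢
    linarith
  · have h := log_smooth 5 0 0
    norm_num [lqt] at h ⊢
    linarith
  · have h := log_smooth 2 2 0
    norm_num [lqt] at h ⊢
    linarith

theorem okq_pos (q : ℕ) (hq : okq q = true) : 3 ≤ q := by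
  unfold okq at hq
  simp only [List.mem_cons, List.not_mem_nil, or_false, decide_eq_true_eq] at hq
  omega

theorem okq_big (q : ℕ) (hq : okq q = true) : 1000000 ≤ lqt q := by
  unfold okq at hq
  simp only [List.mem_cons, List.not_mem_nil, or_false, decide_eq_true_eq] at hq
  rcases hq with rfl | rfl | rfl | rfl | rfl | rfl | rfl | rfl | rfl | rfl | rfl <;> decide

/-- the numerical condition -/
def chk (m N B t t1 K q : ℕ) : Bool :=
  decide (q * ((t - t1) * 693148 + (N - t) * (lqt q - 1000000)) +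
    1000000 * (46 * K + (m - 2) * t1) ≤ q * B + 1000000 * (2 * (t - t1)))

def Kf (m t a z : ℕ) : ℕ := (m * (m - 1) + 2 * t * (z - 1) + m * (a * (a + 1))) / (4 * a)

def chkRow (m N B t : ℕ) (cap : ℕ) (x : ℕ × ℕ × ℕ) : Bool :=
  decide (1 ≤ x.1) && decide (1 ≤ x.2.1) && decide (2 * t ≤ x.2.1 * (x.2.1 + 1) + 1) &&
  okq x.2.2 && (List.range (t + 1)).all (fun t1 => chk m N B t t1 (min cap (Kf m t x.1 x.2.1)) x.2.2)

theorem row_bound {m : ℕ} (T : Tm m 46) (N B t cap : ℕ) (x : ℕ × ℕ × ℕ)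
    (hm : 2 ≤ m) (hN : (prs m).card = N) (ht : T.tny.card = t) (htN : t ≤ N)
    (hcap : ∀ g, (T.eW g).card ≤ cap)
    (h : chkRow m N B t cap x = true) : T.wsum ≤ (B : ℝ) / 1000000 := by
  obtain ⟨a, z, q⟩ := x
  unfold chkRow at h
  simp only [Bool.and_eq_true, decide_eq_true_eq, List.all_eq_true, List.mem_range] at h
  obtain ⟨⟨⟨⟨ha, hz⟩, hz2⟩, hq⟩, hall⟩ := h
  set K := min cap (Kf m t a z) with hK
  have hKb : ∀ g, (T.eW g).card ≤ K := by
    intro g
    refine le_min (hcap g) ?_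
    unfold Kf
    rw [Nat.le_div_iff_mul_le (by omega)]
    have := T.eW_bound g a z hz (by rw [ht]; exact hz2)
    rw [ht] at this
    linarith
  have hq3 := okq_pos q hq
  have hqr : (0 : ℝ) < q := by exact_mod_cast (by omega : 0 < q)
  have hw := T.wsum_le K hKb q hqr
  have htt : T.one.card + T.two.card = t := by rw [← ht, T.tny_eq]
  set t1 := T.one.card with ht1
  set t2 := T.two.card with ht2
  have hc := hall t1 (by omega)
  unfold chk at hc
  rw [decide_eq_true_eq] at hc
  have h2 : t - t1 = t2 := by omega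
  rw [h2] at hc
  have hlog := lqt_spec q hq
  have hbig := okq_big q hq
  have hc' : (q : ℝ) * (t2 * 693148 + (N - t) * ((lqt q : ℝ) - 1000000)) +
      1000000 * (46 * K + (m - 2) * t1) ≤ q * B + 1000000 * (2 * t2) := by
    have h3 : ((q * (t2 * 693148 + (N - t) * (lqt q - 1000000)) +
      1000000 * (46 * K + (m - 2) * t1) : ℕ) : ℝ) ≤ ((q * B + 1000000 * (2 * t2) : ℕ) : ℝ) := by
      exact_mod_cast hc
    push_cast [Nat.cast_sub htN, Nat.cast_sub hbig, Nat.cast_sub hm] at h3
    exact h3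
  have hNr : ((prs m).card : ℝ) - t1 - t2 = (N : ℝ) - t := by
    rw [hN, ← htt]; push_cast; ring
  rw [hNr] at hw
  have hNt : (0 : ℝ) ≤ (N : ℝ) - t := by
    have : (t : ℝ) ≤ N := by exact_mod_cast htN
    linarith
  have hm1 : ((m - 1 : ℕ) : ℝ) = (m : ℝ) - 1 := by
    rw [Nat.cast_sub (by omega)]; simp
  rw [hm1] at hw
  have h46 : ((46 : ℕ) : ℝ) = 46 := by norm_num
  rw [h46] at hw
  have ht20 : (0 : ℝ) ≤ (t2 : ℝ) := by positivity
  have e1 : (t2 : ℝ) * Real.log 2 ≤ t2 * 0.693148 := mul_le_mul_of_nonneg_left l2u.le ht20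
  have e2 : ((N : ℝ) - t) * (Real.log q - 1) ≤ ((N : ℝ) - t) * ((lqt q : ℝ) / 1000000 - 1) :=
    mul_le_mul_of_nonneg_left (by linarith) hNt
  have e3 : (t2 : ℝ) * 0.693148 + ((N : ℝ) - t) * ((lqt q : ℝ) / 1000000 - 1) +
      (46 * K + ((m : ℝ) - 1) * t1 - t1 - 2 * t2) / q ≤ (B : ℝ) / 1000000 := by
    rw [← sub_nonneg]
    have : (B : ℝ) / 1000000 - ((t2 : ℝ) * 0.693148 + ((N : ℝ) - t) * ((lqt q : ℝ) / 1000000 - 1) +
      (46 * K + ((m : ℝ) - 1) * t1 - t1 - 2 * t2) / q) =
      (q * B + 1000000 * (2 * t2) - ((q : ℝ) * (t2 * 693148 + (N - t) * ((lqt q : ℝ) - 1000000)) +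
      1000000 * (46 * K + (m - 2) * t1))) / (1000000 * q) := by
      field_simp
      ring
    rw [this]
    apply div_nonneg
    · linarith
    · positivity
  linarith

/-- trivial range -/
theorem triv_bound {m : ℕ} (T : Tm m 46) (N B t0 : ℕ) (hN : (prs m).card = N)
    (ht : t0 ≤ T.tny.card) (htN : t0 ≤ N)
    (h : t0 * 693148 + (N - t0) * 3828700 ≤ B) : T.wsum ≤ (B : ℝ) / 1000000 := by
  have hw := T.wsum_triv (by norm_num)
  have htt : T.one.card + T.two.card = T.tny.card := by rw [T.tny_eq]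
  have h3 : ((t0 * 693148 + (N - t0) * 3828700 : ℕ) : ℝ) ≤ (B : ℝ) := by exact_mod_cast h
  push_cast [Nat.cast_sub htN] at h3
  have h4 : (T.one.card : ℝ) + T.two.card = T.tny.card := by exact_mod_cast htt
  have h5 : ((prs m).card : ℝ) - T.one.card - T.two.card = N - T.tny.card := by
    rw [hN, ← h4]; ring
  rw [h5, h4] at hw
  have h46 : ((46 : ℕ) : ℝ) = 46 := by norm_num
  rw [h46] at hw
  have h6 : (t0 : ℝ) ≤ T.tny.card := by exact_mod_cast ht
  have h7 : T.tny.card ≤ N := by
    rw [← hN]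
    exact card_le_card (filter_subset _ _)
  have h8 : (T.tny.card : ℝ) ≤ N := by exact_mod_cast h7
  have e1 : (T.tny.card : ℝ) * Real.log 2 ≤ T.tny.card * 0.693148 :=
    mul_le_mul_of_nonneg_left l2u.le (by positivity)
  have e2 : ((N : ℝ) - T.tny.card) * Real.log 46 ≤ ((N : ℝ) - T.tny.card) * 3.8287 :=
    mul_le_mul_of_nonneg_left l46u.le (by linarith)
  linarith

def chkAll (m N B : ℕ) (tab : List (ℕ × ℕ × ℕ)) : Bool :=
  (List.range tab.length).all (fun t => chkRow m N B t 100000 (tab.getD t (0, 0, 0))) &&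
    decide (tab.length * 693148 + (N - tab.length) * 3828700 ≤ B) && decide (tab.length ≤ N)

theorem all_bound {m : ℕ} (T : Tm m 46) (N B : ℕ) (tab : List (ℕ × ℕ × ℕ)) (hm : 2 ≤ m)
    (hm2 : m * m ≤ 100000)
    (hN : (prs m).card = N) (h : chkAll m N B tab = true) : T.wsum ≤ (B : ℝ) / 1000000 := by
  unfold chkAll at h
  simp only [Bool.and_eq_true, decide_eq_true_eq, List.all_eq_true, List.mem_range] at h
  obtain ⟨⟨h1, h2⟩, h3⟩ := h
  rcases lt_or_ge T.tny.card tab.length with h4 | h4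
  · refine row_bound T N B _ 100000 _ hm hN rfl (by omega) ?_ (h1 _ h4)
    intro g
    have h5 : (T.eW g).card ≤ (prs m).card := card_le_card (filter_subset _ _)
    have h6 := card_prs m
    have h7 : m * (m - 1) ≤ m * m := Nat.mul_le_mul_left _ (by omega)
    omega
  · exact triv_bound T N B _ hN h4 h3 h2

def tab4 : List (ℕ × ℕ × ℕ) :=
  [(2, 1, 30)]

set_option maxRecDepth 100000 in
theorem chk4 : chkAll 4 6 21232720 tab4 = true := by decide

theorem bound4 (T : Tm 4 46) : T.wsum ≤ (21232720 : ℝ) / 1000000 := by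
  have hN : (prs 4).card = 6 := by have := card_prs 4; omega
  have := all_bound T 6 21232720 tab4 (by norm_num) (by norm_num) hN chk4
  exact_mod_cast this

def tab8 : List (ℕ × ℕ × ℕ) :=
  [(3, 1, 20), (3, 1, 20), (2, 2, 24), (2, 2, 24), (3, 3, 27), (3, 3, 27), (3, 3, 30), (3, 4, 36)]

set_option maxRecDepth 100000 in
theorem chk8 : chkAll 8 28 83603835 tab8 = true := by decide

theorem bound8 (T : Tm 8 46) : T.wsum ≤ (83603835 : ℝ) / 1000000 := by
  have hN : (prs 8).card = 28 := by have := card_prs 8; omega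
  have := all_bound T 28 83603835 tab8 (by norm_num) (by norm_num) hN chk8
  exact_mod_cast this

def tab10 : List (ℕ × ℕ × ℕ) :=
  [(3, 1, 18), (3, 1, 18), (3, 2, 18), (3, 2, 20), (3, 3, 20), (3, 3, 20), (3, 3, 24), (4, 4, 24), (3, 4, 25), (4, 4, 27), (4, 4, 27), (4, 5, 30), (4, 5, 32), (4, 5, 32)]

set_option maxRecDepth 100000 in
theorem chk10 : chkAll 10 45 129386887 tab10 = true := by decide

theorem bound10 (T : Tm 10 46) : T.wsum ≤ (129386887 : ℝ) / 1000000 := by
  have hN : (prs 10).card = 45 := by have := card_prs 10; omega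
  have := all_bound T 45 129386887 tab10 (by norm_num) (by norm_num) hN chk10
  exact_mod_cast this

def tab14 : List (ℕ × ℕ × ℕ) :=
  [(4, 1, 15), (4, 1, 15), (3, 2, 15), (3, 2, 16), (4, 3, 16), (3, 3, 16), (4, 3, 18), (4, 4, 18), (4, 4, 18), (4, 4, 20), (4, 4, 20), (4, 5, 20), (4, 5, 20), (4, 5, 20), (4, 5, 20), (4, 5, 20), (4, 6, 24), (5, 6, 24), (5, 6, 24), (5, 6, 24), (5, 6, 25), (5, 6, 25), (5, 7, 27), (5, 7, 27), (5, 7, 30), (6, 7, 30), (5, 7, 32), (6, 7, 32), (5, 7, 32), (6, 8, 36), (6, 8, 36)]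

set_option maxRecDepth 100000 in
theorem chk14 : chkAll 14 91 253598299 tab14 = true := by decide

theorem bound14 (T : Tm 14 46) : T.wsum ≤ (253598299 : ℝ) / 1000000 := by
  have hN : (prs 14).card = 91 := by have := card_prs 14; omega
  have := all_bound T 91 253598299 tab14 (by norm_num) (by norm_num) hN chk14
  exact_mod_cast this

def tab22 : List (ℕ × ℕ × ℕ) :=
  [(4, 1, 12), (4, 1, 12), (4, 2, 12), (4, 2, 12), (5, 3, 12), (4, 3, 12), (4, 3, 12), (5, 4, 12), (5, 4, 12), (5, 4, 12), (5, 4, 12), (5, 5, 15), (5, 5, 15), (5, 5, 15), (5, 5, 15), (5, 5, 15), (5, 6, 15), (5, 6, 15), (5, 6, 16), (5, 6, 16), (5, 6, 16), (5, 6, 16), (6, 7, 18), (5, 7, 18), (6, 7, 18), (6, 7, 18), (6, 7, 18), (6, 7, 18), (6, 7, 18), (6, 8, 20), (6, 8, 20), (6, 8, 20), (6, 8, 20), (6, 8, 20), (6, 8, 20), (6, 8, 20), (6, 8, 24), (7, 9, 24), (7, 9, 24), (7, 9, 24), (7, 9, 24), (7, 9, 24), (7, 9, 25), (7, 9, 25), (7, 9, 25), (7, 9, 27), (8, 10, 27), (7, 10, 27), (8, 10, 27), (8, 10, 27),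 (7, 10, 30), (8, 10, 30), (7, 10, 30), (8, 10, 30), (8, 10, 30), (8, 10, 30), (8, 11, 32), (8, 11, 32), (8, 11, 32), (8, 11, 32), (8, 11, 32), (9, 11, 32), (8, 11, 32), (9, 11, 32), (8, 11, 32), (9, 11, 32), (9, 11, 32), (9, 12, 32), (9, 12, 32), (9, 12, 32), (9, 12, 32), (9, 12, 32), (9, 12, 32), (9, 12, 32), (10, 12, 32), (9, 12, 32), (10, 12, 32), (9, 12, 32), (10, 12, 32), (10, 13, 36), (10, 13, 36), (10, 13, 36), (10, 13, 36), (10, 13, 36), (10, 13, 36), (11, 13, 36), (10, 13, 36)]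

set_option maxRecDepth 100000 in
theorem chk22 : chkAll 22 231 613094790 tab22 = true := by decide

theorem bound22 (T : Tm 22 46) : T.wsum ≤ (613094790 : ℝ) / 1000000 := by
  have hN : (prs 22).card = 231 := by have := card_prs 22; omega
  have := all_bound T 231 613094790 tab22 (by norm_num) (by norm_num) hN chk22
  exact_mod_cast this

end Pool.Agent.TH469.EQ
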