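import Pool.Agent.TH469.EQ.Num

/-!
The cases of 5 and 6 points.
-/

set_option autoImplicit false

namespace Pool.Agent.TH469.EQ

open Finset Tm

/-- with at most one tiny pair, a colour has at most 7 pairs on 6 points -/
theorem eW6 {r : ℕ} (T : Tm 6 r) (g : Fin r) (ht : T.tny.card ≤ 1) : (T.eW g).card ≤ 7 := by
  classical
  have hNb : ∀ x ∈ T.W g, ∀ y ∈ T.W g, x ≠ y → (T.Nb g x y).card ≤ 1 := by
    intro x hx y hy hxy
    by_cases h : (T.L x y).card ≤ 2
    · exact T.Nb_card_le hx hy hxy h 1 (by omega)
    · exact T.Nb_card_le_one hx hy hxy (by omega)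
  have hW6 : (T.W g).card ≤ 6 := by
    have := card_le_univ (T.W g)
    rwa [Fintype.card_fin] at this
  by_cases hsmall : ∀ z ∈ T.W g, (T.dg g z).card ≤ 2
  · have h1 := T.sum_dg g
    have h2 : ∑ z ∈ T.W g, (T.dg g z).card ≤ ∑ z ∈ T.W g, 2 := sum_le_sum hsmall
    rw [sum_const, smul_eq_mul] at h2
    omega
  · push Not at hsmall
    obtain ⟨z, hz, hz3⟩ := hsmall
    set D := T.dg g z with hD
    set R := ((T.W g).erase z) \ D with hR
    have hDW : D ⊆ (T.W g).erase z := by
      intro x hx
      rw [hD, dg, mem_filter] at hx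
      exact mem_erase.2 ⟨hx.2.1, hx.1⟩
    have hRc : R.card + D.card + 1 = (T.W g).card := by
      have h1 : R.card + D.card = ((T.W g).erase z).card := card_sdiff_add_card_eq_card hDW
      rw [card_erase_of_mem hz] at h1
      have : 0 < (T.W g).card := card_pos.2 ⟨z, hz⟩
      omega
    -- symmetric adjacency
    have hsym : ∀ x y, x ∈ T.W g → y ∈ T.W g → (x ∈ T.dg g y ↔ y ∈ T.dg g x) := by
      intro x y hx hy
      simp only [dg, mem_filter]
      constructor
      · rintro ⟨_, h1, h2⟩
        exact ⟨hy, h1.symm, by rw [T.symm]; exact h2⟩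
      · rintro ⟨_, h1, h2⟩
        exact ⟨hx, h1.symm, by rw [T.symm]; exact h2⟩
    have hsub : ∀ x, T.dg g x ⊆ T.W g := fun x => filter_subset _ _
    -- at most one neighbour in D
    have hD1 : ∀ x ∈ (T.W g).erase z, (T.dg g x ∩ D).card ≤ 1 := by
      intro x hx
      rw [mem_erase] at hx
      refine le_trans (card_le_card ?_) (hNb z hz x hx.2 hx.1.symm)
      intro y hy
      rw [mem_inter, hD] at hy
      obtain ⟨h1, h2⟩ := hy
      rw [dg, mem_filter] at h1 h2
      rw [Nb, mem_filter]
      exact ⟨h1.1, h2.2.1, h1.2.1, by rw [T.symm]; exact h2.2.2, by rw [T.symm]; exact h1.2.2⟩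
    have hdeg : ∀ x ∈ (T.W g).erase z, (T.dg g x).card ≤
        1 + (T.dg g x ∩ R).card + (if x ∈ D then 1 else 0) := by
      intro x hx
      have h1 : T.dg g x ⊆ (T.dg g x ∩ D) ∪ (T.dg g x ∩ R) ∪ (if x ∈ D then {z} else ∅) := by
        intro y hy
        have hyW := hsub x hy
        rw [mem_union, mem_union, mem_inter, mem_inter]
        by_cases hyz : y = z
        · right
          have : x ∈ D := by
            rw [hD, hsym x z (mem_erase.1 hx).2 hz, ← hyz]; exact hy
          rw [if_pos this, hyz]
          exact mem_singleton_self _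
        · left
          by_cases hyD : y ∈ D
          · exact Or.inl ⟨hy, hyD⟩
          · exact Or.inr ⟨hy, by rw [hR, mem_sdiff, mem_erase]; exact ⟨⟨hyz, hyW⟩, hyD⟩⟩
      refine (card_le_card h1).trans ((card_union_le _ _).trans ?_)
      have h2 := card_union_le (T.dg g x ∩ D) (T.dg g x ∩ R)
      have h3 := hD1 x hx
      have h4 : (if x ∈ D then ({z} : Finset (Fin 6)) else ∅).card = if x ∈ D then 1 else 0 := by
        split_ifs <;> simp
      omega
    have hRdeg : ∀ y ∈ R, (T.dg g y).card ≤ R.card := by
      intro y hy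
      have hy' := mem_sdiff.1 hy
      have h1 := hdeg y hy'.1
      rw [if_neg hy'.2] at h1
      have h2 : (T.dg g y ∩ R).card ≤ (R.erase y).card := by
        apply card_le_card
        intro w hw
        rw [mem_inter] at hw
        rw [mem_erase]
        refine ⟨?_, hw.2⟩
        rintro rfl
        have := hw.1
        rw [dg, mem_filter] at this
        exact this.2.1 rfl
      rw [card_erase_of_mem hy] at h2
      have : 0 < R.card := card_pos.2 ⟨y, hy⟩
      omega
    have hswap : ∑ x ∈ (T.W g).erase z, (T.dg g x ∩ R).card ≤ ∑ y ∈ R, (T.dg g y).card := by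
      have h1 : ∀ x ∈ (T.W g).erase z, (T.dg g x ∩ R).card = ∑ y ∈ R, if y ∈ T.dg g x then 1 else 0 := by
        intro x _
        rw [← card_filter, inter_comm, filter_mem_eq_inter]
      rw [sum_congr rfl h1, sum_comm]
      apply sum_le_sum
      intro y hy
      have hyW : y ∈ T.W g := (mem_erase.1 (mem_sdiff.1 hy).1).2
      rw [← card_filter]
      apply card_le_card
      intro x hx
      rw [mem_filter, mem_erase] at hx
      exact (hsym x y hx.1.2 hyW).2 hx.2
    have hRR : ∑ y ∈ R, (T.dg g y).card ≤ R.card * R.card := by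
      have := sum_le_sum hRdeg
      rwa [sum_const, smul_eq_mul] at this
    have hDs : ∑ x ∈ (T.W g).erase z, (if x ∈ D then 1 else 0) = D.card := by
      rw [← card_filter, filter_mem_eq_inter, inter_eq_right.2 hDW]
    have htot : ∑ x ∈ T.W g, (T.dg g x).card ≤ D.card + ((R.card + D.card) + R.card * R.card + D.card) := by
      rw [← add_sum_erase _ _ hz]
      apply Nat.add_le_add_left
      refine (sum_le_sum hdeg).trans ?_
      rw [sum_add_distrib, sum_add_distrib, hDs, sum_const, smul_eq_mul, mul_one,
        card_erase_of_mem hz]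
      omega
    rw [T.sum_dg] at htot
    have hRle : R.card ≤ 2 := by omega
    interval_cases h : R.card <;> omega

theorem wsum_triv' (T : Tm 2 46) : T.wsum ≤ (2 : ℝ) * vv := by
  have hN : (prs 2).card = 1 := by have := card_prs 2; omega
  have h := triv_bound T 1 5308180 0 hN (by omega) (by omega) (by norm_num)
  have := vv_lower
  norm_num at h
  linarith

theorem bound3 (T : Tm 3 46) : T.wsum ≤ (9 / 2 : ℝ) * vv := by
  have hN : (prs 3).card = 3 := by have := card_prs 3; omega
  have h := triv_bound T 3 11943405 0 hN (by omega) (by omega) (by norm_num)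
  have := vv_lower
  norm_num at h
  linarith

/-- the chord of the logarithm through 27 and 28 -/
theorem chord (s : ℕ) (hs : 1 ≤ s) :
    Real.log s ≤ Real.log 27 + ((s : ℝ) - 27) * (Real.log 28 - Real.log 27) := by
  have hs0 : (0 : ℝ) < s := by exact_mod_cast (by omega : 0 < s)
  rcases le_or_gt 27 s with h | h
  · obtain ⟨k, rfl⟩ := Nat.exists_eq_add_of_le h
    have h1 := one_add_mul_le_pow (show (-2 : ℝ) ≤ 1 / 27 by norm_num) k
    have h2 : ((27 + k : ℕ) : ℝ) / 27 ≤ (28 / 27) ^ k := by
      refine le_trans (le_of_eq ?_) (h1.trans (le_of_eq ?_))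
      · push_cast; ring
      · norm_num
    have h3 := Real.log_le_log (by positivity) h2
    rw [Real.log_div hs0.ne' (by norm_num), Real.log_pow, Real.log_div (by norm_num) (by norm_num)]
      at h3
    push_cast at h3 ⊢
    linarith
  · obtain ⟨k, hk⟩ := Nat.exists_eq_add_of_le h.le
    have h1 := one_add_mul_le_pow (show (-2 : ℝ) ≤ -(1 / 28) by norm_num) k
    have hk' : (s : ℝ) = 27 - k := by
      have : ((27 : ℕ) : ℝ) = ((s + k : ℕ) : ℝ) := by rw [hk]
      push_cast at this
      linarith
    have h2 : (s : ℝ) / 27 ≤ (27 / 28) ^ k := by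
      refine le_trans ?_ (h1.trans (le_of_eq ?_))
      · have hkr : (0 : ℝ) ≤ k := by positivity
        have hk27 : (k : ℝ) ≤ 27 := by linarith
        rw [hk']
        linarith
      · norm_num
    have h3 := Real.log_le_log (by positivity) h2
    rw [Real.log_div hs0.ne' (by norm_num), Real.log_pow, Real.log_div (by norm_num) (by norm_num)]
      at h3
    rw [hk'] at h3 ⊢
    linarith

theorem bound5 (T : Tm 5 46) : T.wsum ≤ (25 / 2 : ℝ) * vv := by
  have hN : (prs 5).card = 10 := by have := card_prs 5; omega
  have hv := vv_lower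
  have hcap : ∀ g, (T.eW g).card ≤ 100000 := by
    intro g
    have : (T.eW g).card ≤ (prs 5).card := card_le_card (filter_subset _ _)
    omega
  rcases Nat.lt_or_ge T.tny.card 2 with h | h
  · rcases Nat.lt_or_ge T.tny.card 1 with h1 | h1
    · have h0 : T.tny.card = 0 := by omega
      have hK : ∀ g, (T.eW g).card ≤ 6 := by
        intro g
        have := T.eW_bound g 2 1 (by norm_num) (by omega)
        rw [h0] at this
        omega
      have htot := T.total_le 6 hK
      have h10 : T.one.card = 0 := by
        have := T.tny_eq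
        omega
      rw [h10] at htot
      have htot' : (∑ p ∈ prs 5, ((T.L p.1 p.2).card : ℝ)) ≤ 276 := by
        have h5 : ((∑ p ∈ prs 5, (T.L p.1 p.2).card : ℕ) : ℝ) ≤ ((46 * 6 + (5 - 1) * 0 : ℕ) : ℝ) := by
          exact_mod_cast htot
        push_cast at h5
        linarith
      have h2 : T.wsum ≤ ∑ p ∈ prs 5, (Real.log 27 +
          (((T.L p.1 p.2).card : ℝ) - 27) * (Real.log 28 - Real.log 27)) := by
        unfold wsum
        apply sum_le_sum
        intro p hp
        exact chord _ (T.ne p.1 p.2 (mem_prs.1 hp).ne).card_pos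
      rw [sum_add_distrib, sum_const, ← sum_mul, sum_sub_distrib, sum_const, hN] at h2
      have h3 : 0 ≤ Real.log 28 - Real.log 27 := by
        have := Real.log_le_log (show (0 : ℝ) < 27 by norm_num) (show (27 : ℝ) ≤ 28 by norm_num)
        linarith
      have h4 : (∑ p ∈ prs 5, ((T.L p.1 p.2).card : ℝ) - 10 • (27 : ℝ)) *
          (Real.log 28 - Real.log 27) ≤ 6 * (Real.log 28 - Real.log 27) := by
        apply mul_le_mul_of_nonneg_right _ h3
        norm_num
        linarith
      have h5 : (25 / 2 : ℝ) * vv = 4 * Real.log 27 + 6 * Real.log 28 := by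
        unfold vv; ring
      rw [h5]
      norm_num at h2 h4
      linarith
    · have h2 := row_bound T 10 33176125 1 100000 (2, 1, 30) (by norm_num) hN (by omega)
        (by norm_num) hcap (by decide)
      norm_num at h2
      linarith
  · have h2 := triv_bound T 10 33176125 2 hN h (by norm_num) (by norm_num)
    norm_num at h2
    linarith

theorem bound6 (T : Tm 6 46) : T.wsum ≤ (35 / 2 : ℝ) * vv := by
  have hN : (prs 6).card = 15 := by have := card_prs 6; omega
  have hv := vv_lower
  have hcap : ∀ g, (T.eW g).card ≤ 100000 := by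
    intro g
    have : (T.eW g).card ≤ (prs 6).card := card_le_card (filter_subset _ _)
    omega
  rcases Nat.lt_or_ge T.tny.card 4 with h | h
  · have : T.tny.card = 0 ∨ T.tny.card = 1 ∨ T.tny.card = 2 ∨ T.tny.card = 3 := by omega
    rcases this with h1 | h1 | h1 | h1
    · have h2 := row_bound T 15 46446575 0 7 (1, 1, 20) (by norm_num) hN h1
        (by norm_num) (fun g => eW6 T g (by omega)) (by decide)
      norm_num at h2
      linarith
    · have h2 := row_bound T 15 46446575 1 7 (1, 1, 24) (by norm_num) hN h1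
        (by norm_num) (fun g => eW6 T g (by omega)) (by decide)
      norm_num at h2
      linarith
    · have h2 := row_bound T 15 46446575 2 100000 (2, 2, 27) (by norm_num) hN h1
        (by norm_num) hcap (by decide)
      norm_num at h2
      linarith
    · have h2 := row_bound T 15 46446575 3 100000 (2, 2, 36) (by norm_num) hN h1
        (by norm_num) hcap (by decide)
      norm_num at h2
      linarith
  · have h2 := triv_bound T 15 46446575 4 hN h (by norm_num) (by norm_num)
    norm_num at h2
    linarith

/-! ### averaging -/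

/-- ordered version of `wsum` -/
noncomputable def osum {m r : ℕ} (T : Tm m r) : ℝ :=
  ∑ x, ∑ y, if x = y then 0 else Real.log ((T.L x y).card : ℝ)

theorem osum_eq {m r : ℕ} (T : Tm m r) : osum T = 2 * T.wsum := by
  classical
  have h1 : osum T = ∑ p : Fin m × Fin m, if p.1 = p.2 then 0 else Real.log ((T.L p.1 p.2).card : ℝ) := by
    unfold osum
    rw [Fintype.sum_prod_type]
  have h2 : (univ : Finset (Fin m × Fin m)) = prs m ∪ (prs m).image Prod.swap ∪
      univ.filter (fun p => p.1 = p.2) := by
    ext ⟨x, y⟩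
    simp only [mem_univ, mem_union, mem_prs, mem_image, Prod.exists, Prod.swap_prod_mk,
      Prod.mk.injEq, mem_filter, true_and, true_iff]
    rcases lt_trichotomy x y with h | h | h
    · exact Or.inl (Or.inl h)
    · exact Or.inr h
    · exact Or.inl (Or.inr ⟨y, x, h, rfl, rfl⟩)
  rw [h1, h2, sum_union, sum_union, sum_image]
  · have e1 : ∑ p ∈ univ.filter (fun p : Fin m × Fin m => p.1 = p.2),
        (if p.1 = p.2 then 0 else Real.log ((T.L p.1 p.2).card : ℝ)) = 0 := by
      apply sum_eq_zero
      intro p hp
      rw [if_pos (mem_filter.1 hp).2]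
    have e2 : ∑ p ∈ prs m, (if p.1 = p.2 then 0 else Real.log ((T.L p.1 p.2).card : ℝ)) = T.wsum := by
      unfold wsum
      apply sum_congr rfl
      intro p hp
      rw [if_neg (mem_prs.1 hp).ne]
    have e3 : ∑ p ∈ prs m, (if p.swap.1 = p.swap.2 then 0 else
        Real.log ((T.L p.swap.1 p.swap.2).card : ℝ)) = T.wsum := by
      unfold wsum
      apply sum_congr rfl
      intro p hp
      rw [if_neg (by simpa using (mem_prs.1 hp).ne')]
      simp only [Prod.fst_swap, Prod.snd_swap]
      rw [T.symm]
    rw [e1, e2, e3]; ring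
  · intro p _ q _ h
    exact Prod.swap_injective h
  · rw [disjoint_left]
    rintro ⟨x, y⟩ h h'
    simp only [mem_prs, mem_image, Prod.exists, Prod.swap_prod_mk, Prod.mk.injEq] at h h'
    obtain ⟨a, b, h3, rfl, rfl⟩ := h'
    exact absurd h (not_lt.2 h3.le)
  · rw [disjoint_left]
    rintro ⟨x, y⟩ h h'
    simp only [mem_union, mem_prs, mem_image, Prod.exists, Prod.swap_prod_mk, Prod.mk.injEq,
      mem_filter, mem_univ, true_and] at h h'
    subst h'
    rcases h with h | ⟨a, b, h, rfl, h2⟩
    · exact absurd h (lt_irrefl _)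
    · rw [h2] at h; exact absurd h (lt_irrefl _)

/-- deletion of a point -/
def del {m r : ℕ} (T : Tm (m + 1) r) (v : Fin (m + 1)) : Tm m r where
  L x y := T.L (v.succAbove x) (v.succAbove y)
  symm _ _ := T.symm _ _
  ne x y h := T.ne _ _ (fun h2 => h (Fin.succAbove_right_injective h2))
  free x hx h := T.free (fun i => v.succAbove (x i))
    (fun i j hij => hx (Fin.succAbove_right_injective hij)) h

theorem osum_del {m r : ℕ} (T : Tm (m + 1) r) :
    ∑ v, osum (del T v) = ((m : ℝ) - 1) * osum T := by
  have h1 : ∀ v, osum (del T v) = ∑ x, ∑ y, (if x = v ∨ y = v then 0 else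
      if x = y then 0 else Real.log ((T.L x y).card : ℝ)) := by
    intro v
    rw [Fin.sum_univ_succAbove _ v]
    have e1 : ∑ y, (if v = v ∨ y = v then (0 : ℝ) else
        if v = y then 0 else Real.log ((T.L v y).card : ℝ)) = 0 := by
      apply sum_eq_zero; intro y _; rw [if_pos (Or.inl rfl)]
    rw [e1, zero_add]
    unfold osum
    apply sum_congr rfl
    intro x _
    rw [Fin.sum_univ_succAbove _ v]
    rw [if_pos (Or.inr rfl), zero_add]
    apply sum_congr rfl
    intro y _
    have hx : v.succAbove x ≠ v := Fin.succAbove_ne v x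
    have hy : v.succAbove y ≠ v := Fin.succAbove_ne v y
    simp only [hx, hy, or_self, if_false, del]
    by_cases hxy : x = y
    · rw [if_pos hxy, if_pos (by rw [hxy])]
    · rw [if_neg hxy, if_neg (fun h => hxy (Fin.succAbove_right_injective h))]
  rw [sum_congr rfl (fun v _ => h1 v), sum_comm]
  unfold osum
  rw [mul_sum]
  apply sum_congr rfl
  intro x _
  rw [sum_comm, mul_sum]
  apply sum_congr rfl
  intro y _
  by_cases hxy : x = y
  · rw [if_pos hxy]; simp
  · rw [if_neg hxy]
    have h2 : ∀ v, (if x = v ∨ y = v then (0 : ℝ) else Real.log ((T.L x y).card : ℝ)) =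
        Real.log ((T.L x y).card : ℝ) - (if x = v then Real.log ((T.L x y).card : ℝ) else 0) -
        (if y = v then Real.log ((T.L x y).card : ℝ) else 0) := by
      intro v
      by_cases hx : x = v
      · by_cases hy : y = v
        · exact absurd (hx.trans hy.symm) hxy
        · simp [hx, hy]
      · by_cases hy : y = v
        · simp [hx, hy]
        · simp [hx, hy]
    rw [sum_congr rfl (fun v _ => h2 v), sum_sub_distrib, sum_sub_distrib, sum_const, card_univ,
      Fintype.card_fin, sum_ite_eq, sum_ite_eq]
    simp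
    ring

theorem avg_step {m r : ℕ} (hm : 2 ≤ m) (c : ℝ)
    (h : ∀ T : Tm m r, T.wsum ≤ (m : ℝ) * (m - 1) / 2 * c) (T : Tm (m + 1) r) :
    T.wsum ≤ ((m + 1 : ℕ) : ℝ) * (((m + 1 : ℕ) : ℝ) - 1) / 2 * c := by
  have h1 := osum_del T
  have h2 : ∑ v, osum (del T v) ≤ ∑ _v : Fin (m + 1), (m : ℝ) * (m - 1) * c := by
    apply sum_le_sum
    intro v _
    rw [osum_eq]
    have := h (del T v)
    linarith
  rw [h1, osum_eq, sum_const, card_univ, Fintype.card_fin, nsmul_eq_mul] at h2
  have hm' : (2 : ℝ) ≤ m := by exact_mod_cast hm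
  have h3 : ((m : ℝ) - 1) * T.wsum ≤ ((m : ℝ) - 1) * (((m + 1 : ℕ) : ℝ) * (((m + 1 : ℕ) : ℝ) - 1) / 2 * c) := by
    push_cast at h2 ⊢
    linarith
  exact le_of_mul_le_mul_left h3 (by linarith)

theorem avg {m r : ℕ} (hm : 2 ≤ m) (c : ℝ)
    (h : ∀ T : Tm m r, T.wsum ≤ (m : ℝ) * (m - 1) / 2 * c) (l : ℕ) (hl : m ≤ l) (T : Tm l r) :
    T.wsum ≤ (l : ℝ) * (l - 1) / 2 * c := by
  induction l, hl using Nat.le_induction with
  | base => exact h T
  | succ l hl ih => exact avg_step (hm.trans hl) c ih T

/-- the final bound for every number of points, large case -/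
theorem bound_large (l : ℕ) (hl : 22 ≤ l) (T : Tm l 46) : T.wsum ≤ (l : ℝ) * (l - 1) / 2 * vv := by
  refine avg (m := 22) (by norm_num) vv ?_ l hl T
  intro T
  have h := bound22 T
  have := vv_lower
  norm_num at h ⊢
  linarith

/-- the final bound for every number of points -/
theorem bound_all (l : ℕ) (hl : 2 ≤ l) (T : Tm l 46) : T.wsum ≤ (l : ℝ) ^ 2 / 2 * vv := by
  have hv := vv_lower
  have hv0 : 0 < vv := by linarith
  rcases Nat.lt_or_ge l 22 with h | h
  · rcases Nat.lt_or_ge l 14 with h14 | h14
    · rcases Nat.lt_or_ge l 10 with h10 | h10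
      · interval_cases l
        · have := wsum_triv' T; norm_num; linarith
        · have := bound3 T; norm_num; linarith
        · have := bound4 T; norm_num at this ⊢; linarith
        · have := bound5 T; norm_num; linarith
        · have := bound6 T; norm_num; linarith
        · have := avg (m := 6) (by norm_num) (7 / 6 * vv) (fun T => by
            have := bound6 T; norm_num; linarith) 7 (by norm_num) T
          norm_num at this ⊢; linarith
        · have := bound8 T; norm_num at this ⊢; linarith
        · have := avg (m := 8) (by norm_num) (9 / 8 * vv) (fun T => by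
            have := bound8 T; norm_num at this ⊢; linarith) 9 (by norm_num) T
          norm_num at this ⊢; linarith
      · have h1 := avg (m := 10) (by norm_num) (13 / 12 * vv) (fun T => by
            have := bound10 T; norm_num at this ⊢; linarith) l h10 T
        refine h1.trans ?_
        have hl1 : (l : ℝ) ≤ 13 := by exact_mod_cast (by omega : l ≤ 13)
        have hl2 : (10 : ℝ) ≤ l := by exact_mod_cast h10
        have : (l : ℝ) * (l - 1) / 2 * (13 / 12) ≤ (l : ℝ) ^ 2 / 2 := by nlinarith
        nlinarith
    · have h1 := avg (m := 14) (by norm_num) (21 / 20 * vv) (fun T => by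
            have := bound14 T; norm_num at this ⊢; linarith) l h14 T
      refine h1.trans ?_
      have hl1 : (l : ℝ) ≤ 21 := by exact_mod_cast (by omega : l ≤ 21)
      have hl2 : (14 : ℝ) ≤ l := by exact_mod_cast h14
      have : (l : ℝ) * (l - 1) / 2 * (21 / 20) ≤ (l : ℝ) ^ 2 / 2 := by nlinarith
      nlinarith
  · refine (bound_large l h T).trans ?_
    have hl2 : (22 : ℝ) ≤ l := by exact_mod_cast h
    nlinarith

end Pool.Agent.TH469.EQ
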