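import Pool.Agent.TH469.EQ.Avg
import Pool.Agent.TH469.EQ.Cont

/-!
The upper bound for the number of `(46, PC)`-free colourings of equitable complete multipartite
graphs.
-/

set_option autoImplicit false

namespace Pool.Agent.TH469.EQ

open Finset Pool.Agent.TH477.RB Tm

theorem sum_sym {m : ℕ} (F : Fin m → Fin m → ℝ) (hs : ∀ i j, F i j = F j i)
    (h0 : ∀ i, F i i = 0) : ∑ i, ∑ j, F i j = 2 * ∑ p ∈ prs m, F p.1 p.2 := by
  classical
  have h1 : ∑ i, ∑ j, F i j = ∑ p : Fin m × Fin m, F p.1 p.2 := by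
    rw [Fintype.sum_prod_type]
  have h2 : (univ : Finset (Fin m × Fin m)) = prs m ∪ (prs m).image Prod.swap ∪
      univ.filter (fun p => p.1 = p.2) := by
    ext ⟨x, y⟩
    simp only [mem_univ, mem_union, mem_prs, mem_image, Prod.exists, Prod.swap_prod_mk,
      Prod.mk.injEq, mem_filter, true_and, true_iff]
    rcases lt_trichotomy x y with h | h | h
    · exact Or.inl (Or.inl h)
    · exact Or.inr h
    · exact Or.inl (Or.inr ⟨y, x, h, rfl, rfl⟩)
  rw [h1, h2, sum_union, sum_union, sum_image]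
  · have e1 : ∑ p ∈ univ.filter (fun p : Fin m × Fin m => p.1 = p.2), F p.1 p.2 = 0 := by
      apply sum_eq_zero
      intro p hp
      rw [(mem_filter.1 hp).2]
      exact h0 _
    have e3 : ∑ p ∈ prs m, F p.swap.1 p.swap.2 = ∑ p ∈ prs m, F p.1 p.2 := by
      apply sum_congr rfl
      intro p _
      exact hs _ _
    rw [e1, e3]; ring
  · intro p _ q _ h
    exact Prod.swap_injective h
  · rw [disjoint_left]
    rintro ⟨x, y⟩ h h'
    simp only [mem_prs, mem_image, Prod.exists, Prod.swap_prod_mk, Prod.mk.injEq] at h h'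
    obtain ⟨a, b, h3, rfl, rfl⟩ := h'
    exact absurd h (not_lt.2 h3.le)
  · rw [disjoint_left]
    rintro ⟨x, y⟩ h h'
    simp only [mem_union, mem_prs, mem_image, Prod.exists, Prod.swap_prod_mk, Prod.mk.injEq,
      mem_filter, mem_univ, true_and] at h h'
    subst h'
    rcases h with h | ⟨a, b, h, rfl, h2⟩
    · exact absurd h (lt_irrefl _)
    · rw [h2] at h; exact absurd h (lt_irrefl _)

theorem exists_kappa {n : ℕ} (G : SimpleGraph (Fin n)) (h : G.IsCompleteMultipartite) :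
    ∃ (l : ℕ) (κ : Fin n → Fin l), Function.Surjective κ ∧ ∀ x y, G.Adj x y ↔ κ x ≠ κ y := by
  classical
  let Q : Type := Quotient h.setoid
  have hQ : Finite Q := Quotient.finite _
  have : Fintype Q := Fintype.ofFinite Q
  let e : Q ≃ Fin (Fintype.card Q) := Fintype.equivFin Q
  refine ⟨Fintype.card Q, fun x => e (Quotient.mk h.setoid x), ?_, ?_⟩
  · exact e.surjective.comp Quotient.mk_surjective
  · intro x y
    have h1 : Quotient.mk h.setoid x = Quotient.mk h.setoid y ↔ ¬ G.Adj x y := Quotient.eq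
    have h2 : e (Quotient.mk h.setoid x) = e (Quotient.mk h.setoid y) ↔
        Quotient.mk h.setoid x = Quotient.mk h.setoid y := e.injective.eq_iff
    rw [Ne, h2, h1, not_not]

theorem vv_pos : 0 < vv := by have := vv_lower; linarith

theorem vv_upper : vv < 2.66 := by
  unfold vv
  rw [log27, log28]
  have := l2u
  have := l3u
  have := l7u
  linarith

open Classical in
theorem caseA {n : ℕ} (hn : 0 < n) (P : Fin n → Fin n → Finset (Fin 46))
    (hsymm : ∀ x y, P x y = P y x) (η2 η4 : ℝ) (h20 : 0 ≤ η2) (h40 : 0 ≤ η4)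
    (h2 : ((univ.filter (fun p : Fin n × Fin n => P p.1 p.2 = ∅)).card : ℝ) ≤ η2 * (n : ℝ) ^ 2)
    (h4 : ((univ.filter (fun x : Fin 4 → Fin n => Real4 P x)).card : ℝ) ≤ η4 * (n : ℝ) ^ 4) :
    1 / 2 * ∑ x, ∑ y, wt P x y ≤ (n : ℝ) ^ 2 * (vv / 2 + 2000 * η2 + 1000000 * η4) := by
  have hnr : (0 : ℝ) < n := by exact_mod_cast hn
  have h := avg_lemma (m := 22) (by norm_num) P hsymm (fun _ => univ) (n : ℝ) (n : ℝ) hnr
    (fun _ => by rw [card_univ, Fintype.card_fin]) (fun _ => by rw [card_univ, Fintype.card_fin])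
    (η2 * (n : ℝ) ^ 2) (η4 * (n : ℝ) ^ 4) (231 * vv) (by positivity) (by positivity)
    (by have := vv_pos; positivity)
    (fun i j _ => by rw [univ_product_univ]; exact h2) h4
    (fun T => by
      have := bound_large 22 le_rfl T
      norm_num at this
      exact this)
  have h5 : ∑ p ∈ prs 22, ∑ u : Fin n, ∑ v : Fin n, wt P u v =
      231 * ∑ u : Fin n, ∑ v : Fin n, wt P u v := by
    rw [sum_const, nsmul_eq_mul]
    have : (prs 22).card = 231 := by
      have := card_prs 22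
      omega
    rw [this]
    norm_num
  rw [h5] at h
  have e1 : η2 * (n : ℝ) ^ 2 / (n : ℝ) ^ 2 = η2 := by field_simp
  have e2 : η4 * (n : ℝ) ^ 4 / (n : ℝ) ^ 4 = η4 := by field_simp
  rw [e1, e2] at h
  have h6 : Real.log ((46 : ℕ) : ℝ) ≤ 3.8287 := by
    have := l46u
    push_cast
    linarith
  have h7 : 0 ≤ Real.log ((46 : ℕ) : ℝ) := Real.log_natCast_nonneg 46
  set S : ℝ := ∑ u : Fin n, ∑ v : Fin n, wt P u v with hS
  have h8 : ((22 : ℕ) : ℝ) ^ 2 * η2 + ((22 : ℕ) : ℝ) ^ 4 * η4 = 484 * η2 + 234256 * η4 := by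
    push_cast; norm_num
  rw [h8] at h
  have h9 : (484 * η2 + 234256 * η4) * (((22 : ℕ) : ℝ) ^ 2 * Real.log ((46 : ℕ) : ℝ)) ≤
      (484 * η2 + 234256 * η4) * (484 * 3.8287) := by
    apply mul_le_mul_of_nonneg_left _ (by positivity)
    push_cast
    push_cast at h6
    nlinarith
  have h10 : 231 * S ≤ (n : ℝ) ^ 2 * (231 * vv + (484 * η2 + 234256 * η4) * (484 * 3.8287)) :=
    h.trans (mul_le_mul_of_nonneg_left (by linarith) (by positivity))
  have hn2 : 0 < (n : ℝ) ^ 2 := by positivity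
  have hA : 0 ≤ (n : ℝ) ^ 2 * η2 := by positivity
  have hB : 0 ≤ (n : ℝ) ^ 2 * η4 := by positivity
  have e3 : (n : ℝ) ^ 2 * (231 * vv + (484 * η2 + 234256 * η4) * (484 * 3.8287)) =
      231 * ((n : ℝ) ^ 2 * vv) + (484 * 484 * 3.8287) * ((n : ℝ) ^ 2 * η2) +
        (234256 * 484 * 3.8287) * ((n : ℝ) ^ 2 * η4) := by ring
  have e4 : (n : ℝ) ^ 2 * (vv / 2 + 2000 * η2 + 1000000 * η4) =
      1 / 2 * ((n : ℝ) ^ 2 * vv) + 2000 * ((n : ℝ) ^ 2 * η2) +
        1000000 * ((n : ℝ) ^ 2 * η4) := by ring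
  rw [e3] at h10
  rw [e4]
  nlinarith

open Classical in
theorem caseB {n l : ℕ} (hl : 2 ≤ l) (κ : Fin n → Fin l) (P : Fin n → Fin n → Finset (Fin 46))
    (hsymm : ∀ x y, P x y = P y x) (hP : ∀ x y, κ x = κ y → P x y = ∅) (q : ℝ) (hq : 0 < q)
    (hq1 : ∀ i, q ≤ ((univ.filter (fun x => κ x = i)).card : ℝ))
    (hq2 : ∀ i, ((univ.filter (fun x => κ x = i)).card : ℝ) ≤ q + 1)
    (η : ℝ) (h0 : 0 ≤ η)
    (h2 : ((univ.filter (fun p : Fin n × Fin n => κ p.1 ≠ κ p.2 ∧ P p.1 p.2 = ∅)).card : ℝ) ≤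
      η * (n : ℝ) ^ 2)
    (h4 : ((univ.filter (fun x : Fin 4 → Fin n => Real4 P x)).card : ℝ) ≤ η * (n : ℝ) ^ 4) :
    1 / 2 * ∑ x, ∑ y, wt P x y ≤ (q + 1) ^ 2 * ((l : ℝ) ^ 2 / 2 * vv +
      ((l : ℝ) ^ 2 * (η * (n : ℝ) ^ 2 / q ^ 2) + (l : ℝ) ^ 4 * (η * (n : ℝ) ^ 4 / q ^ 4)) *
        ((l : ℝ) ^ 2 * Real.log ((46 : ℕ) : ℝ))) := by
  have h := avg_lemma hl P hsymm (fun i => univ.filter (fun x => κ x = i)) q (q + 1) hq hq1 hq2
    (η * (n : ℝ) ^ 2) (η * (n : ℝ) ^ 4) ((l : ℝ) ^ 2 / 2 * vv) (by positivity) (by positivity)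
    (by have := vv_pos; positivity)
    (fun i j hij => by
      refine le_trans ?_ h2
      have : ((univ.filter (fun x => κ x = i)) ×ˢ (univ.filter (fun x => κ x = j))).filter
          (fun p => P p.1 p.2 = ∅) ⊆
          univ.filter (fun p : Fin n × Fin n => κ p.1 ≠ κ p.2 ∧ P p.1 p.2 = ∅) := by
        intro p hp
        simp only [mem_filter, mem_product, mem_univ, true_and] at hp ⊢
        refine ⟨?_, hp.2⟩
        rw [hp.1.1, hp.1.2]
        exact hij.ne
      exact_mod_cast card_le_card this) h4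
    (fun T => bound_all l hl T)
  refine le_trans (le_of_eq ?_) h
  have h5 : ∑ x, ∑ y, wt P x y =
      ∑ i : Fin l, ∑ j : Fin l, ∑ u ∈ univ.filter (fun x => κ x = i),
        ∑ v ∈ univ.filter (fun x => κ x = j), wt P u v := by
    calc ∑ x, ∑ y, wt P x y
        = ∑ i : Fin l, ∑ u ∈ univ.filter (fun x => κ x = i), ∑ y, wt P u y :=
          (sum_fiberwise univ κ (fun u => ∑ y, wt P u y)).symm
      _ = ∑ i : Fin l, ∑ u ∈ univ.filter (fun x => κ x = i), ∑ j : Fin l,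
            ∑ v ∈ univ.filter (fun y => κ y = j), wt P u v :=
          sum_congr rfl fun i _ => sum_congr rfl fun u _ =>
            (sum_fiberwise univ κ (fun v => wt P u v)).symm
      _ = _ := sum_congr rfl fun i _ => sum_comm
  rw [h5, sum_sym]
  · ring
  · intro i j
    rw [sum_comm]
    refine sum_congr rfl fun u _ => sum_congr rfl fun v _ => ?_
    unfold wt
    rw [hsymm]
  · intro i
    apply sum_eq_zero
    intro u hu
    apply sum_eq_zero
    intro v hv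
    unfold wt
    rw [hP u v (by rw [(mem_filter.1 hu).2, (mem_filter.1 hv).2])]
    simp

open Classical in
theorem equi_parts {n : ℕ} (hn : 0 < n) (G : SimpleGraph (Fin n)) (h : Equitable G) :
    ∃ (l : ℕ) (κ : Fin n → Fin l) (q : ℕ), 1 ≤ l ∧ 1 ≤ q ∧ (∀ x y, G.Adj x y ↔ κ x ≠ κ y) ∧
      (∀ i, q ≤ (univ.filter (fun x => κ x = i)).card) ∧
      (∀ i, (univ.filter (fun x => κ x = i)).card ≤ q + 1) ∧ l * q ≤ n := by
  obtain ⟨hc, he⟩ := h
  obtain ⟨l, κ, hs, hκ⟩ := exists_kappa G hc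
  have hl : 1 ≤ l := by
    have := (κ ⟨0, hn⟩).pos
    omega
  have hne : (univ : Finset (Fin l)).Nonempty := ⟨⟨0, by omega⟩, mem_univ _⟩
  obtain ⟨i0, _, hi0⟩ := exists_min_image univ (fun i => (univ.filter (fun x => κ x = i)).card) hne
  have hcard : ∀ x, Nat.card {z // ¬ G.Adj x z} = (univ.filter (fun z => κ z = κ x)).card := by
    intro x
    rw [Nat.card_eq_fintype_card, Fintype.card_subtype]
    congr 1
    ext z
    simp only [mem_filter, mem_univ, true_and, hκ, not_not]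
    exact eq_comm
  refine ⟨l, κ, (univ.filter (fun x => κ x = i0)).card, hl, ?_, hκ, fun i => hi0 i (mem_univ _),
    ?_, ?_⟩
  · obtain ⟨x, hx⟩ := hs i0
    exact card_pos.2 ⟨x, mem_filter.2 ⟨mem_univ _, hx⟩⟩
  · intro i
    obtain ⟨x, hx⟩ := hs i
    obtain ⟨y, hy⟩ := hs i0
    have := he x y
    rw [hcard, hcard, hx, hy] at this
    exact this
  · have h1 : (univ : Finset (Fin n)).card = ∑ i : Fin l, (univ.filter (fun x => κ x = i)).card :=
      card_eq_sum_card_fiberwise (fun x _ => mem_univ _)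
    rw [card_univ, Fintype.card_fin] at h1
    conv_rhs => rw [h1]
    calc l * (univ.filter (fun x => κ x = i0)).card
        = ∑ i : Fin l, (univ.filter (fun x => κ x = i0)).card := by
          rw [sum_const, card_univ, Fintype.card_fin, smul_eq_mul]
      _ ≤ _ := sum_le_sum fun i _ => hi0 i (mem_univ _)

theorem nB1 {n L : ℝ} (hL0 : 0 < L) (hnL : L ≤ n) : (n + L) ^ 2 ≤ n ^ 2 + 3 * (n * L) := by
  nlinarith

theorem nB2 {n L : ℝ} (hL0 : 0 < L) (hnL : L ≤ n) : (n + L) ^ 2 ≤ 4 * n ^ 2 := by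
  nlinarith

theorem nB3 {n L v : ℝ} (hL0 : 0 < L) (hnL : L ≤ n) (hv : 0 < v) (hv2 : v < 2.66) :
    (n + L) ^ 2 * (v / 2) ≤ n ^ 2 * (v / 2) + 4 * (n * L) := by
  have h11 := nB1 hL0 hnL
  have c1 := mul_le_mul_of_nonneg_right h11 (show 0 ≤ v / 2 by positivity)
  have c2 : 0 ≤ n * L := mul_nonneg (by linarith) hL0.le
  have c3 : n * L * v ≤ n * L * 2.66 := mul_le_mul_of_nonneg_left hv2.le c2
  have c4 : (n ^ 2 + 3 * (n * L)) * (v / 2) = n ^ 2 * (v / 2) + 3 / 2 * (n * L * v) := by ring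
  rw [c4] at c1
  linarith

theorem nB4 {n L ε : ℝ} (hn : 0 < n) (h : 16 * L ≤ ε * n) : 4 * (n * L) ≤ ε / 4 * n ^ 2 := by
  have c1 := mul_le_mul_of_nonneg_left h hn.le
  have c2 : n * (16 * L) = 16 * (n * L) := by ring
  have c3 : n * (ε * n) = ε * n ^ 2 := by ring
  rw [c2, c3] at c1
  linarith

open Classical in
/-- **Upper bound.** -/
theorem upper (ε : ℝ) (hε : 0 < ε) : ∃ n0 : ℕ, ∀ n, n0 ≤ n → ∀ G : SimpleGraph (Fin n),
    Equitable G → Real.log (num 46 PC G) ≤ (vv / 2 + ε) * (n : ℝ) ^ 2 := by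
  set η : ℝ := ε / 16000 with hη
  have hη0 : 0 < η := by positivity
  set L : ℝ := 2 / η with hL
  have hL0 : 0 < L := by positivity
  set ε' : ℝ := ε / (16000000 + 256 * (L ^ 4 + L ^ 8)) with hε'
  have hε'0 : 0 < ε' := by positivity
  have hD : 0 < 16000000 + 256 * (L ^ 4 + L ^ 8) := by positivity
  have hε1 : 16000000 * ε' ≤ ε := by
    rw [hε', ← mul_div_assoc, div_le_iff₀ hD]
    have : 0 ≤ ε * (256 * (L ^ 4 + L ^ 8)) := by positivity
    nlinarith
  have hε2 : 256 * (L ^ 4 + L ^ 8) * ε' ≤ ε := by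
    rw [hε', ← mul_div_assoc, div_le_iff₀ hD]
    have : 0 ≤ ε * 16000000 := by positivity
    nlinarith
  obtain ⟨n0, hn0⟩ := container 46 (by norm_num) ε' hε'0
  refine ⟨n0 + ⌈L⌉₊ + ⌈16 * L / ε⌉₊ + 1, ?_⟩
  intro n hn G hG
  obtain ⟨P, hsymm, hPadj, hP2, hP4, hlog⟩ := hn0 n (by omega) G
  have hnpos : 0 < n := by omega
  have hnr : (0 : ℝ) < n := by exact_mod_cast hnpos
  have hnL : L ≤ n := (Nat.le_ceil _).trans (by exact_mod_cast (by omega))
  have hnL2 : 16 * L / ε ≤ n := (Nat.le_ceil _).trans (by exact_mod_cast (by omega))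
  have hnL3 : 16 * L ≤ ε * n := by
    rw [div_le_iff₀ hε] at hnL2
    linarith
  obtain ⟨l, κ, q, hl, hq, hκ, hq1, hq2, hlq⟩ := equi_parts hnpos G hG
  have hvv := vv_pos
  have hvvu := vv_upper
  have hn2 : 0 < (n : ℝ) ^ 2 := by positivity
  by_cases hcase : ((q : ℝ) + 1) ≤ η * n
  · -- small parts
    have hpairs : ((univ.filter (fun p : Fin n × Fin n => P p.1 p.2 = ∅)).card : ℝ) ≤
        (η + ε') * (n : ℝ) ^ 2 := by
      have hsub : univ.filter (fun p : Fin n × Fin n => P p.1 p.2 = ∅) ⊆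
          (univ.filter (fun p : Fin n × Fin n => κ p.2 = κ p.1)) ∪
          univ.filter (fun p : Fin n × Fin n => G.Adj p.1 p.2 ∧ P p.1 p.2 = ∅) := by
        intro p hp
        rw [mem_union, mem_filter, mem_filter]
        have hp' := (mem_filter.1 hp).2
        by_cases ha : G.Adj p.1 p.2
        · exact Or.inr ⟨mem_univ _, ha, hp'⟩
        · left
          refine ⟨mem_univ _, ?_⟩
          by_contra hne
          exact ha ((hκ _ _).2 (fun h => hne h.symm))
      have h1 : ((univ.filter (fun p : Fin n × Fin n => κ p.2 = κ p.1)).card : ℝ) ≤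
          η * (n : ℝ) ^ 2 := by
        rw [card_filter, Fintype.sum_prod_type]
        push_cast
        have h2 : ∀ x : Fin n, (∑ y : Fin n, if κ y = κ x then (1 : ℝ) else 0) ≤ η * n := by
          intro x
          have h3 := hq2 (κ x)
          rw [card_filter] at h3
          have h4 : ((∑ y : Fin n, if κ y = κ x then 1 else 0 : ℕ) : ℝ) ≤ (q : ℝ) + 1 := by
            exact_mod_cast h3
          push_cast at h4
          exact h4.trans hcase
        calc _ ≤ ∑ x : Fin n, η * n := sum_le_sum fun x _ => h2 x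
          _ = _ := by
            rw [sum_const, card_univ, Fintype.card_fin, nsmul_eq_mul]; ring
      have h2 : ((univ.filter (fun p : Fin n × Fin n => P p.1 p.2 = ∅)).card : ℝ) ≤
          ((univ.filter (fun p : Fin n × Fin n => κ p.2 = κ p.1)).card : ℝ) +
          ((univ.filter (fun p : Fin n × Fin n => G.Adj p.1 p.2 ∧ P p.1 p.2 = ∅)).card : ℝ) := by
        exact_mod_cast (card_le_card hsub).trans (card_union_le _ _)
      calc _ ≤ _ := h2
        _ ≤ η * (n : ℝ) ^ 2 + ε' * (n : ℝ) ^ 2 := add_le_add h1 hP2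
        _ = _ := by ring
    have h := caseA hnpos P hsymm (η + ε') ε' (by positivity) hε'0.le hpairs hP4
    have h5 : 2000 * (η + ε') + 1000000 * ε' + ε' ≤ ε := by
      have : 2000 * η = ε / 8 := by rw [hη]; ring
      linarith
    have h6 : (n : ℝ) ^ 2 * (2000 * (η + ε') + 1000000 * ε' + ε') ≤ (n : ℝ) ^ 2 * ε :=
      mul_le_mul_of_nonneg_left h5 hn2.le
    have h7 : (n : ℝ) ^ 2 * (vv / 2 + 2000 * (η + ε') + 1000000 * ε') + ε' * (n : ℝ) ^ 2 =
        vv / 2 * (n : ℝ) ^ 2 +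
          (n : ℝ) ^ 2 * (2000 * (η + ε') + 1000000 * ε' + ε') := by ring
    have h8 : (vv / 2 + ε) * (n : ℝ) ^ 2 = vv / 2 * (n : ℝ) ^ 2 + (n : ℝ) ^ 2 * ε := by ring
    rw [h8]
    linarith
  · -- few parts
    push Not at hcase
    have hqr : (0 : ℝ) < q := by exact_mod_cast hq
    have hηL : η * L = 2 := by rw [hL]; field_simp
    have hηn : 2 ≤ η * n := by
      rw [← hηL]
      exact mul_le_mul_of_nonneg_left hnL hη0.le
    have hqn : (n : ℝ) ≤ L * q := by
      have h1 : η * n ≤ 2 * q := by linarith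
      have h2 : L * (η * n) ≤ L * (2 * q) := mul_le_mul_of_nonneg_left h1 hL0.le
      have h3 : L * (η * n) = 2 * n := by
        rw [← mul_assoc, mul_comm L η, hηL]
      linarith
    have hnq : (n : ℝ) / q ≤ L := by rw [div_le_iff₀ hqr]; exact hqn
    have hlqr : (l : ℝ) * q ≤ n := by exact_mod_cast hlq
    have hlL : (l : ℝ) ≤ L := by
      have : (l : ℝ) * q ≤ L * q := hlqr.trans hqn
      exact le_of_mul_le_mul_right this hqr
    have hl0 : (0 : ℝ) ≤ l := Nat.cast_nonneg l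
    rcases Nat.lt_or_ge l 2 with hl2 | hl2
    · -- a single part
      have hl1 : l = 1 := by omega
      subst hl1
      have hempty : ∀ x y, P x y = ∅ := by
        intro x y
        apply hPadj
        rw [hκ]
        simp [Subsingleton.elim (κ x) (κ y)]
      have hS : ∑ x, ∑ y, wt P x y = 0 := by
        apply sum_eq_zero
        intro x _
        apply sum_eq_zero
        intro y _
        unfold wt
        rw [hempty]
        simp
      rw [hS] at hlog
      have h16 : ε' * (n : ℝ) ^ 2 ≤ ε * (n : ℝ) ^ 2 :=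
        mul_le_mul_of_nonneg_right (by linarith) hn2.le
      have h18 : (vv / 2 + ε) * (n : ℝ) ^ 2 = vv / 2 * (n : ℝ) ^ 2 + ε * (n : ℝ) ^ 2 := by ring
      have h19 : 0 ≤ vv / 2 * (n : ℝ) ^ 2 := by positivity
      rw [h18]
      linarith
    · have hP2' : ((univ.filter (fun p : Fin n × Fin n => κ p.1 ≠ κ p.2 ∧
          P p.1 p.2 = ∅)).card : ℝ) ≤ ε' * (n : ℝ) ^ 2 := by
        refine le_trans (le_of_eq ?_) hP2
        congr 2
        ext p
        simp only [mem_filter, mem_univ, true_and, hκ]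
      have h := caseB hl2 κ P hsymm (fun x y hxy => hPadj x y (by rw [hκ]; simp [hxy])) q hqr
        (fun i => by exact_mod_cast hq1 i) (fun i => by exact_mod_cast hq2 i) ε' hε'0.le hP2' hP4
      have hlog46 : Real.log ((46 : ℕ) : ℝ) ≤ 4 := by
        have := l46u
        push_cast
        linarith
      have hlog0 : 0 ≤ Real.log ((46 : ℕ) : ℝ) := Real.log_natCast_nonneg 46
      set X : ℝ := (n : ℝ) / q with hX
      have hX0 : 0 ≤ X := by positivity
      have e1 : ε' * (n : ℝ) ^ 2 / (q : ℝ) ^ 2 = ε' * X ^ 2 := by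
        rw [hX, div_pow]; ring
      have e2 : ε' * (n : ℝ) ^ 4 / (q : ℝ) ^ 4 = ε' * X ^ 4 := by
        rw [hX, div_pow]; ring
      rw [e1, e2] at h
      have hX2 : X ^ 2 ≤ L ^ 2 := pow_le_pow_left₀ hX0 hnq 2
      have hX4 : X ^ 4 ≤ L ^ 4 := pow_le_pow_left₀ hX0 hnq 4
      have hl2' : (l : ℝ) ^ 2 ≤ L ^ 2 := pow_le_pow_left₀ hl0 hlL 2
      have hl4' : (l : ℝ) ^ 4 ≤ L ^ 4 := pow_le_pow_left₀ hl0 hlL 4
      have h7 : (l : ℝ) ^ 2 * (ε' * X ^ 2) + (l : ℝ) ^ 4 * (ε' * X ^ 4) ≤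
          (L ^ 4 + L ^ 8) * ε' := by
        have a1 : (l : ℝ) ^ 2 * X ^ 2 ≤ L ^ 2 * L ^ 2 :=
          mul_le_mul hl2' hX2 (by positivity) (by positivity)
        have a2 : (l : ℝ) ^ 4 * X ^ 4 ≤ L ^ 4 * L ^ 4 :=
          mul_le_mul hl4' hX4 (by positivity) (by positivity)
        have a3 := mul_le_mul_of_nonneg_right (add_le_add a1 a2) hε'0.le
        calc _ = ((l : ℝ) ^ 2 * X ^ 2 + (l : ℝ) ^ 4 * X ^ 4) * ε' := by ring
          _ ≤ _ := a3
          _ = _ := by ring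
      have h8 : (q + 1 : ℝ) ^ 2 * (l : ℝ) ^ 2 ≤ ((n : ℝ) + L) ^ 2 := by
        rw [← mul_pow]
        apply pow_le_pow_left₀ (by positivity)
        have : ((q : ℝ) + 1) * l = l * q + l := by ring
        rw [this]
        linarith
      have h9 : (q + 1 : ℝ) ^ 2 * ((l : ℝ) ^ 2 / 2 * vv +
          ((l : ℝ) ^ 2 * (ε' * X ^ 2) + (l : ℝ) ^ 4 * (ε' * X ^ 4)) *
            ((l : ℝ) ^ 2 * Real.log ((46 : ℕ) : ℝ))) ≤
          ((n : ℝ) + L) ^ 2 * (vv / 2 + (L ^ 4 + L ^ 8) * ε' * 4) := by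
        have b1 : ((l : ℝ) ^ 2 * (ε' * X ^ 2) + (l : ℝ) ^ 4 * (ε' * X ^ 4)) *
            Real.log ((46 : ℕ) : ℝ) ≤ (L ^ 4 + L ^ 8) * ε' * 4 :=
          mul_le_mul h7 hlog46 hlog0 (by positivity)
        calc _ = ((q + 1 : ℝ) ^ 2 * (l : ℝ) ^ 2) * (vv / 2 +
              ((l : ℝ) ^ 2 * (ε' * X ^ 2) + (l : ℝ) ^ 4 * (ε' * X ^ 4)) *
                Real.log ((46 : ℕ) : ℝ)) := by ring
          _ ≤ ((q + 1 : ℝ) ^ 2 * (l : ℝ) ^ 2) * (vv / 2 + (L ^ 4 + L ^ 8) * ε' * 4) :=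
              mul_le_mul_of_nonneg_left (add_le_add le_rfl b1) (by positivity)
          _ ≤ _ := mul_le_mul_of_nonneg_right h8 (by positivity)
      have h10 := hlog.trans (add_le_add_left (h.trans h9) (ε' * (n : ℝ) ^ 2))
      refine h10.trans ?_
      have h12 := nB2 hL0 hnL
      have h13 := nB3 hL0 hnL hvv hvvu
      have h14 : ((n : ℝ) + L) ^ 2 * ((L ^ 4 + L ^ 8) * ε' * 4) ≤ (n : ℝ) ^ 2 * (ε / 16) := by
        have c1 := mul_le_mul_of_nonneg_right h12
          (show 0 ≤ (L ^ 4 + L ^ 8) * ε' * 4 by positivity)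
        refine c1.trans ?_
        have c2 : (L ^ 4 + L ^ 8) * ε' * 16 ≤ ε / 16 := by
          have : (L ^ 4 + L ^ 8) * ε' * 16 = 256 * (L ^ 4 + L ^ 8) * ε' / 16 := by ring
          rw [this]
          exact div_le_div_of_nonneg_right hε2 (by norm_num)
        calc 4 * (n : ℝ) ^ 2 * ((L ^ 4 + L ^ 8) * ε' * 4) =
            (n : ℝ) ^ 2 * ((L ^ 4 + L ^ 8) * ε' * 16) := by ring
          _ ≤ _ := mul_le_mul_of_nonneg_left c2 hn2.le
      have h15 := nB4 hnr hnL3
      have h16 : ε' * (n : ℝ) ^ 2 ≤ ε / 16 * (n : ℝ) ^ 2 :=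
        mul_le_mul_of_nonneg_right (by linarith) hn2.le
      have h17 : ((n : ℝ) + L) ^ 2 * (vv / 2 + (L ^ 4 + L ^ 8) * ε' * 4) =
          ((n : ℝ) + L) ^ 2 * (vv / 2) + ((n : ℝ) + L) ^ 2 * ((L ^ 4 + L ^ 8) * ε' * 4) := by ring
      have h18 : (vv / 2 + ε) * (n : ℝ) ^ 2 = (n : ℝ) ^ 2 * (vv / 2) + ε * (n : ℝ) ^ 2 := by ring
      have h19 : 0 ≤ ε * (n : ℝ) ^ 2 := by positivity
      rw [h17, h18]
      linarith

end Pool.Agent.TH469.EQ
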